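import Mathlib

namespace Pool.Agent.Lib.MP_5bf547_co

open Classical

abbrev Pt := ℝ × ℝ

/-- orientation determinant -/
def ori (a b c : Pt) : ℝ := (b.1 - a.1) * (c.2 - a.2) - (b.2 - a.2) * (c.1 - a.1)

def lx (p q : Pt) : Prop := p.1 < q.1 ∨ (p.1 = q.1 ∧ p.2 < q.2)

lemma lx_tri (p q : Pt) : lx p q ∨ p = q ∨ lx q p := by
  unfold lx
  rcases lt_trichotomy p.1 q.1 with h | h | h
  · exact Or.inl (Or.inl h)
  · rcases lt_trichotomy p.2 q.2 with h2 | h2 | h2
    · exact Or.inl (Or.inr ⟨h, h2⟩)
    · exact Or.inr (Or.inl (Prod.ext h h2))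
    · exact Or.inr (Or.inr (Or.inr ⟨h.symm, h2⟩))
  · exact Or.inr (Or.inr (Or.inl h))

lemma lx_asymm {p q : Pt} (h : lx p q) : ¬ lx q p := by
  unfold lx at *
  rintro (h2 | ⟨h2, h3⟩) <;> rcases h with h | ⟨h, h4⟩ <;> linarith

lemma lx_irrefl (p : Pt) : ¬ lx p p := fun h => lx_asymm h h

lemma lx_trans {p q r : Pt} (h : lx p q) (h' : lx q r) : lx p r := by
  unfold lx at *
  rcases h with h | ⟨h, h4⟩ <;> rcases h' with h2 | ⟨h2, h3⟩
  · left; linarith
  · left; linarith
  · left; linarith
  · right; exact ⟨by linarith, by linarith⟩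

lemma lx_le {p q : Pt} (h : lx p q) : p.1 ≤ q.1 := by
  rcases h with h | ⟨h, _⟩ <;> linarith

lemma not_lx_of_lt {p q : Pt} (h : q.1 < p.1) : ¬ lx p q := fun h' => by
  have := lx_le h'; linarith

lemma mem_seg_iff {a b z : Pt} : z ∈ segment ℝ a b ↔
    ∃ t : ℝ, 0 ≤ t ∧ t ≤ 1 ∧ z.1 = a.1 + t * (b.1 - a.1) ∧ z.2 = a.2 + t * (b.2 - a.2) := by
  rw [segment_eq_image']
  constructor
  · rintro ⟨t, ⟨h0, h1⟩, rfl⟩
    exact ⟨t, h0, h1, by simp, by simp⟩
  · rintro ⟨t, h0, h1, e1, e2⟩
    exact ⟨t, ⟨h0, h1⟩, Prod.ext (by simp [e1]) (by simp [e2])⟩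

/-- two segments whose endpoints are weakly on opposite sides meet -/
lemma cross_of_ori {s s' z z' : Pt} (h1 : ori s s' z ≤ 0) (h2 : 0 ≤ ori s s' z')
    (h12 : ori s s' z < ori s s' z') (h3 : 0 ≤ ori z z' s) (h4 : ori z z' s' ≤ 0) :
    ¬ Disjoint (segment ℝ s s') (segment ℝ z z') := by
  rw [Set.not_disjoint_iff]
  set D := ori s s' z' - ori s s' z with hD
  have hDpos : 0 < D := by linarith
  have hD2 : D = ori z z' s - ori z z' s' := by simp only [hD, ori]; ring
  refine ⟨(z.1 + (-ori s s' z / D) * (z'.1 - z.1), z.2 + (-ori s s' z / D) * (z'.2 - z.2)),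
    mem_seg_iff.2 ⟨ori z z' s / D, by positivity, ?_, ?_, ?_⟩,
    mem_seg_iff.2 ⟨-ori s s' z / D, div_nonneg (by linarith) hDpos.le, ?_, rfl, rfl⟩⟩
  · rw [div_le_one hDpos]; linarith
  · field_simp
    simp only [hD, ori]; ring
  · field_simp
    simp only [hD, ori]; ring
  · rw [div_le_one hDpos]; linarith

/-- cross product transitivity for lexicographically positive vectors -/
lemma cr_trans {u1 u2 v1 v2 w1 w2 : ℝ} (hu : 0 < u1 ∨ (0 = u1 ∧ 0 < u2))
    (hv : 0 < v1 ∨ (0 = v1 ∧ 0 < v2)) (hw : 0 < w1 ∨ (0 = w1 ∧ 0 < w2))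
    (h1 : 0 ≤ u1 * v2 - u2 * v1) (h2 : 0 ≤ v1 * w2 - v2 * w1) :
    0 ≤ u1 * w2 - u2 * w1 ∧
    (0 < u1 * v2 - u2 * v1 ∨ 0 < v1 * w2 - v2 * w1 → 0 < u1 * w2 - u2 * w1) := by
  have id1 : (u1 * w2 - u2 * w1) * v1 = (u1 * v2 - u2 * v1) * w1 + (v1 * w2 - v2 * w1) * u1 := by
    ring
  rcases hv with hv | ⟨hv, hv2⟩
  · have hu0 : 0 ≤ u1 := by rcases hu with h | ⟨h, _⟩ <;> linarith
    have hw0 : 0 ≤ w1 := by rcases hw with h | ⟨h, _⟩ <;> linarith
    have hu1 : 0 < u1 := by
      rcases hu with h | ⟨h, h'⟩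
      · exact h
      · subst h; nlinarith
    constructor
    · by_contra hc
      push Not at hc
      nlinarith [mul_nonneg h1 hw0, mul_nonneg h2 hu0]
    · rintro (h | h)
      · rcases hw with hw | ⟨hw, hw2⟩
        · by_contra hc
          push Not at hc
          nlinarith [mul_pos h hw, mul_nonneg h2 hu0]
        · subst hw; nlinarith
      · by_contra hc
        push Not at hc
        nlinarith [mul_nonneg h1 hw0, mul_pos h hu1]
  · subst hv
    have hw1 : w1 = 0 := by
      rcases hw with h | ⟨h, _⟩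
      · nlinarith
      · exact h.symm
    subst hw1
    have hw2 : 0 < w2 := by
      rcases hw with h | ⟨_, h⟩
      · linarith
      · exact h
    have hu0 : 0 ≤ u1 := by rcases hu with h | ⟨h, _⟩ <;> linarith
    constructor
    · nlinarith
    · rintro (h | h)
      · have : 0 < u1 := by nlinarith
        nlinarith
      · linarith

lemma lx_vec {p q : Pt} (h : lx p q) : 0 < q.1 - p.1 ∨ (0 = q.1 - p.1 ∧ 0 < q.2 - p.2) := by
  rcases h with h | ⟨h, h'⟩
  · left; linarith
  · right; constructor <;> linarith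

/-- the segment `s s'` passes above `z` -/
def Ab (s s' z : Pt) : Prop :=
  (lx s z ∧ lx z s' ∧ ori s s' z < 0) ∨ (lx s' z ∧ lx z s ∧ ori s' s z < 0)

/-- the segment `s s'` passes below `z` -/
def Be (s s' z : Pt) : Prop :=
  (lx s z ∧ lx z s' ∧ 0 < ori s s' z) ∨ (lx s' z ∧ lx z s ∧ 0 < ori s' s z)

lemma Ab_comm (s s' z : Pt) : Ab s s' z ↔ Ab s' s z := or_comm
lemma Be_comm (s s' z : Pt) : Be s s' z ↔ Be s' s z := or_comm

noncomputable def ind (P : Prop) : ZMod 2 := if P then 1 else 0

lemma ind_true {P : Prop} (h : P) : ind P = 1 := if_pos h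
lemma ind_false {P : Prop} (h : ¬ P) : ind P = 0 := if_neg h
lemma ind_congr {P Q : Prop} (h : P ↔ Q) : ind P = ind Q := by rw [propext h]

lemma Ab_of_lx {s s' z : Pt} (h : lx s s') : Ab s s' z ↔ lx s z ∧ lx z s' ∧ ori s s' z < 0 := by
  constructor
  · rintro (h1 | ⟨h1, h2, _⟩)
    · exact h1
    · exact absurd (lx_trans h1 h2) (lx_asymm h)
  · exact Or.inl

lemma Be_of_lx {s s' z : Pt} (h : lx s s') : Be s s' z ↔ lx s z ∧ lx z s' ∧ 0 < ori s s' z := by
  constructor
  · rintro (h1 | ⟨h1, h2, _⟩)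
    · exact h1
    · exact absurd (lx_trans h1 h2) (lx_asymm h)
  · exact Or.inl

lemma not_Ab_self (s z : Pt) : ¬ Ab s s z := by
  rintro (⟨h1, h2, _⟩ | ⟨h1, h2, _⟩) <;> exact lx_asymm h1 h2

lemma not_Be_self (s z : Pt) : ¬ Be s s z := by
  rintro (⟨h1, h2, _⟩ | ⟨h1, h2, _⟩) <;> exact lx_asymm h1 h2

/-- staggered position `s < z < s' < z'` -/
lemma stag {s s' z z' : Pt} (h1 : lx s z) (h2 : lx z s') (h3 : lx s' z')
    (hd : Disjoint (segment ℝ s s') (segment ℝ z z')) :
    (ori s s' z < 0 ↔ 0 < ori z z' s') ∧ (0 < ori s s' z ↔ ori z z' s' < 0) := by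
  have hu := lx_vec h1
  have hv := lx_vec h2
  have hw := lx_vec h3
  set u1 := z.1 - s.1; set u2 := z.2 - s.2
  set v1 := s'.1 - z.1; set v2 := s'.2 - z.2
  set w1 := z'.1 - s'.1; set w2 := z'.2 - s'.2
  have e1 : ori s s' z = -(u1 * v2 - u2 * v1) := by simp only [ori, u1, u2, v1, v2]; ring
  have e2 : ori z z' s' = -(v1 * w2 - v2 * w1) := by simp only [ori, w1, w2, v1, v2]; ring
  have e3 : ori s s' z' = (u1 * w2 - u2 * w1) + (v1 * w2 - v2 * w1) := by
    simp only [ori, u1, u2, v1, v2, w1, w2]; ring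
  have e4 : ori z z' s = (u1 * v2 - u2 * v1) + (u1 * w2 - u2 * w1) := by
    simp only [ori, u1, u2, v1, v2, w1, w2]; ring
  have key1 : 0 ≤ u1 * v2 - u2 * v1 → 0 ≤ v1 * w2 - v2 * w1 →
      (0 < u1 * v2 - u2 * v1 ∨ 0 < v1 * w2 - v2 * w1) → False := by
    intro a b c
    obtain ⟨k1, k2⟩ := cr_trans hu hv hw a b
    have k3 := k2 c
    exact cross_of_ori (s := s) (s' := s') (z := z) (z' := z') (by linarith) (by linarith)
      (by linarith) (by linarith) (by linarith) hd
  have key2 : u1 * v2 - u2 * v1 ≤ 0 → v1 * w2 - v2 * w1 ≤ 0 →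
      (u1 * v2 - u2 * v1 < 0 ∨ v1 * w2 - v2 * w1 < 0) → False := by
    intro a b c
    obtain ⟨k1, k2⟩ := cr_trans hw hv hu (by linarith) (by linarith)
    have k3 := k2 (by rcases c with c | c; right; linarith; left; linarith)
    have e5 : ori z' z s = -ori z z' s := by simp only [ori]; ring
    have e6 : ori z' z s' = -ori z z' s' := by simp only [ori]; ring
    rw [segment_symm ℝ z z'] at hd
    exact cross_of_ori (s := s) (s' := s') (z := z') (z' := z) (by linarith) (by linarith)
      (by linarith) (by linarith) (by linarith) hd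
  have key3 : u1 * v2 - u2 * v1 = 0 → False := by
    intro a
    by_cases b : 0 < v1 * w2 - v2 * w1
    · exact key1 a.ge b.le (Or.inr b)
    · by_cases c : v1 * w2 - v2 * w1 < 0
      · exact key2 a.le c.le (Or.inr c)
      · -- `z` lies on the segment `s s'`
        apply Set.disjoint_left.1 hd _ (left_mem_segment ℝ z z')
        rw [mem_seg_iff]
        rcases hu with hu | ⟨hu, hu'⟩
        · have hv0 : 0 ≤ v1 := by rcases hv with h | ⟨h, _⟩ <;> linarith
          have hs : 0 < u1 + v1 := by linarith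
          refine ⟨u1 / (u1 + v1), by positivity, by rw [div_le_one hs]; linarith, ?_, ?_⟩
          · have : s'.1 - s.1 = u1 + v1 := by simp only [u1, v1]; ring
            rw [this]; field_simp; simp only [u1]; ring
          · have : s'.2 - s.2 = u2 + v2 := by simp only [u2, v2]; ring
            rw [this]; field_simp
            have : z.2 = s.2 + u2 := by simp only [u2]; ring
            rw [this]; linarith
        · have hv1 : v1 = 0 := by
            rw [← hu] at a
            have : u2 * v1 = 0 := by linarith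
            rcases mul_eq_zero.1 this with h | h
            · linarith
            · exact h
          have hv2 : 0 < v2 := by
            rcases hv with h | ⟨_, h⟩
            · linarith
            · exact h
          have hs : 0 < u2 + v2 := by linarith
          refine ⟨u2 / (u2 + v2), by positivity, by rw [div_le_one hs]; linarith, ?_, ?_⟩
          · have : s'.1 - s.1 = u1 + v1 := by simp only [u1, v1]; ring
            rw [this, hv1, ← hu]
            have : z.1 = s.1 + u1 := by simp only [u1]; ring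
            rw [this, ← hu]; ring
          · have : s'.2 - s.2 = u2 + v2 := by simp only [u2, v2]; ring
            rw [this]; field_simp; simp only [u2]; ring
  rw [e1, e2]
  refine ⟨⟨fun h => ?_, fun h => ?_⟩, ⟨fun h => ?_, fun h => ?_⟩⟩
  · by_contra hc
    exact key1 (by linarith) (by linarith) (Or.inl (by linarith))
  · by_contra hc
    rcases eq_or_lt_of_le (show u1 * v2 - u2 * v1 ≤ 0 by linarith) with h' | h'
    · exact key3 h'
    · exact key2 h'.le (by linarith) (Or.inl h')
  · by_contra hc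
    exact key2 (by linarith) (by linarith) (Or.inl (by linarith))
  · by_contra hc
    rcases eq_or_lt_of_le (show 0 ≤ u1 * v2 - u2 * v1 by linarith) with h' | h'
    · exact key3 h'.symm
    · exact key1 h'.le (by linarith) (Or.inl h')

/-- nested position `s < z < z' < s'` -/
lemma nest {s s' z z' : Pt} (h1 : lx s z) (h2 : lx z z') (h3 : lx z' s')
    (hd : Disjoint (segment ℝ s s') (segment ℝ z z')) :
    (ori s s' z < 0 ↔ ori s s' z' < 0) ∧ (0 < ori s s' z ↔ 0 < ori s s' z') := by
  have hu := lx_vec h1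
  have hv := lx_vec h2
  have hw := lx_vec h3
  set u1 := z.1 - s.1; set u2 := z.2 - s.2
  set v1 := z'.1 - z.1; set v2 := z'.2 - z.2
  set w1 := s'.1 - z'.1; set w2 := s'.2 - z'.2
  have e1 : ori s s' z = -(u1 * v2 - u2 * v1) - (u1 * w2 - u2 * w1) := by
    simp only [ori, u1, u2, v1, v2, w1, w2]; ring
  have e2 : ori s s' z' = -(u1 * w2 - u2 * w1) - (v1 * w2 - v2 * w1) := by
    simp only [ori, u1, u2, v1, v2, w1, w2]; ring
  have e3 : ori z z' s = (u1 * v2 - u2 * v1) := by
    simp only [ori, u1, u2, v1, v2]; ring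
  have e4 : ori z z' s' = (v1 * w2 - v2 * w1) := by
    simp only [ori, w1, w2, v1, v2]; ring
  have key1 : ori s s' z ≤ 0 → 0 ≤ ori s s' z' → ori s s' z < ori s s' z' → False := by
    intro a b c
    refine cross_of_ori a b c ?_ ?_ hd
    · by_contra hc
      have k := cr_trans hv hu hw (by linarith) (by linarith)
      have := k.2 (Or.inl (by linarith))
      linarith
    · by_contra hc
      have k := cr_trans hv hw hu (by linarith) (by linarith)
      have := k.2 (Or.inl (by linarith))
      linarith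
  have key2 : ori s s' z' ≤ 0 → 0 ≤ ori s s' z → ori s s' z' < ori s s' z → False := by
    intro a b c
    have e5 : ori z' z s = -ori z z' s := by simp only [ori]; ring
    have e6 : ori z' z s' = -ori z z' s' := by simp only [ori]; ring
    rw [segment_symm ℝ z z'] at hd
    refine cross_of_ori a b c ?_ ?_ hd
    · by_contra hc
      have k := cr_trans hw hu hv (by linarith) (by linarith)
      have := k.2 (Or.inr (by linarith))
      linarith
    · by_contra hc
      have k := cr_trans hu hw hv (by linarith) (by linarith)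
      have := k.2 (Or.inr (by linarith))
      linarith
  refine ⟨⟨fun h => ?_, fun h => ?_⟩, ⟨fun h => ?_, fun h => ?_⟩⟩
  · by_contra hc; exact key1 h.le (by linarith) (by linarith)
  · by_contra hc; exact key2 h.le (by linarith) (by linarith)
  · by_contra hc; exact key2 (by linarith) h.le (by linarith)
  · by_contra hc; exact key1 (by linarith) h.le (by linarith)

lemma two0 (x : ZMod 2) : x + x = 0 := CharTwo.add_self_eq_zero x

lemma lx_of_ne {p q : Pt} (h : p ≠ q) : lx p q ∨ lx q p := by
  rcases lx_tri p q with h1 | h1 | h1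
  · exact Or.inl h1
  · exact absurd h1 h
  · exact Or.inr h1

lemma sq_aux {s s' z z' : Pt} (hs : lx s s') (hz : lx z z')
    (hd : Disjoint (segment ℝ s s') (segment ℝ z z')) :
    ind (Ab s s' z) + ind (Ab s s' z') + ind (Be z z' s) + ind (Be z z' s') = 0 := by
  have ne : ∀ a b, a ∈ segment ℝ s s' → b ∈ segment ℝ z z' → a ≠ b := by
    intro a b ha hb hab
    exact Set.disjoint_left.1 hd ha (hab ▸ hb)
  have n1 := lx_of_ne (ne s z (left_mem_segment _ _ _) (left_mem_segment _ _ _))
  have n2 := lx_of_ne (ne s z' (left_mem_segment _ _ _) (right_mem_segment _ _ _))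
  have n3 := lx_of_ne (ne s' z (right_mem_segment _ _ _) (left_mem_segment _ _ _))
  have n4 := lx_of_ne (ne s' z' (right_mem_segment _ _ _) (right_mem_segment _ _ _))
  rw [ind_congr (Ab_of_lx hs), ind_congr (Ab_of_lx hs), ind_congr (Be_of_lx hz),
    ind_congr (Be_of_lx hz)]
  rcases n1 with n1 | n1
  · rcases n3 with n3 | n3
    · -- s < s' < z < z'
      rw [ind_false (fun h => lx_asymm n3 h.2.1),
        ind_false (fun h => lx_asymm (lx_trans n3 hz) h.2.1),
        ind_false (fun h => lx_asymm n1 h.1), ind_false (fun h => lx_asymm n3 h.1)]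
      simp
    · rcases n4 with n4 | n4
      · -- s < z < s' < z'
        have k := (stag n1 n3 n4 hd).1
        rw [ind_false (P := lx s z' ∧ _) (fun h => lx_asymm n4 h.2.1),
          ind_false (P := lx z s ∧ _) (fun h => lx_asymm n1 h.1)]
        rw [ind_congr (Q := ori s s' z < 0) (by simp [n1, n3]),
          ind_congr (P := lx z s' ∧ _) (Q := ori s s' z < 0) (by simp [n3, n4, k])]
        simp [two0]
      · -- s < z < z' < s'
        have k := (nest n1 hz n4 hd).1
        rw [ind_false (P := lx z s ∧ _) (fun h => lx_asymm n1 h.1),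
          ind_false (P := lx z s' ∧ _) (fun h => lx_asymm n4 h.2.1)]
        rw [ind_congr (Q := ori s s' z < 0) (by simp [n1, n3]),
          ind_congr (P := lx s z' ∧ _) (Q := ori s s' z < 0)
            (by simp [lx_trans n1 hz, n4, k])]
        simp [two0]
  · rcases n2 with n2 | n2
    · rcases n4 with n4 | n4
      · -- z < s < s' < z'
        have k := (nest n1 hs n4 hd.symm).2
        rw [ind_false (P := lx s z ∧ _) (fun h => lx_asymm n1 h.1),
          ind_false (P := lx s z' ∧ _) (fun h => lx_asymm n4 h.2.1)]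
        rw [ind_congr (P := lx z s ∧ _) (Q := 0 < ori z z' s) (by simp [n1, n2]),
          ind_congr (P := lx z s' ∧ _) (Q := 0 < ori z z' s)
            (by simp [lx_trans n1 hs, n4, k])]
        simp [two0]
      · -- z < s < z' < s'
        have k := (stag n1 n2 n4 hd.symm).2
        rw [ind_false (P := lx s z ∧ _) (fun h => lx_asymm n1 h.1),
          ind_false (P := lx z s' ∧ _) (fun h => lx_asymm n4 h.2.1)]
        rw [ind_congr (P := lx z s ∧ _) (Q := 0 < ori z z' s) (by simp [n1, n2]),
          ind_congr (P := lx s z' ∧ _) (Q := 0 < ori z z' s) (by simp [n2, n4, k])]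
        simp [two0]
    · -- z < z' < s < s'
      rw [ind_false (fun h => lx_asymm n1 h.1), ind_false (fun h => lx_asymm n2 h.1),
        ind_false (fun h => lx_asymm n2 h.2.1),
        ind_false (fun h => lx_asymm (lx_trans n2 hs) h.2.1)]
      simp

/-- the square identity -/
lemma sq {s s' z z' : Pt} (hd : Disjoint (segment ℝ s s') (segment ℝ z z')) :
    ind (Ab s s' z) + ind (Ab s s' z') + ind (Be z z' s) + ind (Be z z' s') = 0 := by
  rcases lx_tri s s' with hs | hs | hs
  · rcases lx_tri z z' with hz | hz | hz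
    · exact sq_aux hs hz hd
    · subst hz
      rw [ind_false (not_Be_self _ _), ind_false (not_Be_self _ _), two0]; simp
    · rw [segment_symm ℝ z z'] at hd
      have := sq_aux hs hz hd
      rw [ind_congr (Be_comm z z' s), ind_congr (Be_comm z z' s'), ← this]; ring
  · subst hs
    rw [ind_false (not_Ab_self _ _), ind_false (not_Ab_self _ _), zero_add, zero_add, two0]
  · rw [segment_symm ℝ s s'] at hd
    rcases lx_tri z z' with hz | hz | hz
    · have := sq_aux hs hz hd
      rw [ind_congr (Ab_comm s s' z), ind_congr (Ab_comm s s' z'), ← this]; ring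
    · subst hz
      rw [ind_false (not_Be_self _ _), ind_false (not_Be_self _ _), two0]; simp
    · rw [segment_symm ℝ z z'] at hd
      have := sq_aux hs hz hd
      rw [ind_congr (Ab_comm s s' z), ind_congr (Ab_comm s s' z'),
        ind_congr (Be_comm z z' s), ind_congr (Be_comm z z' s'), ← this]; ring

lemma mem_seg_of_ori {s s' z : Pt} (h1 : lx s z) (h2 : lx z s') (h : ori s s' z = 0) :
    z ∈ segment ℝ s s' := by
  by_contra hc
  have hd : Disjoint (segment ℝ s s') (segment ℝ z (z.1 + 1, z.2)) ∨ True := Or.inr trivial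
  clear hd
  have hu := lx_vec h1
  have hv := lx_vec h2
  apply hc
  rw [mem_seg_iff]
  unfold ori at h
  rcases hu with hu | ⟨hu, hu'⟩
  · have hv0 : 0 ≤ s'.1 - z.1 := by rcases hv with h | ⟨h, _⟩ <;> linarith
    have hs : 0 < s'.1 - s.1 := by linarith
    refine ⟨(z.1 - s.1) / (s'.1 - s.1), by positivity, by rw [div_le_one hs]; linarith, ?_, ?_⟩
    · field_simp; ring
    · field_simp; linarith
  · have hv1 : s'.1 - s.1 = 0 := by
      rw [← hu] at h
      have : (s'.1 - s.1) * (z.2 - s.2) = 0 := by linarith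
      rcases mul_eq_zero.1 this with h | h
      · exact h
      · linarith
    have hv2 : 0 < s'.2 - z.2 := by
      rcases hv with h | ⟨_, h⟩
      · linarith
      · exact h
    have hs : 0 < s'.2 - s.2 := by linarith
    refine ⟨(z.2 - s.2) / (s'.2 - s.2), by positivity, by rw [div_le_one hs]; linarith, ?_, ?_⟩
    · rw [hv1]; linarith
    · field_simp; ring

lemma sum_aux {s s' z : Pt} (hs : lx s s') (hz : z ∉ segment ℝ s s') :
    ind (Ab s s' z) + ind (Be s s' z) = ind (lx s z) + ind (lx s' z) := by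
  rw [ind_congr (Ab_of_lx hs), ind_congr (Be_of_lx hs)]
  have n1 : s ≠ z := fun h => hz (h ▸ left_mem_segment _ _ _)
  have n2 : s' ≠ z := fun h => hz (h ▸ right_mem_segment _ _ _)
  rcases lx_of_ne n1 with n1 | n1
  · rcases lx_of_ne n2 with n2 | n2
    · rw [ind_false (fun h => lx_asymm n2 h.2.1), ind_false (fun h => lx_asymm n2 h.2.1),
        ind_true n1, ind_true n2]
      rfl
    · rw [ind_true n1, ind_false (lx_asymm n2)]
      rcases lt_trichotomy (ori s s' z) 0 with h | h | h
      · rw [ind_true ⟨n1, n2, h⟩, ind_false (fun h' => lt_asymm h h'.2.2)]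
      · exact absurd (mem_seg_of_ori n1 n2 h) hz
      · rw [ind_true (P := lx s z ∧ lx z s' ∧ 0 < _) ⟨n1, n2, h⟩,
          ind_false (fun h' => lt_asymm h h'.2.2)]
        rfl
  · rw [ind_false (fun h => lx_asymm n1 h.1), ind_false (fun h => lx_asymm n1 h.1),
      ind_false (lx_asymm n1), ind_false (lx_asymm (lx_trans n1 hs))]

lemma sum_seg {s s' z : Pt} (hz : z ∉ segment ℝ s s') :
    ind (Ab s s' z) + ind (Be s s' z) = ind (lx s z) + ind (lx s' z) := by
  rcases lx_tri s s' with hs | hs | hs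
  · exact sum_aux hs hz
  · subst hs
    rw [ind_false (not_Ab_self _ _), ind_false (not_Be_self _ _), two0, two0]
  · rw [segment_symm] at hz
    rw [ind_congr (Ab_comm s s' z), ind_congr (Be_comm s s' z), sum_aux hs hz, add_comm]

/-- polygonal connectedness inside a set -/
def Conn (S : Set Pt) (y y' : Pt) : Prop :=
  Relation.ReflTransGen (fun p q => segment ℝ p q ⊆ S) y y'

lemma Conn.refl (S : Set Pt) (y : Pt) : Conn S y y := Relation.ReflTransGen.refl

lemma Conn.trans {S : Set Pt} {a b c : Pt} (h : Conn S a b) (h' : Conn S b c) : Conn S a c :=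
  Relation.ReflTransGen.trans h h'

lemma Conn.single {S : Set Pt} {a b : Pt} (h : segment ℝ a b ⊆ S) : Conn S a b :=
  Relation.ReflTransGen.single h

lemma Conn.symm {S : Set Pt} {a b : Pt} (h : Conn S a b) : Conn S b a := by
  induction h with
  | refl => exact Conn.refl _ _
  | tail _ h2 ih => exact Conn.trans (Conn.single (by rwa [segment_symm])) ih

lemma Conn.mono {S T : Set Pt} (hST : S ⊆ T) {a b : Pt} (h : Conn S a b) : Conn T a b := by
  induction h with
  | refl => exact Conn.refl _ _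
  | tail _ h2 ih => exact Conn.trans ih (Conn.single (h2.trans hST))

lemma Conn.mem {S : Set Pt} {a b : Pt} (h : Conn S a b) (ha : a ∈ S) : b ∈ S := by
  induction h with
  | refl => exact ha
  | tail _ h2 _ => exact h2 (right_mem_segment _ _ _)

def MoveB (S : Set Pt) (y y' : Pt) (f : Pt → ZMod 2) : Prop :=
  ∀ z z', Disjoint S (segment ℝ z z') → f z + f z' = ind (Be z z' y) + ind (Be z z' y')

def MoveA (S : Set Pt) (y y' : Pt) (g : Pt → ZMod 2) : Prop :=
  ∀ z z', Disjoint S (segment ℝ z z') → g z + g z' = ind (Ab z z' y) + ind (Ab z z' y')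

/-- parities of a polygonal path in `S` from `y` to `y'` -/
lemma exists_par {S : Set Pt} {y y' : Pt} (h : Conn S y y') :
    ∃ f g : Pt → ZMod 2, MoveB S y y' f ∧ MoveA S y y' g ∧
      (∀ z, z ∉ S → f z + g z = ind (lx y z) + ind (lx y' z)) ∧
      (∀ (T : Set Pt) (u u' : Pt) (f' : Pt → ZMod 2), Disjoint T S → MoveB T u u' f' →
        f' y + f' y' = g u + g u') := by
  induction h with
  | refl =>
    exact ⟨0, 0, fun z z' _ => by simp [two0], fun z z' _ => by simp [two0],
      fun z _ => by simp [two0], fun T u u' f' _ _ => by simp [two0]⟩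
  | @tail b c _ h2 ih =>
    obtain ⟨f, g, h1, h3, h4, h5⟩ := ih
    refine ⟨fun z => f z + ind (Ab b c z), fun z => g z + ind (Be b c z), ?_, ?_, ?_, ?_⟩
    · intro z z' hd
      have k := sq (Set.disjoint_of_subset_left h2 hd)
      have k2 := h1 z z' hd
      linear_combination k + k2 - two0 (ind (Be z z' c))
    · intro z z' hd
      have k := sq (Set.disjoint_of_subset_left h2 hd).symm
      have k2 := h3 z z' hd
      linear_combination k + k2 - two0 (ind (Ab z z' c))
    · intro z hz
      have k := sum_seg (fun h => hz (h2 h))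
      have k2 := h4 z hz
      linear_combination k + k2 + two0 (ind (lx b z))
    · intro T u u' f' hd hm
      have k := hm b c (Set.disjoint_of_subset_right h2 hd)
      have k2 := h5 T u u' f' hd hm
      linear_combination k + k2 - two0 (f' b)

/-! evaluation lemmas -/

lemma Ab_vert {s s' z : Pt} (h : s.1 = s'.1) : ¬ Ab s s' z := by
  rintro (⟨h1, h2, h3⟩ | ⟨h1, h2, h3⟩)
  · have a := lx_le h1; have b := lx_le h2
    have : z.1 = s.1 := by linarith
    simp [ori, h, this] at h3
  · have a := lx_le h1; have b := lx_le h2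
    have : z.1 = s'.1 := by linarith
    simp [ori, h, this] at h3

lemma Be_vert {s s' z : Pt} (h : s.1 = s'.1) : ¬ Be s s' z := by
  rintro (⟨h1, h2, h3⟩ | ⟨h1, h2, h3⟩)
  · have a := lx_le h1; have b := lx_le h2
    have : z.1 = s.1 := by linarith
    simp [ori, h, this] at h3
  · have a := lx_le h1; have b := lx_le h2
    have : z.1 = s'.1 := by linarith
    simp [ori, h, this] at h3

lemma Ab_out {s s' z : Pt} (h : (lx z s ∧ lx z s') ∨ (lx s z ∧ lx s' z)) : ¬ Ab s s' z := by
  rintro (⟨h1, h2, _⟩ | ⟨h1, h2, _⟩) <;> rcases h with ⟨a, b⟩ | ⟨a, b⟩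
  · exact lx_asymm h1 a
  · exact lx_asymm h2 b
  · exact lx_asymm h1 b
  · exact lx_asymm h2 a

lemma Be_out {s s' z : Pt} (h : (lx z s ∧ lx z s') ∨ (lx s z ∧ lx s' z)) : ¬ Be s s' z := by
  rintro (⟨h1, h2, _⟩ | ⟨h1, h2, _⟩) <;> rcases h with ⟨a, b⟩ | ⟨a, b⟩
  · exact lx_asymm h1 a
  · exact lx_asymm h2 b
  · exact lx_asymm h1 b
  · exact lx_asymm h2 a

lemma Ab_neg {s s' z : Pt} (h : s.1 < s'.1) (h' : 0 ≤ ori s s' z) : ¬ Ab s s' z := by
  rw [Ab_of_lx (Or.inl h)]
  intro k; linarith [k.2.2]

lemma Be_neg {s s' z : Pt} (h : s.1 < s'.1) (h' : ori s s' z ≤ 0) : ¬ Be s s' z := by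
  rw [Be_of_lx (Or.inl h)]
  intro k; linarith [k.2.2]

lemma Ab_pos {s s' z : Pt} (h1 : s.1 < z.1) (h2 : z.1 < s'.1) (h' : ori s s' z < 0) :
    Ab s s' z := Or.inl ⟨Or.inl h1, Or.inl h2, h'⟩

lemma Be_pos {s s' z : Pt} (h1 : s.1 < z.1) (h2 : z.1 < s'.1) (h' : 0 < ori s s' z) :
    Be s s' z := Or.inl ⟨Or.inl h1, Or.inl h2, h'⟩

end Pool.Agent.Lib.MP_5bf547_co
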