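import Mathlib
import Pool.Agent.Lib.MP_5bf547_co.Par

namespace Pool.Agent.Lib.MP_5bf547_co

open Classical

lemma mem_seg_of_on {a b z : Pt} (hab : a.1 < b.1) (h1 : a.1 ≤ z.1) (h2 : z.1 ≤ b.1)
    (h : ori a b z = 0) : z ∈ segment ℝ a b := by
  rw [mem_seg_iff]
  have hs : 0 < b.1 - a.1 := by linarith
  refine ⟨(z.1 - a.1) / (b.1 - a.1), div_nonneg (by linarith) hs.le,
    by rw [div_le_one hs]; linarith, ?_, ?_⟩
  · field_simp; ring
  · unfold ori at h
    field_simp; linarith

lemma seg_sub {a b s s' : Pt} (h : s ∈ segment ℝ a b) (h' : s' ∈ segment ℝ a b) :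
    segment ℝ s s' ⊆ segment ℝ a b := (convex_segment a b).segment_subset h h'

lemma ori_of_mem {a b z : Pt} (h : z ∈ segment ℝ a b) : ori a b z = 0 := by
  obtain ⟨t, _, _, e1, e2⟩ := mem_seg_iff.1 h
  simp only [ori, e1, e2]; ring

lemma x_of_mem {a b z : Pt} (hab : a.1 ≤ b.1) (h : z ∈ segment ℝ a b) : a.1 ≤ z.1 ∧ z.1 ≤ b.1 := by
  obtain ⟨t, h0, h1, e1, _⟩ := mem_seg_iff.1 h
  constructor <;> nlinarith

lemma vert_mem {s s' q : Pt} (h : s.1 = s'.1) (h2 : s.2 ≤ s'.2) (hq : q ∈ segment ℝ s s') :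
    q.1 = s.1 ∧ s.2 ≤ q.2 ∧ q.2 ≤ s'.2 := by
  obtain ⟨t, h0, h1, e1, e2⟩ := mem_seg_iff.1 hq
  refine ⟨by rw [e1, h]; ring, by nlinarith, by nlinarith⟩

lemma ori_sub {a b s s' : Pt} (h : ori a b s = 0) (h' : ori a b s' = 0) (z : Pt) :
    (b.1 - a.1) * ori s s' z = (s'.1 - s.1) * ori a b z := by
  unfold ori at *
  linear_combination (z.1 - s'.1) * h + (s.1 - z.1) * h'

lemma ori_self_left (a b : Pt) : ori a b a = 0 := by simp [ori]
lemma ori_self_right (a b : Pt) : ori a b b = 0 := by simp only [ori]; ring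

lemma ori_sub_pos {a b s s' z : Pt} (hab : a.1 < b.1) (hs : s.1 < s'.1) (h : ori a b s = 0)
    (h' : ori a b s' = 0) (hz : 0 < ori a b z) : 0 < ori s s' z := by
  have := ori_sub h h' z
  by_contra hc
  nlinarith [mul_pos (sub_pos.2 hs) hz]

lemma ori_sub_neg {a b s s' z : Pt} (hab : a.1 < b.1) (hs : s.1 < s'.1) (h : ori a b s = 0)
    (h' : ori a b s' = 0) (hz : ori a b z < 0) : ori s s' z < 0 := by
  have := ori_sub h h' z
  by_contra hc
  nlinarith [mul_pos (sub_pos.2 hs) (neg_pos.2 hz)]

lemma ori_up {a b q r : Pt} (hab : a.1 < b.1) (h1 : r.1 = q.1) (h2 : q.2 < r.2) :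
    ori a b q < ori a b r := by
  unfold ori
  rw [h1]
  nlinarith

/-- the point of the line `a b` above or below `q` -/
noncomputable def foot (a b q : Pt) : Pt := (q.1, a.2 + (b.2 - a.2) / (b.1 - a.1) * (q.1 - a.1))

lemma ori_foot {a b : Pt} (hab : a.1 < b.1) (q : Pt) : ori a b (foot a b q) = 0 := by
  have : b.1 - a.1 ≠ 0 := by linarith
  simp only [ori, foot]; field_simp; ring

lemma ori_eq_foot {a b : Pt} (hab : a.1 < b.1) (q r : Pt) (h : r.1 = q.1) :
    ori a b r = (b.1 - a.1) * (r.2 - (foot a b q).2) := by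
  have : b.1 - a.1 ≠ 0 := by linarith
  simp only [ori, foot, h]; field_simp; ring

lemma foot_le {a b q r : Pt} (hab : a.1 < b.1) (h : r.1 = q.1) (h2 : 0 ≤ ori a b r) :
    (foot a b q).2 ≤ r.2 := by
  rw [ori_eq_foot hab q r h] at h2
  by_contra hc
  nlinarith

lemma lt_foot {a b q r : Pt} (hab : a.1 < b.1) (h : r.1 = q.1) (h2 : ori a b r < 0) :
    r.2 < (foot a b q).2 := by
  rw [ori_eq_foot hab q r h] at h2
  by_contra hc
  nlinarith

lemma foot_lt {a b q r : Pt} (hab : a.1 < b.1) (h : r.1 = q.1) (h2 : 0 < ori a b r) :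
    (foot a b q).2 < r.2 := by
  rw [ori_eq_foot hab q r h] at h2
  by_contra hc
  nlinarith

structure Occ (Z X : Set Pt) (a b w y : Pt) : Prop where
  l : a.1 < w.1
  r : w.1 < b.1
  on : ori a b w = 0
  vx : y.1 = w.1
  vy : w.2 < y.2
  att : ∀ q : Pt, q.1 = w.1 → w.2 < q.2 → q.2 ≤ y.2 → q ∈ X
  edge : Disjoint Z (segment ℝ a b)

structure Wall (Z A : Set Pt) (a m : Pt) : Prop where
  vx : m.1 = a.1
  vy : a.2 < m.2
  mem : m ∈ A
  up : ∀ q : Pt, q.1 = a.1 → a.2 ≤ q.2 → q.2 ≤ m.2 → q ∈ Z →
    ∀ r : Pt, r.1 = a.1 → q.2 ≤ r.2 → r.2 ≤ m.2 → r ∈ A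

variable {Z X A B T : Set Pt} {a b w y a' b' w' y' m m' : Pt}

lemma Occ.ab (o : Occ Z X a b w y) : a.1 < b.1 := o.l.trans o.r

lemma Occ.wmem (o : Occ Z X a b w y) : w ∈ segment ℝ a b :=
  mem_seg_of_on o.ab o.l.le o.r.le o.on

lemma Occ.ymem (o : Occ Z X a b w y) : y ∈ X := o.att y o.vx o.vy le_rfl

lemma Occ.oy (o : Occ Z X a b w y) : 0 < ori a b y := by
  have := ori_up o.ab o.vx o.vy
  rw [o.on] at this; exact this

lemma Occ.dsub (o : Occ Z X a b w y) (hT : T ⊆ Z) {s s' : Pt} (h : s ∈ segment ℝ a b)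
    (h' : s' ∈ segment ℝ a b) : Disjoint T (segment ℝ s s') :=
  Set.disjoint_of_subset hT (seg_sub h h') o.edge

lemma Occ.datt (o : Occ Z X a b w y) (hT : T ⊆ Z) (hd : Disjoint T X) :
    Disjoint T (segment ℝ w y) := by
  rw [Set.disjoint_left]
  intro q hq hq'
  obtain ⟨h1, h2, h3⟩ := vert_mem o.vx.symm o.vy.le hq'
  rcases eq_or_lt_of_le h2 with h | h
  · have : q = w := Prod.ext h1 h.symm
    exact Set.disjoint_left.1 o.edge (hT hq) (this ▸ o.wmem)
  · exact Set.disjoint_left.1 hd hq (o.att q h1 h h3)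

lemma Occ.side (o : Occ Z X a' b' w' y') (hX : X ⊆ Z) (he : Disjoint Z (segment ℝ a b))
    (hab : a.1 < b.1) (h1 : a.1 ≤ w'.1) (h2 : w'.1 ≤ b.1) (h : ori a b w' < 0) :
    ori a b y' < 0 := by
  by_contra hc
  push Not at hc
  have hq : foot a b w' ∈ X := o.att _ rfl (lt_foot hab rfl h) (foot_le hab o.vx hc)
  exact Set.disjoint_left.1 he (hX hq) (mem_seg_of_on hab h1 h2 (ori_foot hab _))

lemma Wall.disj (W : Wall Z A a m) (hT : T ⊆ Z) (hd : Disjoint T A) {s : Pt} (h1 : s.1 = a.1)
    (h2 : a.2 ≤ s.2) (h3 : s.2 ≤ m.2) : Disjoint T (segment ℝ s m) := by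
  rw [Set.disjoint_left]
  intro q hq hq'
  obtain ⟨k1, k2, k3⟩ := vert_mem (h1.trans W.vx.symm) h3 hq'
  exact Set.disjoint_left.1 hd hq
    (W.up q (k1.trans h1) (h2.trans k2) k3 (hT hq) q (k1.trans h1) le_rfl k3)

lemma Wall.low (W : Wall Z A a m) (hT : T ⊆ Z) (hA : A ⊆ Z) {v : Pt} (h1 : v.1 = a.1)
    (h2 : a.2 ≤ v.2) (h3 : v.2 ≤ m.2) (hv : v ∉ Z) : Disjoint T (segment ℝ a v) := by
  rw [Set.disjoint_left]
  intro q hq hq'
  obtain ⟨k1, k2, k3⟩ := vert_mem h1.symm h2 hq'
  exact hv (hA (W.up q k1 k2 (k3.trans h3) (hT hq) v h1 k3 h3))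

lemma Wall.lx (W : Wall Z A a m) : lx a m := Or.inr ⟨W.vx.symm, W.vy⟩

lemma fin2 : ∀ x : ZMod 2, x = 0 ∨ x = 1 := by decide

/-- a wall of a head crossing an edge on the left of its touching point -/
lemma wall_head (o : Occ Z X a b w y) (o' : Occ Z X a' b' w' y') (W : Wall Z B b m)
    (W' : Wall Z B b' m') (hX : X ⊆ Z) (hB : B ⊆ Z) (hd : Disjoint X B) (cX : Conn X y y')
    (cB : Conn B m m') (h1 : a.1 < b'.1) (h2 : b'.1 < w.1) (h3 : ori a b b' < 0)
    (h4 : 0 < ori a b m') : False := by
  obtain ⟨f, -, hf, -, -, -⟩ := exists_par cX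
  obtain ⟨-, g, -, hg, -, hfg⟩ := exists_par cB
  have e0 := hfg X y y' f hd hf
  have hab := o.ab
  have hl := o.l; have hr := o.r; have hl' := o'.l; have hr' := o'.r
  have hy := o.vx; have hy' := o'.vx; have hm := W.vx; have hm' := W'.vx
  set v := foot a b b' with hv
  have v1 : v.1 = b'.1 := rfl
  have von : ori a b v = 0 := ori_foot hab _
  have vmem : v ∈ segment ℝ a b := mem_seg_of_on hab (by linarith) (by linarith) von
  have vlo : b'.2 < v.2 := lt_foot hab rfl h3
  have vhi : v.2 < m'.2 := foot_lt hab hm' h4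
  have e1 := hf v m' (W'.disj hX hd v1 vlo.le vhi.le)
  rw [ind_false (Be_vert (by linarith)), ind_false (Be_vert (by linarith))] at e1
  have e2 := hf v b (o.dsub hX vmem (right_mem_segment _ _ _))
  rw [ind_true (Be_pos (by linarith) (by linarith)
      (ori_sub_pos hab (by linarith) von (ori_self_right _ _) o.oy)),
    ind_false (Be_out (Or.inl ⟨Or.inl (by linarith), Or.inl (by linarith)⟩))] at e2
  have e3 := hf b m (W.disj hX hd rfl le_rfl W.vy.le)
  rw [ind_false (Be_vert (by linarith)), ind_false (Be_vert (by linarith))] at e3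
  have e4 := hg w' y' (o'.datt hB hd.symm)
  rw [ind_false (Ab_vert (by linarith)), ind_false (Ab_vert (by linarith))] at e4
  have e5 := hg w' b' (o'.dsub hB o'.wmem (right_mem_segment _ _ _))
  rw [ind_false (Ab_out (Or.inr ⟨Or.inl (by linarith), Or.inl (by linarith)⟩)),
    ind_false (Ab_out (Or.inr ⟨Or.inl (by linarith), W'.lx⟩))] at e5
  have e6 := hg b' v (W'.low hB hB v1 vlo.le vhi.le
    (fun h => Set.disjoint_left.1 o.edge h vmem))
  rw [ind_false (Ab_vert (by linarith)), ind_false (Ab_vert (by linarith))] at e6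
  have e7 := hg v w (o.dsub hB vmem o.wmem)
  rw [ind_false (Ab_out (Or.inr ⟨Or.inl (by linarith), Or.inl (by linarith)⟩)),
    ind_false (Ab_neg (by linarith) (ori_sub_pos hab (by linarith) von o.on h4).le)] at e7
  have e8 := hg w y (o.datt hB hd.symm)
  rw [ind_false (Ab_vert (by linarith)), ind_false (Ab_vert (by linarith))] at e8
  have : (1 : ZMod 2) = 0 := by
    linear_combination e0 - e1 - e2 - e3 + e4 + e5 + e6 + e7 + e8 + two0 (f v) + two0 (f b)
      - two0 (g w') - two0 (g b') - two0 (g v) - two0 (g w)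
  exact absurd this (by decide)

/-- a wall of a tail crossing an edge on the right of its touching point -/
lemma wall_tail (o : Occ Z X a b w y) (o' : Occ Z X a' b' w' y') (W : Wall Z A a m)
    (W' : Wall Z A a' m') (hX : X ⊆ Z) (hA : A ⊆ Z) (hd : Disjoint X A) (cX : Conn X y y')
    (cA : Conn A m m') (h1 : w.1 < a'.1) (h2 : a'.1 < b.1) (h3 : ori a b a' < 0)
    (h4 : 0 < ori a b m') : False := by
  obtain ⟨f, -, hf, -, -, -⟩ := exists_par cX
  obtain ⟨-, g, -, hg, -, hfg⟩ := exists_par cA
  have e0 := hfg X y y' f hd hf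
  have hab := o.ab
  have hl := o.l; have hr := o.r; have hl' := o'.l; have hr' := o'.r
  have hy := o.vx; have hy' := o'.vx; have hm := W.vx; have hm' := W'.vx
  set v := foot a b a' with hv
  have v1 : v.1 = a'.1 := rfl
  have von : ori a b v = 0 := ori_foot hab _
  have vmem : v ∈ segment ℝ a b := mem_seg_of_on hab (by linarith) (by linarith) von
  have vlo : a'.2 < v.2 := lt_foot hab rfl h3
  have vhi : v.2 < m'.2 := foot_lt hab hm' h4
  have e1 := hf v m' (W'.disj hX hd v1 vlo.le vhi.le)
  rw [ind_false (Be_vert (by linarith)), ind_false (Be_vert (by linarith))] at e1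
  have e2 := hf a v (o.dsub hX (left_mem_segment _ _ _) vmem)
  rw [ind_true (Be_pos (by linarith) (by linarith)
      (ori_sub_pos hab (by linarith) (ori_self_left _ _) von o.oy)),
    ind_false (Be_out (Or.inr ⟨Or.inl (by linarith), Or.inl (by linarith)⟩))] at e2
  have e3 := hf a m (W.disj hX hd rfl le_rfl W.vy.le)
  rw [ind_false (Be_vert (by linarith)), ind_false (Be_vert (by linarith))] at e3
  have e4 := hg w' y' (o'.datt hA hd.symm)
  rw [ind_false (Ab_vert (by linarith)), ind_false (Ab_vert (by linarith))] at e4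
  have e5 := hg a' w' (o'.dsub hA (left_mem_segment _ _ _) o'.wmem)
  rw [ind_false (Ab_out (Or.inl ⟨Or.inl (by linarith), Or.inl (by linarith)⟩)),
    ind_false (Ab_neg hl' (by
      have := ori_up hl' W'.vx W'.vy
      rw [ori_self_left] at this; exact this.le))] at e5
  have e6 := hg a' v (W'.low hA hA v1 vlo.le vhi.le
    (fun h => Set.disjoint_left.1 o.edge h vmem))
  rw [ind_false (Ab_vert (by linarith)), ind_false (Ab_vert (by linarith))] at e6
  have e7 := hg w v (o.dsub hA o.wmem vmem)
  rw [ind_false (Ab_out (Or.inl ⟨Or.inl (by linarith), Or.inl (by linarith)⟩)),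
    ind_false (Ab_out (Or.inr ⟨Or.inl (by linarith), Or.inr ⟨by linarith, vhi⟩⟩))] at e7
  have e8 := hg w y (o.datt hA hd.symm)
  rw [ind_false (Ab_vert (by linarith)), ind_false (Ab_vert (by linarith))] at e8
  have : (1 : ZMod 2) = 0 := by
    linear_combination e0 - e1 - e2 - e3 + e4 + e5 + e6 + e7 + e8 + two0 (f v) + two0 (f a)
      - two0 (g w') - two0 (g a') - two0 (g v) - two0 (g w)
  exact absurd this (by decide)

/-- two occurrences with a common tail -/
lemma same_tail (o : Occ Z X a b w y) (o' : Occ Z X a b' w' y') (W : Wall Z B b m)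
    (W' : Wall Z B b' m') (hX : X ⊆ Z) (hB : B ⊆ Z) (hd : Disjoint X B) (cX : Conn X y y')
    (cB : Conn B m m') (h3 : ori a b b' < 0) (hne : w.1 ≠ b'.1) : False := by
  have hab := o.ab
  have hab' := o'.ab
  have hl := o.l; have hr := o.r; have hl' := o'.l; have hr' := o'.r
  have hy := o.vx; have hy' := o'.vx; have hm := W.vx; have hm' := W'.vx
  by_cases hc : b'.1 < w.1 ∧ 0 < ori a b m'
  · exact wall_head o o' W W' hX hB hd cX cB hab' hc.1 h3 hc.2
  obtain ⟨f, -, hf, -, -, -⟩ := exists_par cX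
  obtain ⟨-, g, -, hg, -, hfg⟩ := exists_par cB
  have e0 := hfg X y y' f hd hf
  have h3' : 0 < ori a b' b := by unfold ori at *; linarith
  have hw' : ori a b w' < 0 := by
    have k := ori_sub_pos hab' hl' (ori_self_left _ _) o'.on h3'
    unfold ori at *; linarith
  have e1 := hf b m (W.disj hX hd rfl le_rfl W.vy.le)
  rw [ind_false (Be_vert (by linarith)), ind_false (Be_vert (by linarith))] at e1
  have e2 := hf a b (o.dsub hX (left_mem_segment _ _ _) (right_mem_segment _ _ _))
  have k2 : ¬ Be a b y' := by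
    by_cases k : w'.1 ≤ b.1
    · exact Be_neg hab (o'.side hX o.edge hab hl'.le k hw').le
    · exact Be_out (Or.inr ⟨Or.inl (by linarith), Or.inl (by linarith)⟩)
  rw [ind_true (Be_pos (by linarith) (by linarith) o.oy), ind_false k2] at e2
  have e3 := hf a b' (o'.dsub hX (left_mem_segment _ _ _) (right_mem_segment _ _ _))
  rw [ind_true (P := Be a b' y') (Be_pos (by linarith) (by linarith) o'.oy)] at e3
  have e4 := hf b' m' (W'.disj hX hd rfl le_rfl W'.vy.le)
  rw [ind_false (Be_vert (by linarith)), ind_false (Be_vert (by linarith))] at e4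
  have e5 := hg w' y' (o'.datt hB hd.symm)
  rw [ind_false (Ab_vert (by linarith)), ind_false (Ab_vert (by linarith))] at e5
  have e6 := hg a w' (o'.dsub hB (left_mem_segment _ _ _) o'.wmem)
  rw [ind_false (Ab_neg hl' (ori_sub_pos hab' hl' (ori_self_left _ _) o'.on
      (h3'.trans (ori_up hab' W.vx W.vy))).le),
    ind_false (Ab_out (Or.inr ⟨Or.inl (by linarith), Or.inl (by linarith)⟩))] at e6
  have e7 := hg a w (o.dsub hB (left_mem_segment _ _ _) o.wmem)
  rw [ind_false (P := Ab a w m)
    (Ab_out (Or.inr ⟨Or.inl (by linarith), Or.inl (by linarith)⟩))] at e7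
  have e8 := hg w y (o.datt hB hd.symm)
  rw [ind_false (Ab_vert (by linarith)), ind_false (Ab_vert (by linarith))] at e8
  have key : ind (Be a b' y) + ind (Ab a w m') = 0 := by
    linear_combination e0 - e1 - e2 - e3 - e4 + e5 + e6 + e7 + e8 + two0 (f b) + two0 (f a)
      + two0 (f b') - two0 (g w') - two0 (g a) - two0 (g w) - two0 1 + two0 (ind (Ab a w m'))
  rcases lt_or_gt_of_ne hne with k | k
  · have hw : 0 < ori a b' w := by
      have k := ori_sub_neg hab hl (ori_self_left _ _) o.on h3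
      unfold ori at *; linarith
    rw [ind_true (Be_pos (by linarith) (by linarith) (hw.trans (ori_up hab' o.vx o.vy))),
      ind_false (Ab_out (Or.inr ⟨Or.inl (by linarith), Or.inl (by linarith)⟩))] at key
    exact absurd key (by decide)
  · have h4 : ori a b m' < 0 := by
      rcases lt_trichotomy (ori a b m') 0 with h | h | h
      · exact h
      · exact absurd (mem_seg_of_on hab (by linarith) (by linarith) h)
          (Set.disjoint_left.1 o.edge (hB W'.mem))
      · exact absurd ⟨k, h⟩ hc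
    rw [ind_false (Be_out (Or.inr ⟨Or.inl (by linarith), Or.inl (by linarith)⟩)),
      ind_true (Ab_pos (by linarith) (by linarith)
        (ori_sub_neg hab hl (ori_self_left _ _) o.on h4))] at key
    exact absurd key (by decide)

/-- two occurrences with a common head -/
lemma same_head (o : Occ Z X a b w y) (o' : Occ Z X a' b w' y') (W : Wall Z A a m)
    (W' : Wall Z A a' m') (hX : X ⊆ Z) (hA : A ⊆ Z) (hd : Disjoint X A) (cX : Conn X y y')
    (cA : Conn A m m') (h3 : ori a b a' < 0) (hne : w.1 ≠ a'.1) : False := by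
  have hab := o.ab
  have hab' := o'.ab
  have hl := o.l; have hr := o.r; have hl' := o'.l; have hr' := o'.r
  have hy := o.vx; have hy' := o'.vx; have hm := W.vx; have hm' := W'.vx
  by_cases hc : w.1 < a'.1 ∧ 0 < ori a b m'
  · exact wall_tail o o' W W' hX hA hd cX cA hc.1 hab' h3 hc.2
  obtain ⟨f, -, hf, -, -, -⟩ := exists_par cX
  obtain ⟨-, g, -, hg, -, hfg⟩ := exists_par cA
  have e0 := hfg X y y' f hd hf
  have h3' : 0 < ori a' b a := by unfold ori at *; linarith
  have hw' : ori a b w' < 0 := by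
    have k := ori_sub_pos hab' hr' o'.on (ori_self_right _ _) h3'
    unfold ori at *; linarith
  have e1 := hf a m (W.disj hX hd rfl le_rfl W.vy.le)
  rw [ind_false (Be_vert (by linarith)), ind_false (Be_vert (by linarith))] at e1
  have e2 := hf a b (o.dsub hX (left_mem_segment _ _ _) (right_mem_segment _ _ _))
  have k2 : ¬ Be a b y' := by
    by_cases k : a.1 ≤ w'.1
    · exact Be_neg hab (o'.side hX o.edge hab k hr'.le hw').le
    · exact Be_out (Or.inl ⟨Or.inl (by linarith), Or.inl (by linarith)⟩)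
  rw [ind_true (Be_pos (by linarith) (by linarith) o.oy), ind_false k2] at e2
  have e3 := hf a' b (o'.dsub hX (left_mem_segment _ _ _) (right_mem_segment _ _ _))
  rw [ind_true (P := Be a' b y') (Be_pos (by linarith) (by linarith) o'.oy)] at e3
  have e4 := hf a' m' (W'.disj hX hd rfl le_rfl W'.vy.le)
  rw [ind_false (Be_vert (by linarith)), ind_false (Be_vert (by linarith))] at e4
  have e5 := hg w' y' (o'.datt hA hd.symm)
  rw [ind_false (Ab_vert (by linarith)), ind_false (Ab_vert (by linarith))] at e5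
  have e6 := hg w' b (o'.dsub hA o'.wmem (right_mem_segment _ _ _))
  rw [ind_false (Ab_neg hr' (ori_sub_pos hab' hr' o'.on (ori_self_right _ _)
      (h3'.trans (ori_up hab' W.vx W.vy))).le),
    ind_false (Ab_out (Or.inl ⟨Or.inl (by linarith), Or.inl (by linarith)⟩))] at e6
  have e7 := hg w b (o.dsub hA o.wmem (right_mem_segment _ _ _))
  rw [ind_false (P := Ab w b m)
    (Ab_out (Or.inl ⟨Or.inl (by linarith), Or.inl (by linarith)⟩))] at e7
  have e8 := hg w y (o.datt hA hd.symm)
  rw [ind_false (Ab_vert (by linarith)), ind_false (Ab_vert (by linarith))] at e8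
  have key : ind (Be a' b y) + ind (Ab w b m') = 0 := by
    linear_combination e0 - e1 - e2 - e3 - e4 + e5 + e6 + e7 + e8 + two0 (f b) + two0 (f a)
      + two0 (f a') - two0 (g w') - two0 (g b) - two0 (g w) - two0 1 + two0 (ind (Ab w b m'))
  rcases lt_or_gt_of_ne hne with k | k
  · have h4 : ori a b m' < 0 := by
      rcases lt_trichotomy (ori a b m') 0 with h | h | h
      · exact h
      · exact absurd (mem_seg_of_on hab (by linarith) (by linarith) h)
          (Set.disjoint_left.1 o.edge (hA W'.mem))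
      · exact absurd ⟨k, h⟩ hc
    rw [ind_false (Be_out (Or.inl ⟨Or.inl (by linarith), Or.inl (by linarith)⟩)),
      ind_true (Ab_pos (by linarith) (by linarith)
        (ori_sub_neg hab hr o.on (ori_self_right _ _) h4))] at key
    exact absurd key (by decide)
  · have hw : 0 < ori a' b w := by
      have k := ori_sub_neg hab hr o.on (ori_self_right _ _) h3
      unfold ori at *; linarith
    rw [ind_true (Be_pos (by linarith) (by linarith) (hw.trans (ori_up hab' o.vx o.vy))),
      ind_false (Ab_out (Or.inl ⟨Or.inl (by linarith), Or.inl (by linarith)⟩))] at key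
    exact absurd key (by decide)

lemma main_identity {ma ma' mb mb' : Pt} (o : Occ Z X a b w y) (o' : Occ Z X a' b' w' y')
    (Wa : Wall Z A a ma) (Wa' : Wall Z A a' ma') (Wb : Wall Z B b mb) (Wb' : Wall Z B b' mb')
    (hX : X ⊆ Z) (hA : A ⊆ Z) (hB : B ⊆ Z) (dXA : Disjoint X A) (dXB : Disjoint X B)
    (dAB : Disjoint A B) (cX : Conn X y y') (cA : Conn A ma ma') (cB : Conn B mb mb') :
    ind (Be a b y') + ind (Be a' b' y) + ind (lx ma' y) + ind (lx ma y') + ind (Be w b ma')
      + ind (Be w' b' ma) + ind (Ab a w mb') + ind (Ab a' w' mb) = 0 := by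
  have hab := o.ab
  have hab' := o'.ab
  have hl := o.l; have hr := o.r; have hl' := o'.l; have hr' := o'.r
  have hy := o.vx; have hy' := o'.vx; have h1 := Wa.vx; have h2 := Wa'.vx
  have h3 := Wb.vx; have h4 := Wb'.vx
  obtain ⟨f, -, hf, -, -, -⟩ := exists_par cX
  obtain ⟨fA, gA, hfA, -, hs, hdA⟩ := exists_par cA
  obtain ⟨-, g, -, hg, -, hdB⟩ := exists_par cB
  have d1 := hdB X y y' f dXB hf
  have d2 := hdA X y y' f dXA hf
  have d3 := hdB A ma ma' fA dAB hfA
  have s1 := hs y (Set.disjoint_left.1 dXA o.ymem)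
  have s2 := hs y' (Set.disjoint_left.1 dXA o'.ymem)
  rw [ind_true (P := lx ma y) (Or.inl (by linarith))] at s1
  rw [ind_true (P := lx ma' y') (Or.inl (by linarith))] at s2
  -- moves of f
  have e1 := hf a ma (Wa.disj hX dXA rfl le_rfl Wa.vy.le)
  rw [ind_false (Be_vert (by linarith)), ind_false (Be_vert (by linarith))] at e1
  have e2 := hf a b (o.dsub hX (left_mem_segment _ _ _) (right_mem_segment _ _ _))
  rw [ind_true (P := Be a b y) (Be_pos (by linarith) (by linarith) o.oy)] at e2
  have e3 := hf b mb (Wb.disj hX dXB rfl le_rfl Wb.vy.le)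
  rw [ind_false (Be_vert (by linarith)), ind_false (Be_vert (by linarith))] at e3
  have e4 := hf a' ma' (Wa'.disj hX dXA rfl le_rfl Wa'.vy.le)
  rw [ind_false (Be_vert (by linarith)), ind_false (Be_vert (by linarith))] at e4
  have e5 := hf a' b' (o'.dsub hX (left_mem_segment _ _ _) (right_mem_segment _ _ _))
  rw [ind_true (P := Be a' b' y') (Be_pos (by linarith) (by linarith) o'.oy)] at e5
  have e6 := hf b' mb' (Wb'.disj hX dXB rfl le_rfl Wb'.vy.le)
  rw [ind_false (Be_vert (by linarith)), ind_false (Be_vert (by linarith))] at e6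
  -- moves of fA
  have a1 := hfA w y (o.datt hA dXA.symm)
  rw [ind_false (Be_vert (by linarith)), ind_false (Be_vert (by linarith))] at a1
  have a2 := hfA w b (o.dsub hA o.wmem (right_mem_segment _ _ _))
  rw [ind_false (P := Be w b ma)
    (Be_out (Or.inl ⟨Or.inl (by linarith), Or.inl (by linarith)⟩))] at a2
  have a3 := hfA b mb (Wb.disj hA dAB rfl le_rfl Wb.vy.le)
  rw [ind_false (Be_vert (by linarith)), ind_false (Be_vert (by linarith))] at a3
  have a4 := hfA w' y' (o'.datt hA dXA.symm)
  rw [ind_false (Be_vert (by linarith)), ind_false (Be_vert (by linarith))] at a4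
  have a5 := hfA w' b' (o'.dsub hA o'.wmem (right_mem_segment _ _ _))
  rw [ind_false (P := Be w' b' ma')
    (Be_out (Or.inl ⟨Or.inl (by linarith), Or.inl (by linarith)⟩))] at a5
  have a6 := hfA b' mb' (Wb'.disj hA dAB rfl le_rfl Wb'.vy.le)
  rw [ind_false (Be_vert (by linarith)), ind_false (Be_vert (by linarith))] at a6
  -- moves of g
  have b1 := hg w y (o.datt hB dXB.symm)
  rw [ind_false (Ab_vert (by linarith)), ind_false (Ab_vert (by linarith))] at b1
  have b2 := hg a w (o.dsub hB (left_mem_segment _ _ _) o.wmem)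
  rw [ind_false (P := Ab a w mb)
    (Ab_out (Or.inr ⟨Or.inl (by linarith), Or.inl (by linarith)⟩))] at b2
  have b3 := hg a ma (Wa.disj hB dAB.symm rfl le_rfl Wa.vy.le)
  rw [ind_false (Ab_vert (by linarith)), ind_false (Ab_vert (by linarith))] at b3
  have b4 := hg w' y' (o'.datt hB dXB.symm)
  rw [ind_false (Ab_vert (by linarith)), ind_false (Ab_vert (by linarith))] at b4
  have b5 := hg a' w' (o'.dsub hB (left_mem_segment _ _ _) o'.wmem)
  rw [ind_false (P := Ab a' w' mb')
    (Ab_out (Or.inr ⟨Or.inl (by linarith), Or.inl (by linarith)⟩))] at b5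
  have b6 := hg a' ma' (Wa'.disj hB dAB.symm rfl le_rfl Wa'.vy.le)
  rw [ind_false (Ab_vert (by linarith)), ind_false (Ab_vert (by linarith))] at b6
  linear_combination d1 + d2 + d3 + s1 + s2 + e1 + e2 + e3 + e4 + e5 + e6 + a1 + a2 + a3 + a4
    + a5 + a6 + b1 + b2 + b3 + b4 + b5 + b6
    - two0 (f mb) - two0 (f mb') - two0 (f ma) - two0 (f ma') - two0 (f a) - two0 (f b)
    - two0 (f a') - two0 (f b') - two0 (fA mb) - two0 (fA mb') - two0 (fA y) - two0 (fA y')
    - two0 (fA w) - two0 (fA b) - two0 (fA w') - two0 (fA b') - two0 (g w) - two0 (g a)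
    - two0 (g w') - two0 (g a') + two0 1 + two0 1
    + two0 (ind (Be a b y')) + two0 (ind (Be a' b' y)) + two0 (ind (lx ma' y))
    + two0 (ind (lx ma y')) + two0 (ind (Be w b ma')) + two0 (ind (Be w' b' ma))
    + two0 (ind (Ab a w mb')) + two0 (ind (Ab a' w' mb))

lemma same_side {a b a' b' q : Pt} (hab : a.1 < b.1) (hab' : a'.1 < b'.1)
    (hd : Disjoint (segment ℝ a b) (segment ℝ a' b')) (h1 : a.1 ≤ a'.1) (h2 : a'.1 ≤ b.1)
    (hq : q ∈ segment ℝ a' b') (h3 : q.1 ≤ b.1) :
    (0 < ori a b a' → 0 < ori a b q) ∧ (ori a b a' < 0 → ori a b q < 0) := by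
  obtain ⟨t, h0, ht1, e1, e2⟩ := mem_seg_iff.1 hq
  have key : ∀ s : ℝ, 0 ≤ s → s ≤ 1 → (1 - s) * ori a b a' + s * ori a b q = 0 → False := by
    intro s s0 s1 hs
    set r : Pt := (a'.1 + s * (q.1 - a'.1), a'.2 + s * (q.2 - a'.2)) with hr
    have hr1 : r ∈ segment ℝ a' b' :=
      seg_sub (left_mem_segment _ _ _) hq (mem_seg_iff.2 ⟨s, s0, s1, rfl, rfl⟩)
    have hq1 : a'.1 ≤ q.1 := (x_of_mem hab'.le hq).1
    have hr2 : r ∈ segment ℝ a b := by
      apply mem_seg_of_on hab
      · simp only [hr]; nlinarith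
      · simp only [hr]; nlinarith
      · rw [← hs]; simp only [hr, ori]; ring
    exact Set.disjoint_left.1 hd hr2 hr1
  constructor
  · intro h
    by_contra hc
    push Not at hc
    have hD : 0 < ori a b a' - ori a b q := by linarith
    refine key (ori a b a' / (ori a b a' - ori a b q)) (by positivity)
      (by rw [div_le_one hD]; linarith) ?_
    field_simp; ring
  · intro h
    by_contra hc
    push Not at hc
    have hD : 0 < ori a b q - ori a b a' := by linarith
    refine key (-ori a b a' / (ori a b q - ori a b a')) (div_nonneg (by linarith) hD.le)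
      (by rw [div_le_one hD]; linarith) ?_
    field_simp; ring

/-- comparing two disjoint segments on a common vertical line -/
lemma flip_side {a b a' b' q : Pt} (hab : a.1 < b.1) (hab' : a'.1 < b'.1)
    (hd : Disjoint (segment ℝ a b) (segment ℝ a' b')) (h1 : a.1 ≤ a'.1) (h2 : a'.1 ≤ b.1)
    (hq : q ∈ segment ℝ a b) (h3 : a'.1 ≤ q.1) (h4 : q.1 ≤ b'.1) :
    (0 < ori a b a' → ori a' b' q < 0) ∧ (ori a b a' < 0 → 0 < ori a' b' q) := by
  have hr : foot a' b' q ∈ segment ℝ a' b' := mem_seg_of_on hab' h3 h4 (ori_foot hab' q)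
  have hqb : q.1 ≤ b.1 := (x_of_mem hab.le hq).2
  obtain ⟨k1, k2⟩ := same_side hab hab' hd h1 h2 hr hqb
  have e0 := ori_of_mem hq
  have e1 := ori_eq_foot hab' q q rfl
  have e2 : ori a b (foot a' b' q) - ori a b q = (b.1 - a.1) * ((foot a' b' q).2 - q.2) := by
    have : (foot a' b' q).1 = q.1 := rfl
    simp only [ori, this]; ring
  constructor
  · intro h
    have := k1 h
    have : 0 < (foot a' b' q).2 - q.2 := by
      by_contra hc
      nlinarith
    nlinarith
  · intro h
    have := k2 h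
    have : (foot a' b' q).2 - q.2 < 0 := by
      by_contra hc
      nlinarith
    nlinarith

lemma cross_aux {ma ma' mb mb' : Pt} (o : Occ Z X a b w y) (o' : Occ Z X a' b' w' y')
    (Wa : Wall Z A a ma) (Wa' : Wall Z A a' ma') (Wb : Wall Z B b mb) (Wb' : Wall Z B b' mb')
    (hX : X ⊆ Z) (hA : A ⊆ Z) (hB : B ⊆ Z) (dXA : Disjoint X A) (dXB : Disjoint X B)
    (dAB : Disjoint A B) (cX : Conn X y y') (cA : Conn A ma ma') (cB : Conn B mb mb')
    (haa : a.1 < a'.1) (n1 : w.1 ≠ a'.1) (n2 : w.1 ≠ b'.1) (n3 : w'.1 ≠ b.1) (n4 : b.1 ≠ a'.1)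
    (hd : Disjoint (segment ℝ a b) (segment ℝ a' b')) : False := by
  have key := main_identity o o' Wa Wa' Wb Wb' hX hA hB dXA dXB dAB cX cA cB
  have hab := o.ab
  have hab' := o'.ab
  have hl := o.l; have hr := o.r; have hl' := o'.l; have hr' := o'.r
  have hy := o.vx; have hy' := o'.vx; have h1 := Wa.vx; have h2 := Wa'.vx
  have h3 := Wb.vx; have h4 := Wb'.vx
  rw [ind_true (P := lx ma y') (Or.inl (by linarith)),
    ind_false (P := Be w' b' ma) (Be_out (Or.inl ⟨Or.inl (by linarith), Or.inl (by linarith)⟩))]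
    at key
  rcases lt_or_gt_of_ne n4 with k | k
  · rw [ind_false (Be_out (Or.inr ⟨Or.inl (by linarith), Or.inl (by linarith)⟩)),
      ind_false (Be_out (Or.inl ⟨Or.inl (by linarith), Or.inl (by linarith)⟩)),
      ind_false (not_lx_of_lt (by linarith)),
      ind_false (Be_out (Or.inr ⟨Or.inl (by linarith), Or.inl (by linarith)⟩)),
      ind_false (Ab_out (Or.inr ⟨Or.inl (by linarith), Or.inl (by linarith)⟩)),
      ind_false (Ab_out (Or.inl ⟨Or.inl (by linarith), Or.inl (by linarith)⟩))] at key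
    exact absurd key (by decide)
  have hne : ori a b a' ≠ 0 := fun h =>
    Set.disjoint_left.1 hd (mem_seg_of_on hab haa.le k.le h) (left_mem_segment _ _ _)
  rcases lt_or_gt_of_ne hne with s | s
  · -- the second edge is below the first one
    have t1 : ¬ Be a b y' := by
      by_cases c : w'.1 ≤ b.1
      · exact Be_neg hab (o'.side hX o.edge hab (by linarith) c
          ((same_side hab hab' hd haa.le k.le o'.wmem c).2 s)).le
      · exact Be_out (Or.inr ⟨Or.inl (by linarith), Or.inl (by linarith)⟩)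
    have t2 : ¬ Ab a' w' mb := by
      by_cases c : b.1 ≤ w'.1
      · have := (flip_side hab hab' hd haa.le k.le (right_mem_segment _ _ _) k.le
          (by linarith)).2 s
        exact Ab_neg hl' (ori_sub_pos hab' hl' (ori_self_left _ _) o'.on
          (this.trans (ori_up hab' Wb.vx Wb.vy))).le
      · exact Ab_out (Or.inr ⟨Or.inl (by linarith), Or.inl (by linarith)⟩)
    rw [ind_false t1, ind_false t2] at key
    rcases lt_or_gt_of_ne n1 with c | c
    · rw [ind_false (Be_out (Or.inl ⟨Or.inl (by linarith), Or.inl (by linarith)⟩)),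
        ind_false (not_lx_of_lt (by linarith)),
        ind_false (P := Ab a w mb')
          (Ab_out (Or.inr ⟨Or.inl (by linarith), Or.inl (by linarith)⟩))] at key
      by_cases u : 0 < ori a b ma'
      · exact wall_tail o o' Wa Wa' hX hA dXA cX cA c k s u
      · rw [ind_false (Be_neg hr (by
          rcases eq_or_lt_of_le (not_lt.1 u) with u | u
          · exact absurd (mem_seg_of_on hab (by linarith) (by linarith) u)
              (Set.disjoint_left.1 o.edge (hA Wa'.mem))
          · exact (ori_sub_neg hab hr o.on (ori_self_right _ _) u).le))] at key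
        exact absurd key (by decide)
    · rw [ind_true (P := lx ma' y) (Or.inl (by linarith)),
        ind_false (P := Be w b ma')
          (Be_out (Or.inl ⟨Or.inl (by linarith), Or.inl (by linarith)⟩))] at key
      rcases lt_or_gt_of_ne n2 with d | d
      · have := (flip_side hab hab' hd haa.le k.le o.wmem c.le d.le).2 s
        rw [ind_true (Be_pos (by linarith) (by linarith)
            (this.trans (ori_up hab' o.vx o.vy))),
          ind_false (Ab_out (Or.inr ⟨Or.inl (by linarith), Or.inl (by linarith)⟩))] at key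
        exact absurd key (by decide)
      · have s' := (same_side hab hab' hd haa.le k.le (right_mem_segment _ _ _)
          (by linarith)).2 s
        by_cases u : 0 < ori a b mb'
        · exact wall_head o o' Wb Wb' hX hB dXB cX cB (by linarith) d s' u
        · rw [ind_false (Be_out (Or.inr ⟨Or.inl (by linarith), Or.inl (by linarith)⟩)),
            ind_true (Ab_pos (by linarith) (by linarith) (by
              rcases eq_or_lt_of_le (not_lt.1 u) with u | u
              · exact absurd (mem_seg_of_on hab (by linarith) (by linarith) u)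
                  (Set.disjoint_left.1 o.edge (hB Wb'.mem))
              · exact ori_sub_neg hab hl (ori_self_left _ _) o.on u))] at key
          exact absurd key (by decide)
  · -- the second edge is above the first one
    have t1 : ¬ Be a' b' y := by
      by_cases c : a'.1 ≤ w.1 ∧ w.1 ≤ b'.1
      · exact Be_neg hab' (o.side hX o'.edge hab' c.1 c.2
          ((flip_side hab hab' hd haa.le k.le o.wmem c.1 c.2).1 s)).le
      · rcases not_and_or.1 c with c | c
        · exact Be_out (Or.inl ⟨Or.inl (by linarith), Or.inl (by linarith)⟩)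
        · exact Be_out (Or.inr ⟨Or.inl (by linarith), Or.inl (by linarith)⟩)
    have t2 : ¬ Ab a w mb' := by
      by_cases c : b'.1 ≤ w.1
      · have := (same_side hab hab' hd haa.le k.le (right_mem_segment _ _ _)
          (by linarith)).1 s
        exact Ab_neg hl (ori_sub_pos hab hl (ori_self_left _ _) o.on
          (this.trans (ori_up hab Wb'.vx Wb'.vy))).le
      · exact Ab_out (Or.inr ⟨Or.inl (by linarith), Or.inl (by linarith)⟩)
    have t3 : ind (lx ma' y) + ind (Be w b ma') = 1 := by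
      rcases lt_or_gt_of_ne n1 with c | c
      · rw [ind_false (not_lx_of_lt (by linarith)), ind_true (Be_pos (by linarith) (by linarith)
          (ori_sub_pos hab hr o.on (ori_self_right _ _) (s.trans (ori_up hab Wa'.vx Wa'.vy))))]
        rfl
      · rw [ind_true (P := lx ma' y) (Or.inl (by linarith)),
          ind_false (Be_out (Or.inl ⟨Or.inl (by linarith), Or.inl (by linarith)⟩))]
        rfl
    rw [ind_false t1, ind_false t2] at key
    have key2 : ind (Be a b y') + ind (Ab a' w' mb) = 0 := by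
      linear_combination key - t3 - two0 1
    rcases lt_or_gt_of_ne n3 with c | c
    · have := (same_side hab hab' hd haa.le k.le o'.wmem c.le).1 s
      rw [ind_true (Be_pos (by linarith) (by linarith) (this.trans (ori_up hab o'.vx o'.vy))),
        ind_false (Ab_out (Or.inr ⟨Or.inl (by linarith), Or.inl (by linarith)⟩))] at key2
      exact absurd key2 (by decide)
    · have s' := (flip_side hab hab' hd haa.le k.le (right_mem_segment _ _ _) k.le
        (by linarith)).1 s
      by_cases u : 0 < ori a' b' mb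
      · exact wall_head o' o Wb' Wb hX hB dXB cX.symm cB.symm k c s' u
      · rw [ind_false (Be_out (Or.inr ⟨Or.inl (by linarith), Or.inl (by linarith)⟩)),
          ind_true (Ab_pos (by linarith) (by linarith) (by
            rcases eq_or_lt_of_le (not_lt.1 u) with u | u
            · exact absurd (mem_seg_of_on hab' (by linarith) (by linarith) u)
                (Set.disjoint_left.1 o'.edge (hB Wb.mem))
            · exact ori_sub_neg hab' hl' (ori_self_left _ _) o'.on u))] at key2
        exact absurd key2 (by decide)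

/-- two occurrences whose touching points, tails and heads lie in three disjoint connected
sets have meeting edges -/
theorem cross_main {ma ma' mb mb' : Pt} (o : Occ Z X a b w y) (o' : Occ Z X a' b' w' y')
    (Wa : Wall Z A a ma) (Wa' : Wall Z A a' ma') (Wb : Wall Z B b mb) (Wb' : Wall Z B b' mb')
    (hX : X ⊆ Z) (hA : A ⊆ Z) (hB : B ⊆ Z) (dXA : Disjoint X A) (dXB : Disjoint X B)
    (dAB : Disjoint A B) (cX : Conn X y y') (cA : Conn A ma ma') (cB : Conn B mb mb')
    (haa : a.1 ≠ a'.1) (n1 : w.1 ≠ a'.1) (n2 : w.1 ≠ b'.1) (n3 : w'.1 ≠ b.1) (n3' : w'.1 ≠ a.1)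
    (n4 : b.1 ≠ a'.1) (n4' : b'.1 ≠ a.1) :
    ¬ Disjoint (segment ℝ a b) (segment ℝ a' b') := by
  intro hd
  rcases lt_or_gt_of_ne haa with h | h
  · exact cross_aux o o' Wa Wa' Wb Wb' hX hA hB dXA dXB dAB cX cA cB h n1 n2 n3 n4 hd
  · exact cross_aux o' o Wa' Wa Wb' Wb hX hA hB dXA dXB dAB cX.symm cA.symm cB.symm h n3' n3 n2
      n4' hd.symm

end Pool.Agent.Lib.MP_5bf547_co
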