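import Mathlib

namespace Pool.Agent.Lib.MP_5bf547_co

open Classical Finset

/-- reachability inside a set -/
def RIn {V : Type} (R : V → V → Prop) (S : Set V) (u v : V) : Prop :=
  Relation.ReflTransGen (fun a b => R a b ∧ a ∈ S ∧ b ∈ S) u v

lemma RIn.symm {V : Type} {R : V → V → Prop} (hR : ∀ a b, R a b → R b a) {S : Set V} {u v : V}
    (h : RIn R S u v) : RIn R S v u := by
  induction h with
  | refl => exact Relation.ReflTransGen.refl
  | tail _ h2 ih => exact Relation.ReflTransGen.head ⟨hR _ _ h2.1, h2.2.2, h2.2.1⟩ ih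

structure RTree (V : Type) where
  root : V
  par : V → V
  d : V → ℕ
  par_root : par root = root
  d_lt : ∀ v, v ≠ root → d (par v) < d v

lemma exists_rtree {V : Type} [Nonempty V] (R : V → V → Prop)
    (hc : ∀ u v, Relation.ReflTransGen R u v) :
    ∃ T : RTree V, ∀ v, v ≠ T.root → R v (T.par v) := by
  obtain ⟨ρ⟩ := ‹Nonempty V›
  let Re : ℕ → V → Prop := fun k => Nat.rec (fun v => v = ρ) (fun _ P v => ∃ u, R v u ∧ P u) k
  have hex : ∀ v, ∃ k, Re k v := by
    intro v
    induction hc v ρ using Relation.ReflTransGen.head_induction_on with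
    | refl => exact ⟨0, rfl⟩
    | head h _ ih =>
      obtain ⟨k, hk⟩ := ih
      exact ⟨k + 1, _, h, hk⟩
  let dd : V → ℕ := fun v => @Nat.find _ (Classical.decPred _) (hex v)
  have hstep : ∀ v, v ≠ ρ → ∃ u, R v u ∧ dd u < dd v := by
    intro v hv
    have h : Re (dd v) v := @Nat.find_spec _ (Classical.decPred _) (hex v)
    rcases hk : dd v with _ | k
    · rw [hk] at h; exact absurd h hv
    · rw [hk] at h
      obtain ⟨u, h1, h2⟩ := h
      exact ⟨u, h1, Nat.lt_succ_of_le (@Nat.find_min' _ (Classical.decPred _) _ _ h2)⟩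
  choose! g hg using hstep
  refine ⟨⟨ρ, fun v => if v = ρ then ρ else g v, dd, by simp, ?_⟩, ?_⟩
  · intro v hv
    simp only [if_neg hv]
    exact (hg v hv).2
  · intro v hv
    simp only at hv
    simp only [if_neg hv]
    exact (hg v hv).1

namespace RTree

variable {V : Type} (T : RTree V)

def Desc (u v : V) : Prop := ∃ k, T.par^[k] u = v

lemma strong {P : V → Prop} (h : ∀ v, (v ≠ T.root → P (T.par v)) → P v) (v : V) : P v := by
  induction hn : T.d v using Nat.strong_induction_on generalizing v with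
  | _ n ih => exact h v (fun hv => ih _ (hn ▸ T.d_lt v hv) _ rfl)

lemma desc_refl (u : V) : T.Desc u u := ⟨0, rfl⟩

variable {T}

lemma Desc.trans {u v w : V} (h : T.Desc u v) (h' : T.Desc v w) : T.Desc u w := by
  obtain ⟨k, rfl⟩ := h
  obtain ⟨l, rfl⟩ := h'
  exact ⟨l + k, Function.iterate_add_apply _ _ _ _⟩

lemma desc_par (u : V) : T.Desc u (T.par u) := ⟨1, rfl⟩

lemma Desc.par {u v : V} (h : T.Desc u v) (hne : u ≠ v) : T.Desc (T.par u) v := by
  obtain ⟨k, rfl⟩ := h
  cases k with
  | zero => exact absurd rfl hne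
  | succ k => exact ⟨k, rfl⟩

lemma d_par_le (u : V) : T.d (T.par u) ≤ T.d u := by
  by_cases h : u = T.root
  · rw [h, T.par_root]
  · exact (T.d_lt u h).le

lemma Desc.d_le {u v : V} (h : T.Desc u v) : T.d v ≤ T.d u := by
  obtain ⟨k, rfl⟩ := h
  induction k with
  | zero => exact le_rfl
  | succ k ih => rw [Function.iterate_succ_apply']; exact (d_par_le _).trans ih

lemma Desc.of_root {v : V} (h : T.Desc T.root v) : v = T.root := by
  obtain ⟨k, rfl⟩ := h
  exact Function.iterate_fixed T.par_root k

lemma Desc.d_lt {u v : V} (h : T.Desc u v) (hne : u ≠ v) : T.d v < T.d u := by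
  by_cases hu : u = T.root
  · subst hu; exact absurd h.of_root.symm hne
  · exact lt_of_le_of_lt (h.par hne).d_le (T.d_lt u hu)

lemma Desc.antisymm {u v : V} (h : T.Desc u v) (h' : T.Desc v u) : u = v := by
  by_contra hne
  have := h.d_lt hne
  have := h'.d_le
  omega

lemma Desc.comp {u v w : V} (h : T.Desc u v) (h' : T.Desc u w) : T.Desc v w ∨ T.Desc w v := by
  obtain ⟨k, rfl⟩ := h
  obtain ⟨l, rfl⟩ := h'
  rcases le_total k l with hkl | hkl
  · left
    obtain ⟨m, rfl⟩ := Nat.exists_eq_add_of_le hkl
    exact ⟨m, by rw [← Function.iterate_add_apply, add_comm]⟩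
  · right
    obtain ⟨m, rfl⟩ := Nat.exists_eq_add_of_le hkl
    exact ⟨m, by rw [← Function.iterate_add_apply, add_comm]⟩

lemma Desc.child {u v : V} (h : T.Desc u v) (hne : u ≠ v) :
    ∃ c, c ≠ T.root ∧ T.par c = v ∧ T.Desc u c := by
  induction u using T.strong with
  | _ u ih =>
    have hu : u ≠ T.root := by
      rintro rfl
      exact hne h.of_root.symm
    by_cases hp : T.par u = v
    · exact ⟨u, hu, hp, T.desc_refl u⟩
    · obtain ⟨c, h1, h2, h3⟩ := ih hu (h.par hne) hp
      exact ⟨c, h1, h2, (desc_par u).trans h3⟩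

lemma sib {c c' : V} (hc' : c' ≠ T.root) (hp : T.par c = T.par c') (hne : c ≠ c') :
    ¬ T.Desc c c' := by
  intro h
  have h1 := (h.par hne).d_le
  have h2 := T.d_lt c' hc'
  rw [hp] at h1
  omega

variable (T)

section top
variable (cut : V → Prop)

noncomputable def top (v : V) : V :=
  if v = T.root ∨ cut v then v else top (T.par v)
termination_by T.d v
decreasing_by
  rename_i h
  exact T.d_lt v (fun hv => h (Or.inl hv))

variable {T cut}

lemma top_of {v : V} (h : v = T.root ∨ cut v) : T.top cut v = v := by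
  rw [top, if_pos h]

lemma top_not {v : V} (h : ¬ (v = T.root ∨ cut v)) : T.top cut v = T.top cut (T.par v) := by
  rw [top, if_neg h]

lemma ind_top {P : V → Prop} (h1 : ∀ v, (v = T.root ∨ cut v) → P v)
    (h2 : ∀ v, ¬ (v = T.root ∨ cut v) → P (T.par v) → P v) (v : V) : P v := by
  induction v using T.strong with
  | _ v ih =>
    by_cases h : v = T.root ∨ cut v
    · exact h1 v h
    · exact h2 v h (ih (fun hv => h (Or.inl hv)))

lemma desc_top (v : V) : T.Desc v (T.top cut v) := by
  induction v using ind_top (T := T) (cut := cut) with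
  | h1 v h => rw [top_of h]; exact T.desc_refl v
  | h2 v h ih => rw [top_not h]; exact (desc_par v).trans ih

lemma cut_top (v : V) : T.top cut v = T.root ∨ cut (T.top cut v) := by
  induction v using ind_top (T := T) (cut := cut) with
  | h1 v h => rw [top_of h]; exact h
  | h2 v h ih => rw [top_not h]; exact ih

lemma top_desc {u c : V} (h : T.Desc u c) (hc : c = T.root ∨ cut c) :
    T.Desc (T.top cut u) c := by
  induction u using ind_top (T := T) (cut := cut) with
  | h1 v h' => rw [top_of h']; exact h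
  | h2 v h' ih =>
    rw [top_not h']
    exact ih (h.par (fun e => h' (e ▸ hc)))

lemma top_between {u w : V} (h : T.Desc u w) (h' : T.Desc w (T.top cut u)) :
    T.top cut w = T.top cut u := by
  induction u using ind_top (T := T) (cut := cut) with
  | h1 v hv =>
    rw [top_of hv] at h'
    rw [← h.antisymm h']
  | h2 v hv ih =>
    by_cases e : v = w
    · rw [e]
    · rw [top_not hv] at h' ⊢
      exact ih (h.par e) h'

lemma rin_top {R : V → V → Prop} (hR : ∀ v, v ≠ T.root → R v (T.par v)) (v : V) :
    RIn R {w | T.top cut w = T.top cut v} v (T.top cut v) := by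
  induction v using ind_top (T := T) (cut := cut) with
  | h1 v h => rw [top_of h]; exact Relation.ReflTransGen.refl
  | h2 v h ih =>
    rw [top_not h]
    exact Relation.ReflTransGen.head ⟨hR v (fun e => h (Or.inl e)), top_not h, rfl⟩ ih

lemma rin_root {R : V → V → Prop} (hR : ∀ v, v ≠ T.root → R v (T.par v)) (t v : V)
    (h : ¬ ((t = T.root ∨ cut t) ∧ T.Desc v t)) :
    RIn R {w | T.top cut w ≠ t} v T.root := by
  have key : ∀ w, ¬ ((t = T.root ∨ cut t) ∧ T.Desc w t) → T.top cut w ≠ t := by
    intro w hw e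
    exact hw ⟨e ▸ cut_top w, e ▸ desc_top w⟩
  induction v using T.strong with
  | _ v ih =>
    by_cases hv : v = T.root
    · rw [hv]; exact Relation.ReflTransGen.refl
    · have h2 : ¬ ((t = T.root ∨ cut t) ∧ T.Desc (T.par v) t) :=
        fun k => h ⟨k.1, (desc_par v).trans k.2⟩
      exact Relation.ReflTransGen.head ⟨hR v hv, key v h, key _ h2⟩ (ih hv h2)

lemma rin_bd {R : V → V → Prop} (hR : ∀ v, v ≠ T.root → R v (T.par v)) (t v : V)
    (ht : t = T.root ∨ cut t) (h : T.Desc v t) (hv : T.top cut v ≠ t) :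
    ∃ u, u ≠ T.root ∧ T.top cut (T.par u) = t ∧ T.top cut u ≠ t ∧
      RIn R {w | T.top cut w ≠ t} v u := by
  induction v using T.strong with
  | _ v ih =>
    have hvt : v ≠ t := fun e => hv (by rw [e, top_of ht])
    have hr : v ≠ T.root := by
      rintro rfl
      exact hvt h.of_root.symm
    by_cases hp : T.top cut (T.par v) = t
    · exact ⟨v, hr, hp, hv, Relation.ReflTransGen.refl⟩
    · obtain ⟨u, h1, h2, h3, h4⟩ := ih hr (h.par hvt) hp
      exact ⟨u, h1, h2, h3, Relation.ReflTransGen.head ⟨hR v hr, hv, hp⟩ h4⟩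

end top

section weight
variable {ι : Type} [Fintype ι] (μ : ι → V)

noncomputable def mk' (v : V) : Finset ι := univ.filter (fun i => T.Desc (μ i) v)

noncomputable def W (v : V) : ℕ := (T.mk' μ v).card

variable {T μ}

lemma mk_mono {u v : V} (h : T.Desc u v) : T.mk' μ u ⊆ T.mk' μ v := by
  intro i hi
  simp only [mk', mem_filter, mem_univ, true_and] at hi ⊢
  exact hi.trans h

lemma W_mono {u v : V} (h : T.Desc u v) : T.W μ u ≤ T.W μ v := card_le_card (mk_mono h)

lemma mk_disj {u v : V} (h : ¬ T.Desc u v) (h' : ¬ T.Desc v u) :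
    Disjoint (T.mk' μ u) (T.mk' μ v) := by
  rw [disjoint_left]
  intro i hi hi'
  simp only [mk', mem_filter, mem_univ, true_and] at hi hi'
  rcases hi.comp hi' with k | k
  · exact h k
  · exact h' k

lemma W_add {u v w : V} (h : ¬ T.Desc u v) (h' : ¬ T.Desc v u) (hu : T.Desc u w)
    (hv : T.Desc v w) : T.W μ u + T.W μ v ≤ T.W μ w := by
  unfold W
  rw [← card_union_of_disjoint (mk_disj h h')]
  exact card_le_card (union_subset (mk_mono hu) (mk_mono hv))

variable (T μ)

noncomputable def F (s : ℕ) (v : V) : ℕ := T.W μ v / s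

def crit (s : ℕ) (v : V) : Prop :=
  1 ≤ T.F μ s v ∧ ∀ c, c ≠ T.root → T.par c = v → T.F μ s c < T.F μ s v

def cut (s : ℕ) (v : V) : Prop := T.crit μ s v ∨ T.crit μ s (T.par v)

variable {T μ}

lemma f_add {s : ℕ} {u v w : V} (h : ¬ T.Desc u v) (h' : ¬ T.Desc v u) (hu : T.Desc u w)
    (hv : T.Desc v w) : T.F μ s u + T.F μ s v ≤ T.F μ s w :=
  Nat.div_add_div_le_add_div.trans (Nat.div_le_div_right (W_add h h' hu hv))

lemma f_mono {s : ℕ} {u v : V} (h : T.Desc u v) : T.F μ s u ≤ T.F μ s v :=
  Nat.div_le_div_right (W_mono h)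

lemma crit_single {s : ℕ} {t w : V} (ht : T.crit μ s t) (hw : T.top (T.cut μ s) w = t) :
    w = t := by
  by_contra hne
  obtain ⟨c, h1, h2, h3⟩ := (hw ▸ desc_top w : T.Desc w t).child hne
  have h4 := top_desc (cut := T.cut μ s) h3 (Or.inr (Or.inr (h2 ▸ ht)))
  rw [hw] at h4
  have := h4.d_le
  have := T.d_lt c h1
  rw [h2] at this
  omega

lemma noncrit_child {s : ℕ} {w c : V} (hw : ¬ T.crit μ s w) (hc : c ≠ T.root) (hp : T.par c = w)
    (h1 : 1 ≤ T.F μ s c) : T.F μ s c = T.F μ s w := by
  have hcw : T.Desc c w := hp ▸ desc_par c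
  have hle := f_mono (μ := μ) (s := s) hcw
  unfold crit at hw
  push Not at hw
  obtain ⟨c', k1, k2, k3⟩ := hw (by omega)
  by_cases e : c = c'
  · subst e; omega
  · have := f_add (μ := μ) (s := s) (sib k1 (hp.trans k2.symm) e)
      (sib hc (k2.trans hp.symm) (Ne.symm e)) hcw (k2 ▸ desc_par c')
    omega

lemma f_const {s : ℕ} {t : V} (w : V) (hw : T.top (T.cut μ s) w = t)
    (h1 : 1 ≤ T.F μ s w) : T.F μ s w = T.F μ s t := by
  induction w using ind_top (T := T) (cut := T.cut μ s) with
  | h1 v h => rw [top_of h] at hw; rw [hw]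
  | h2 v h ih =>
    rw [top_not h] at hw
    have k := noncrit_child (fun k => h (Or.inr (Or.inr k))) (fun e => h (Or.inl e)) rfl h1
    rw [k]
    exact ih hw (k ▸ h1)

lemma bd_unique {s : ℕ} {t u u' : V} (ht : ¬ T.crit μ s t) (hu : u ≠ T.root) (hu' : u' ≠ T.root)
    (h1 : T.top (T.cut μ s) (T.par u) = t) (h1' : T.top (T.cut μ s) (T.par u') = t)
    (h2 : T.top (T.cut μ s) u ≠ t) (h2' : T.top (T.cut μ s) u' ≠ t) : u = u' := by
  have key : ∀ x, x ≠ T.root → T.top (T.cut μ s) (T.par x) = t → T.top (T.cut μ s) x ≠ t →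
      T.cut μ s x ∧ 1 ≤ T.F μ s x ∧ T.F μ s x = T.F μ s t := by
    intro x hx k1 k2
    have hnc : ¬ T.crit μ s (T.par x) := by
      intro hc
      rw [top_of (cut := T.cut μ s) (Or.inr (Or.inl hc))] at k1
      exact ht (k1 ▸ hc)
    have hcut : T.cut μ s x := by
      by_contra hc
      rw [top_not (by rintro (e | e); exact hx e; exact hc e)] at k2
      exact k2 k1
    have hcr : T.crit μ s x := hcut.resolve_right hnc
    have e := noncrit_child hnc hx rfl hcr.1
    exact ⟨hcut, hcr.1, e.trans (f_const _ k1 (e ▸ hcr.1))⟩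
  have inc : ∀ x x', x' ≠ T.root → T.top (T.cut μ s) (T.par x) = t →
      T.top (T.cut μ s) (T.par x') = t → T.cut μ s x' → x ≠ x' → ¬ T.Desc x x' := by
    intro x x' hx' k1 k1' kc hne hd
    have a := top_desc (cut := T.cut μ s) (hd.par hne) (Or.inr kc)
    rw [k1] at a
    have b := (k1' ▸ desc_top (T.par x') : T.Desc (T.par x') t).d_le
    have c := T.d_lt x' hx'
    have := a.d_le
    omega
  obtain ⟨a1, a2, a3⟩ := key u hu h1 h2
  obtain ⟨b1, b2, b3⟩ := key u' hu' h1' h2'
  by_contra hne
  have := f_add (μ := μ) (s := s) (inc u u' hu' h1 h1' b1 hne)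
    (inc u' u hu h1' h1 a1 (Ne.symm hne))
    ((desc_par u).trans (h1 ▸ desc_top _)) ((desc_par u').trans (h1' ▸ desc_top _))
  omega

lemma crit_eq {s : ℕ} {u v : V} (hv : T.crit μ s v) (h : T.Desc u v)
    (e : T.F μ s u = T.F μ s v) : u = v := by
  by_contra hne
  obtain ⟨c, h1, h2, h3⟩ := h.child hne
  have := hv.2 c h1 h2
  have := f_mono (μ := μ) (s := s) h3
  omega

lemma crit_of_mul {s K : ℕ} {v : V} (h : T.crit μ (s * K) v) : T.crit μ s v := by
  have key : ∀ a b : ℕ, a / (s * K) < b / (s * K) → a / s < b / s := by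
    intro a b hab
    rw [← Nat.div_div_eq_div_mul, ← Nat.div_div_eq_div_mul] at hab
    by_contra hc
    exact absurd (Nat.div_le_div_right (c := K) (not_lt.1 hc)) (not_le.2 hab)
  refine ⟨?_, fun c h1 h2 => key _ _ (h.2 c h1 h2)⟩
  have := key 0 (T.W μ v) (by rw [Nat.zero_div]; exact h.1)
  rw [Nat.zero_div] at this
  exact this

variable [Fintype V]

lemma card_crit {s K : ℕ} (hs : 0 < s) (hK : 0 < K) (t : V) :
    (univ.filter (fun c => T.crit μ s c ∧ T.top (T.cut μ (s * K)) c = t)).card
      ≤ K * K + K := by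
  by_cases ht : T.crit μ (s * K) t
  · have : univ.filter (fun c => T.crit μ s c ∧ T.top (T.cut μ (s * K)) c = t) ⊆ {t} := by
      intro c hc
      simp only [mem_filter, mem_univ, true_and] at hc
      exact mem_singleton.2 (crit_single ht hc.2)
    have := card_le_card this
    rw [card_singleton] at this
    nlinarith
  have hsK : 0 < s * K := Nat.mul_pos hs hK
  set C := univ.filter (fun c => T.crit μ s c ∧ T.top (T.cut μ (s * K)) c = t) with hC
  have hCm : ∀ c ∈ C, T.crit μ s c ∧ T.top (T.cut μ (s * K)) c = t := by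
    intro c hc
    simpa [hC] using hc
  have hdesc : ∀ c ∈ C, T.Desc c t := fun c hc => (hCm c hc).2 ▸ desc_top c
  rw [← card_filter_add_card_filter_not (s := C) (fun c => T.F μ (s * K) c = 0)]
  apply Nat.add_le_add
  · -- light nodes
    obtain ⟨M, hM, hMc⟩ : ∃ M : Finset ι, M.card < s * K ∧
        ∀ c ∈ C, T.F μ (s * K) c = 0 → T.mk' μ c ⊆ M := by
      by_cases h0 : T.F μ (s * K) t = 0
      · exact ⟨T.mk' μ t, (Nat.div_eq_zero_iff_lt hsK).1 h0, fun c hc _ => mk_mono (hdesc c hc)⟩
      · obtain ⟨h, hh, hmax⟩ := exists_max_image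
          (univ.filter (fun x => T.Desc x t ∧ T.F μ (s * K) x = T.F μ (s * K) t)) T.d
          ⟨t, by simp [T.desc_refl]⟩
        simp only [mem_filter, mem_univ, true_and] at hh hmax
        have hcr : T.crit μ (s * K) h := by
          refine ⟨by omega, fun c h1 h2 => ?_⟩
          have hch : T.Desc c h := h2 ▸ desc_par c
          have k1 := f_mono (μ := μ) (s := s * K) hch
          by_contra k2
          have k3 := hmax c ⟨hch.trans hh.1, by omega⟩
          have k4 := T.d_lt c h1
          rw [h2] at k4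
          omega
        refine ⟨T.mk' μ t \ T.mk' μ h, ?_, fun c hc h0' => ?_⟩
        · rw [card_sdiff_of_subset (mk_mono hh.1)]
          change T.W μ t - T.W μ h < s * K
          have a1 := Nat.div_add_mod (T.W μ t) (s * K)
          have a2 := Nat.div_add_mod (T.W μ h) (s * K)
          have a3 := Nat.mod_lt (T.W μ t) hsK
          have a4 : T.W μ h / (s * K) = T.W μ t / (s * K) := hh.2
          rw [a4] at a2
          omega
        · rw [subset_sdiff]
          refine ⟨mk_mono (hdesc c hc), mk_disj ?_ ?_⟩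
          · intro k
            have k2 := top_desc (cut := T.cut μ (s * K)) k (Or.inr (Or.inl hcr))
            rw [(hCm c hc).2] at k2
            exact ht (k2.antisymm hh.1 ▸ hcr)
          · intro k
            have := f_mono (μ := μ) (s := s * K) k
            omega
    refine (card_le_mul_card_image_of_maps_to (f := fun c => T.F μ s c) (t := range K) ?_ K
      ?_).trans_eq (by rw [card_range])
    · intro c hc
      simp only [mem_filter] at hc
      rw [mem_range]
      have := (Nat.div_eq_zero_iff_lt hsK).1 hc.2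
      exact Nat.div_lt_of_lt_mul this
    · intro φ _
      set L := (C.filter (fun c => T.F μ (s * K) c = 0)).filter (fun c => T.F μ s c = φ)
        with hL
      have hLm : ∀ c ∈ L, c ∈ C ∧ T.F μ (s * K) c = 0 ∧ T.F μ s c = φ := by
        intro c hc
        simp only [hL, mem_filter] at hc
        exact ⟨hc.1.1, hc.1.2, hc.2⟩
      have h1 : (L.biUnion (T.mk' μ)).card = ∑ c ∈ L, (T.mk' μ c).card := by
        apply card_biUnion
        intro c hc c' hc' hne
        have hc := hLm c hc
        have hc' := hLm c' hc'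
        exact mk_disj (fun k => hne (crit_eq (hCm c' hc'.1).1 k (hc.2.2.trans hc'.2.2.symm)))
          (fun k => hne (crit_eq (hCm c hc.1).1 k (hc'.2.2.trans hc.2.2.symm)).symm)
      have h2 : (L.biUnion (T.mk' μ)).card ≤ M.card := by
        apply card_le_card
        intro i hi
        obtain ⟨c, hc, hi⟩ := mem_biUnion.1 hi
        exact hMc c (hLm c hc).1 (hLm c hc).2.1 hi
      have h3 : L.card • s ≤ ∑ c ∈ L, (T.mk' μ c).card := by
        apply card_nsmul_le_sum
        intro c hc
        have := (hCm c (hLm c hc).1).1.1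
        exact (Nat.one_le_div_iff hs).1 this
      rw [smul_eq_mul] at h3
      by_contra hc
      have : K * s ≤ L.card * s := Nat.mul_le_mul_right _ (by omega)
      nlinarith
  · -- heavy nodes
    set φ := T.F μ (s * K) t with hφ
    have hv : ∀ c ∈ C.filter (fun c => ¬ T.F μ (s * K) c = 0), T.F μ (s * K) c = φ := by
      intro c hc
      simp only [mem_filter] at hc
      exact f_const c (hCm c hc.1).2 (by omega)
    refine (card_le_card_of_injOn (t := range K) (fun c => (T.F μ s c) % K) ?_ ?_).trans_eq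
      (card_range K)
    · intro c _
      simp only [coe_range, Set.mem_Iio]
      exact Nat.mod_lt _ hK
    · intro c hc c' hc' e
      have h1 := hv c hc
      have h2 := hv c' hc'
      simp only [coe_filter, Set.mem_ofPred_eq] at hc hc'
      have e2 : T.F μ s c = T.F μ s c' := by
        have a1 := Nat.div_add_mod (T.F μ s c) K
        have a2 := Nat.div_add_mod (T.F μ s c') K
        have a3 : T.F μ s c / K = φ := (Nat.div_div_eq_div_mul _ _ _).trans h1
        have a4 : T.F μ s c' / K = φ := (Nat.div_div_eq_div_mul _ _ _).trans h2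
        rw [a3] at a1; rw [a4] at a2
        simp only at e
        omega
      by_cases k : T.Desc c c'
      · exact crit_eq (hCm c' hc'.1).1 k e2
      · by_cases k' : T.Desc c' c
        · exact (crit_eq (hCm c hc.1).1 k' e2.symm).symm
        · have := f_add (μ := μ) (s := s * K) k k' (hdesc c hc.1) (hdesc c' hc'.1)
          have := hc.2
          omega

lemma card_sub {s K : ℕ} (hs : 0 < s) (hK : 0 < K) (lab : V → V → Bool × Bool)
    (hlab : ∀ c c', c ≠ T.root → c' ≠ T.root → T.par c = T.par c' →
      lab (T.par c) c = lab (T.par c') c' → c = c') (t : V) :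
    ((univ.filter (fun u => T.top (T.cut μ (s * K)) u = t)).image (T.top (T.cut μ s))).card
      ≤ 1 + 5 * (K * K + K) := by
  set C := univ.filter (fun c => T.crit μ s c ∧ T.top (T.cut μ (s * K)) c = t) with hC
  set Ch := univ.filter (fun c => c ≠ T.root ∧ T.par c ∈ C) with hCh
  have h1 : C.card ≤ K * K + K := card_crit hs hK t
  have h2 : Ch.card ≤ 4 * C.card := by
    have : Ch.card ≤ (C ×ˢ (univ : Finset (Bool × Bool))).card := by
      apply card_le_card_of_injOn (fun c => (T.par c, lab (T.par c) c))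
      · intro c hc
        simp only [hCh, coe_filter, mem_univ, true_and, Set.mem_ofPred_eq] at hc
        simp [hc.2]
      · intro c hc c' hc' e
        simp only [hCh, coe_filter, mem_univ, true_and, Set.mem_ofPred_eq] at hc hc'
        simp only [Prod.mk.injEq] at e
        exact hlab c c' hc.1 hc'.1 e.1 e.2
    rw [card_product] at this
    simp at this
    omega
  have h3 : (univ.filter (fun u => T.top (T.cut μ (s * K)) u = t)).image (T.top (T.cut μ s))
      ⊆ {t} ∪ C ∪ Ch := by
    intro c hc
    obtain ⟨u, hu, rfl⟩ := mem_image.1 hc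
    simp only [mem_filter, mem_univ, true_and] at hu
    set c := T.top (T.cut μ s) u with hc
    have hcut : T.top (T.cut μ (s * K)) u = T.root ∨ T.cut μ s (T.top (T.cut μ (s * K)) u) := by
      rcases cut_top (T := T) (cut := T.cut μ (s * K)) u with k | k | k
      · exact Or.inl k
      · exact Or.inr (Or.inl (crit_of_mul k))
      · exact Or.inr (Or.inr (crit_of_mul k))
    have k1 : T.top (T.cut μ (s * K)) c = t := by
      rw [← hu]
      exact top_between (desc_top u) (top_desc (desc_top u) hcut)
    by_cases e : c = t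
    · simp [e]
    have k2 : ¬ (c = T.root ∨ T.cut μ (s * K) c) := fun k => e (by rw [← k1, top_of k])
    rcases cut_top (T := T) (cut := T.cut μ s) u with k | k | k
    · exact absurd (Or.inl k) k2
    · simp only [mem_union, hC, mem_filter, mem_univ, true_and]
      exact Or.inl (Or.inr ⟨k, k1⟩)
    · simp only [mem_union, hCh, hC, mem_filter, mem_univ, true_and]
      exact Or.inr ⟨fun e => k2 (Or.inl e), k, by rw [← top_not k2, k1]⟩
  have h4 := (card_le_card h3).trans ((card_union_le _ _).trans
    (Nat.add_le_add_right (card_union_le _ _) _))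
  rw [card_singleton] at h4
  omega

end weight
end RTree

/-- hierarchical clustering of a connected graph of degree at most four -/
theorem hierarchy {V ι : Type} [Fintype V] [Nonempty V] [Fintype ι] (R : V → V → Prop)
    (hsym : ∀ a b, R a b → R b a) (hc : ∀ u v, Relation.ReflTransGen R u v)
    (lab : V → V → Bool × Bool) (hlab : ∀ v u u', R v u → R v u' → lab v u = lab v u' → u = u')
    (μ : ι → V) (hμ : Function.Injective μ) (K J : ℕ) (hK : 0 < K)
    (hJ : Fintype.card ι < K ^ J) :
    ∃ (cls : ℕ → V → V) (idx : ℕ → V → Fin (1 + 5 * (K * K + K)))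
      (side : ℕ → V → V → Option (Bool × Bool)),
      (∀ j u v, cls j u = cls j v → RIn R {w | cls j w = cls j u} u v) ∧
      (∀ j u v, cls (j + 1) u = cls (j + 1) v → idx j u = idx j v → cls j u = cls j v) ∧
      (∀ u v, cls J u = cls J v) ∧
      (∀ i i', cls 0 (μ i) = cls 0 (μ i') → i = i') ∧
      (∀ j t u v, cls j u ≠ t → cls j v ≠ t → side j t u = side j t v →
        RIn R {w | cls j w ≠ t} u v) := by
  obtain ⟨T, hT⟩ := exists_rtree R hc
  let cls : ℕ → V → V := fun j => T.top (T.cut μ (K ^ j))
  have hlab' : ∀ c c', c ≠ T.root → c' ≠ T.root → T.par c = T.par c' →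
      lab (T.par c) c = lab (T.par c') c' → c = c' := by
    intro c c' h1 h2 h3 h4
    exact hlab (T.par c) c c' (hsym _ _ (hT c h1)) (h3 ▸ hsym _ _ (hT c' h2)) (by rw [h4, h3])
  have hidx : ∀ j t, ∃ g : V → Fin (1 + 5 * (K * K + K)), Set.InjOn g
      ((univ.filter (fun u => cls (j + 1) u = t)).image (cls j) : Finset V) := by
    intro j t
    have h := RTree.card_sub (T := T) (μ := μ) (s := K ^ j) (pow_pos hK j) hK lab hlab' t
    rw [← pow_succ] at h
    have : Nonempty (Fin (1 + 5 * (K * K + K))) := ⟨⟨0, by omega⟩⟩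
    obtain ⟨g, -, hg⟩ := (Finset.finite_toSet
      ((univ.filter (fun u => cls (j + 1) u = t)).image (cls j))).exists_injOn_of_encard_le
      (t := ((univ : Finset (Fin (1 + 5 * (K * K + K)))) : Set (Fin (1 + 5 * (K * K + K))))) (by
        rw [Set.encard_coe_eq_coe_finsetCard, Set.encard_coe_eq_coe_finsetCard, card_univ,
          Fintype.card_fin]
        exact_mod_cast h)
    exact ⟨g, hg⟩
  choose g hg using hidx
  have hside : ∀ j t v, ∃ x : Option (Bool × Bool), cls j v ≠ t →
      (x = none ∧ RIn R {w | cls j w ≠ t} v T.root) ∨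
      ∃ u, x = some (lab (T.par u) u) ∧ u ≠ T.root ∧ cls j (T.par u) = t ∧ cls j u ≠ t ∧
        RIn R {w | cls j w ≠ t} v u := by
    intro j t v
    by_cases h : (t = T.root ∨ T.cut μ (K ^ j) t) ∧ T.Desc v t
    · by_cases hv : cls j v = t
      · exact ⟨none, fun k => absurd hv k⟩
      · obtain ⟨u, h1, h2, h3, h4⟩ := RTree.rin_bd hT t v h.1 h.2 hv
        exact ⟨_, fun _ => Or.inr ⟨u, rfl, h1, h2, h3, h4⟩⟩
    · exact ⟨none, fun _ => Or.inl ⟨rfl, RTree.rin_root hT t v h⟩⟩
  choose side hside using hside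
  refine ⟨cls, fun j u => g j (cls (j + 1) u) (cls j u), side, ?_, ?_, ?_, ?_, ?_⟩
  · intro j u v h
    have h1 := RTree.rin_top (cut := T.cut μ (K ^ j)) hT u
    have h2 := RTree.rin_top (cut := T.cut μ (K ^ j)) hT v
    change RIn R {w | cls j w = cls j v} v (cls j v) at h2
    rw [← h] at h2
    exact Relation.ReflTransGen.trans h1 (h2.symm hsym)
  · intro j u v h1 h2
    simp only [← h1] at h2
    refine hg j (cls (j + 1) u) ?_ ?_ h2
    · simp only [coe_image, coe_filter, mem_univ, true_and]
      exact ⟨u, rfl, rfl⟩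
    · simp only [coe_image, coe_filter, mem_univ, true_and]
      exact ⟨v, h1.symm, rfl⟩
  · have key : ∀ v, ¬ T.crit μ (K ^ J) v := by
      intro v h
      have h1 := (Nat.one_le_div_iff (pow_pos hK J)).1 h.1
      have h2 : T.W μ v ≤ Fintype.card ι := card_le_univ _
      omega
    have : ∀ v, cls J v = T.root := by
      intro v
      rcases RTree.cut_top (T := T) (cut := T.cut μ (K ^ J)) v with k | k | k
      · exact k
      · exact absurd k (key _)
      · exact absurd k (key _)
    intro u v
    rw [this, this]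
  · have key : ∀ i, cls 0 (μ i) = μ i := by
      intro i
      apply RTree.top_of
      right; left
      have hi : i ∈ T.mk' μ (μ i) := by simp [RTree.mk', T.desc_refl]
      constructor
      · simp only [pow_zero, RTree.F, Nat.div_one]
        exact card_pos.2 ⟨i, hi⟩
      · intro c h1 h2
        simp only [pow_zero, RTree.F, Nat.div_one]
        apply card_lt_card
        refine ⟨RTree.mk_mono (h2 ▸ RTree.desc_par c), fun k => ?_⟩
        have := k hi
        simp only [RTree.mk', mem_filter, mem_univ, true_and] at this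
        have a := this.d_le
        have b := T.d_lt c h1
        rw [h2] at b
        omega
    intro i i' h
    rw [key, key] at h
    exact hμ h
  · intro j t u v hu hv e
    rcases hside j t u hu with ⟨a1, a2⟩ | ⟨x, a1, a2, a3, a4, a5⟩
    · rcases hside j t v hv with ⟨b1, b2⟩ | ⟨y, b1, _⟩
      · exact Relation.ReflTransGen.trans a2 (b2.symm hsym)
      · rw [a1, b1] at e; exact absurd e (by simp)
    · rcases hside j t v hv with ⟨b1, b2⟩ | ⟨y, b1, b2, b3, b4, b5⟩
      · rw [a1, b1] at e; exact absurd e (by simp)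
      · rw [a1, b1, Option.some.injEq] at e
        have : x = y := by
          by_cases ht : T.crit μ (K ^ j) t
          · exact hlab' x y a2 b2 ((RTree.crit_single ht a3).trans
              (RTree.crit_single ht b3).symm) e
          · exact RTree.bd_unique ht a2 b2 a3 b3 a4 b4
        subst this
        exact Relation.ReflTransGen.trans a5 (b5.symm hsym)

end Pool.Agent.Lib.MP_5bf547_co
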