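import Mathlib
import Pool.Agent.Lib.MP_5bf547_co.Cross
import Pool.Agent.Lib.MP_5bf547_co.Tree

namespace Pool.Agent.Lib.MP_5bf547_co

open Classical Finset

lemma ori_affine {a b z z' q : Pt} {t : ℝ} (e1 : q.1 = z.1 + t * (z'.1 - z.1))
    (e2 : q.2 = z.2 + t * (z'.2 - z.2)) : ori a b q = (1 - t) * ori a b z + t * ori a b z' := by
  simp only [ori, e1, e2]; ring

lemma ori_keep_aux {a b z z' : Pt} (hab : a.1 < b.1)
    (hd : ∀ q ∈ segment ℝ z z', q ∉ segment ℝ a b) (h1 : a.1 ≤ z.1) (h2 : z.1 ≤ b.1)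
    (h3 : a.1 ≤ z'.1) (h4 : z'.1 ≤ b.1) (h : 0 < ori a b z) : 0 < ori a b z' := by
  by_contra hc
  push Not at hc
  have hD : 0 < ori a b z - ori a b z' := by linarith
  set s := ori a b z / (ori a b z - ori a b z') with hs
  have s0 : 0 ≤ s := by positivity
  have s1 : s ≤ 1 := by rw [hs, div_le_one hD]; linarith
  refine hd (z.1 + s * (z'.1 - z.1), z.2 + s * (z'.2 - z.2))
    (mem_seg_iff.2 ⟨s, s0, s1, rfl, rfl⟩) (mem_seg_of_on hab ?_ ?_ ?_)
  · simp only; nlinarith
  · simp only; nlinarith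
  · rw [ori_affine (z := z) (z' := z') (t := s) rfl rfl, hs]; field_simp; ring

lemma ori_keep {a b z z' : Pt} (hab : a.1 < b.1)
    (hd : ∀ q ∈ segment ℝ z z', q ∉ segment ℝ a b) (h1 : a.1 ≤ z.1) (h2 : z.1 ≤ b.1)
    (h3 : a.1 ≤ z'.1) (h4 : z'.1 ≤ b.1) : 0 < ori a b z ↔ 0 < ori a b z' :=
  ⟨ori_keep_aux hab hd h1 h2 h3 h4,
    ori_keep_aux hab (by rwa [segment_symm ℝ z' z]) h3 h4 h1 h2⟩

lemma vert_mem' {s s' q : Pt} (h : s.1 = s'.1) (h1 : q.1 = s.1) (h2 : s.2 ≤ q.2)
    (h3 : q.2 ≤ s'.2) : q ∈ segment ℝ s s' := by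
  rw [mem_seg_iff]
  rcases eq_or_lt_of_le (h2.trans h3) with e | e
  · exact ⟨0, le_rfl, zero_le_one, by simp [h1], by simp; linarith⟩
  · have hs : 0 < s'.2 - s.2 := by linarith
    refine ⟨(q.2 - s.2) / (s'.2 - s.2), div_nonneg (by linarith) hs.le,
      by rw [div_le_one hs]; linarith, by rw [h1, h]; ring, by field_simp; ring⟩

variable {n : ℕ} (p : Fin n → Pt) (B : Set (Fin n × Fin n))

/-- the free region -/
def Free : Set Pt := {z | (∀ i, z ≠ p i) ∧ ∀ e ∈ B, z ∉ segment ℝ (p e.1) (p e.2)}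

structure Same (z z' : Pt) : Prop where
  l : ∀ i, (p i).1 < z.1 ↔ (p i).1 < z'.1
  r : ∀ i, z.1 < (p i).1 ↔ z'.1 < (p i).1
  v : ∀ i, z.1 = (p i).1 → ((p i).2 < z.2 ↔ (p i).2 < z'.2)
  e : ∀ e ∈ B, (p e.1).1 ≤ z.1 → z.1 ≤ (p e.2).1 →
    (0 < ori (p e.1) (p e.2) z ↔ 0 < ori (p e.1) (p e.2) z')

abbrev Code (n : ℕ) := (Fin n → Prop) × (Fin n → Prop) × (Fin n → Prop) × (Fin n × Fin n → Prop)

def code (z : Pt) : Code n :=
  (fun i => (p i).1 < z.1, fun i => z.1 < (p i).1, fun i => z.1 = (p i).1 ∧ (p i).2 < z.2,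
    fun e => e ∈ B ∧ (p e.1).1 ≤ z.1 ∧ z.1 ≤ (p e.2).1 ∧ 0 < ori (p e.1) (p e.2) z)

variable {p B}

lemma Same.le {z z' : Pt} (h : Same p B z z') (i : Fin n) : (p i).1 ≤ z.1 ↔ (p i).1 ≤ z'.1 := by
  rw [← not_lt, ← not_lt, h.r]

lemma Same.ge {z z' : Pt} (h : Same p B z z') (i : Fin n) : z.1 ≤ (p i).1 ↔ z'.1 ≤ (p i).1 := by
  rw [← not_lt, ← not_lt, h.l]

lemma Same.eq {z z' : Pt} (h : Same p B z z') (i : Fin n) : z.1 = (p i).1 ↔ z'.1 = (p i).1 := by
  rw [le_antisymm_iff, le_antisymm_iff, h.le, h.ge]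

lemma code_eq_iff {z z' : Pt} : code p B z = code p B z' ↔ Same p B z z' := by
  constructor
  · intro h
    simp only [code, Prod.mk.injEq, funext_iff, eq_iff_iff] at h
    obtain ⟨h1, h2, h3, h4⟩ := h
    refine ⟨h1, h2, fun i hi => ?_, fun e he k1 k2 => ?_⟩
    · have hi' : z'.1 = (p i).1 := by
        apply le_antisymm
        · rw [← not_lt, ← h1, hi]; exact lt_irrefl _
        · rw [← not_lt, ← h2, hi]; exact lt_irrefl _
      simpa [hi, hi'] using h3 i
    · have k1' : (p e.1).1 ≤ z'.1 := by rw [← not_lt, ← h2]; exact not_lt.2 k1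
      have k2' : z'.1 ≤ (p e.2).1 := by rw [← not_lt, ← h1]; exact not_lt.2 k2
      simpa [he, k1, k2, k1', k2'] using h4 e
  · intro h
    simp only [code, Prod.mk.injEq, funext_iff, eq_iff_iff]
    refine ⟨h.l, h.r, fun i => ?_, fun e => ?_⟩
    · constructor
      · rintro ⟨a, b⟩; exact ⟨(h.eq i).1 a, (h.v i a).1 b⟩
      · rintro ⟨a, b⟩; exact ⟨(h.eq i).2 a, (h.v i ((h.eq i).2 a)).2 b⟩
    · constructor
      · rintro ⟨a, b, c, d⟩; exact ⟨a, (h.le _).1 b, (h.ge _).1 c, (h.e e a b c).1 d⟩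
      · rintro ⟨a, b, c, d⟩
        exact ⟨a, (h.le _).2 b, (h.ge _).2 c, (h.e e a ((h.le _).2 b) ((h.ge _).2 c)).2 d⟩

lemma Same.refl (z : Pt) : Same p B z z := code_eq_iff.1 rfl
lemma Same.symm {z z' : Pt} (h : Same p B z z') : Same p B z' z :=
  code_eq_iff.1 (code_eq_iff.2 h).symm
lemma Same.trans {z z' z'' : Pt} (h : Same p B z z') (h' : Same p B z' z'') : Same p B z z'' :=
  code_eq_iff.1 ((code_eq_iff.2 h).trans (code_eq_iff.2 h'))

lemma cc_lt {c a b t : ℝ} (h0 : 0 ≤ t) (h1 : t ≤ 1) (k : c < a) (k' : c < b) :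
    c < a + t * (b - a) := by
  rcases le_total a b with h | h
  · nlinarith [mul_nonneg h0 (sub_nonneg.2 h)]
  · nlinarith [mul_nonneg (sub_nonneg.2 h1) (sub_nonneg.2 h)]

lemma cc_gt {c a b t : ℝ} (h0 : 0 ≤ t) (h1 : t ≤ 1) (k : a < c) (k' : b < c) :
    a + t * (b - a) < c := by
  rcases le_total a b with h | h
  · nlinarith [mul_nonneg (sub_nonneg.2 h1) (sub_nonneg.2 h)]
  · nlinarith [mul_nonneg h0 (sub_nonneg.2 h)]

lemma conv_lt {c a b t : ℝ} (h0 : 0 ≤ t) (h1 : t ≤ 1) (h : c < a ↔ c < b) :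
    c < a ↔ c < a + t * (b - a) := by
  constructor
  · intro k
    exact cc_lt h0 h1 k (h.1 k)
  · intro k
    by_contra hc
    have k' : ¬ c < b := fun e => hc (h.2 e)
    push Not at hc k'
    nlinarith

lemma conv_gt {c a b t : ℝ} (h0 : 0 ≤ t) (h1 : t ≤ 1) (h : a < c ↔ b < c) :
    a < c ↔ a + t * (b - a) < c := by
  constructor
  · intro k
    exact cc_gt h0 h1 k (h.1 k)
  · intro k
    by_contra hc
    have k' : ¬ b < c := fun e => hc (h.2 e)
    push Not at hc k'
    nlinarith

def Ordered (p : Fin n → Pt) (B : Set (Fin n × Fin n)) : Prop := ∀ e ∈ B, (p e.1).1 < (p e.2).1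

lemma free_ori (hB : Ordered p B) {z : Pt} (hz : z ∈ Free p B) {e : Fin n × Fin n} (he : e ∈ B)
    (h1 : (p e.1).1 ≤ z.1) (h2 : z.1 ≤ (p e.2).1) : ori (p e.1) (p e.2) z ≠ 0 :=
  fun h => hz.2 e he (mem_seg_of_on (hB e he) h1 h2 h)

lemma conv (hB : Ordered p B) {z z' q : Pt} (hz : z ∈ Free p B) (hz' : z' ∈ Free p B)
    (h : Same p B z z') (hq : q ∈ segment ℝ z z') : q ∈ Free p B ∧ Same p B z q := by
  obtain ⟨t, h0, h1, e1, e2⟩ := mem_seg_iff.1 hq
  have hs : Same p B z q := by
    refine ⟨fun i => ?_, fun i => ?_, fun i hi => ?_, fun e he k1 k2 => ?_⟩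
    · rw [e1]; exact conv_lt h0 h1 (h.l i)
    · rw [e1]; exact conv_gt h0 h1 (h.r i)
    · rw [e2]; exact conv_lt h0 h1 (h.v i hi)
    · rw [ori_affine e1 e2]
      have := conv_lt h0 h1 (h.e e he k1 k2)
      rw [this]
      constructor <;> intro k <;> linarith
  refine ⟨⟨fun i hi => ?_, fun e he hm => ?_⟩, hs⟩
  · have a1 : z.1 = (p i).1 := (hs.eq i).2 (by rw [hi])
    have a2 : z'.1 = (p i).1 := (h.eq i).1 a1
    have b1 : z.2 ≠ (p i).2 := fun k => hz.1 i (Prod.ext a1 k)
    have b2 : z'.2 ≠ (p i).2 := fun k => hz'.1 i (Prod.ext a2 k)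
    have c := h.v i a1
    have d : q.2 = (p i).2 := by rw [hi]
    rcases lt_or_gt_of_ne b1 with k | k
    · have : z'.2 < (p i).2 := lt_of_le_of_ne (not_lt.1 (fun e => lt_asymm k (c.2 e))) b2
      linarith [cc_gt h0 h1 k this]
    · linarith [cc_lt h0 h1 k (c.1 k)]
  · obtain ⟨k1, k2⟩ := x_of_mem (hB e he).le hm
    have a1 := (hs.le _).2 k1
    have a2 := (hs.ge _).2 k2
    have b1 := free_ori hB hz he a1 a2
    have b2 := free_ori hB hz' he ((h.le _).1 a1) ((h.ge _).1 a2)
    have c := h.e e he a1 a2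
    have d := ori_of_mem hm
    rw [ori_affine e1 e2] at d
    rcases lt_or_gt_of_ne b1 with k | k
    · have : ori (p e.1) (p e.2) z' < 0 :=
        lt_of_le_of_ne (not_lt.1 (fun e => lt_asymm k (c.2 e))) b2
      linarith [cc_gt h0 h1 k this]
    · linarith [cc_lt h0 h1 k (c.1 k)]

lemma keep (hB : Ordered p B) {z z' : Pt} (hs : segment ℝ z z' ⊆ Free p B) {e : Fin n × Fin n}
    (he : e ∈ B) (h1 : (p e.1).1 ≤ z.1) (h2 : z.1 ≤ (p e.2).1) (h3 : (p e.1).1 ≤ z'.1)
    (h4 : z'.1 ≤ (p e.2).1) : 0 < ori (p e.1) (p e.2) z ↔ 0 < ori (p e.1) (p e.2) z' :=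
  ori_keep (hB e he) (fun _ hq => (hs hq).2 e he) h1 h2 h3 h4

lemma same_of_seg (hB : Ordered p B) {z z' : Pt} (hs : segment ℝ z z' ⊆ Free p B)
    (hl : ∀ i, (p i).1 < z.1 ↔ (p i).1 < z'.1) (hr : ∀ i, z.1 < (p i).1 ↔ z'.1 < (p i).1) :
    Same p B z z' := by
  refine ⟨hl, hr, fun i hi => ?_, fun e he k1 k2 => ?_⟩
  · have hi' : z'.1 = (p i).1 := by
      apply le_antisymm
      · rw [← not_lt, ← hl, hi]; exact lt_irrefl _
      · rw [← not_lt, ← hr, hi]; exact lt_irrefl _
    constructor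
    · intro k
      by_contra hc
      refine (hs ?_).1 i rfl
      rw [segment_symm]
      exact vert_mem' (by rw [hi, hi']) hi'.symm (not_lt.1 hc) k.le
    · intro k
      by_contra hc
      exact (hs (vert_mem' (by rw [hi, hi']) hi.symm (not_lt.1 hc) k.le)).1 i rfl
  · exact keep hB hs he k1 k2 (by rw [← not_lt, ← hr]; exact not_lt.2 k1)
      (by rw [← not_lt, ← hl]; exact not_lt.2 k2)

variable (p B)

def Betw (z z' : Pt) (i : Fin n) : Prop :=
  (z.1 < (p i).1 ∧ (p i).1 < z'.1) ∨ (z'.1 < (p i).1 ∧ (p i).1 < z.1)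

/-- a short step -/
def Sh (z z' : Pt) : Prop := segment ℝ z z' ⊆ Free p B ∧ ∀ i, ¬ Betw p z z' i

variable {p B}

lemma seg_short {z z' : Pt} (hs : segment ℝ z z' ⊆ Free p B) :
    Relation.ReflTransGen (Sh p B) z z' := by
  induction hk : (univ.filter (fun i => Betw p z z' i)).card using Nat.strong_induction_on
    generalizing z z' with
  | _ k ih =>
    by_cases h : ∃ i, Betw p z z' i
    · obtain ⟨i, hi⟩ := h
      have hne : z'.1 - z.1 ≠ 0 := by
        rcases hi with ⟨a, b⟩ | ⟨a, b⟩ <;> intro e <;> linarith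
      set t := ((p i).1 - z.1) / (z'.1 - z.1) with ht
      set q : Pt := (z.1 + t * (z'.1 - z.1), z.2 + t * (z'.2 - z.2)) with hq
      have q1 : q.1 = (p i).1 := by simp only [hq, ht]; field_simp; ring
      have hm : q ∈ segment ℝ z z' := by
        refine mem_seg_iff.2 ⟨t, ?_, ?_, rfl, rfl⟩
        · rcases hi with ⟨a, b⟩ | ⟨a, b⟩
          · exact div_nonneg (by linarith) (by linarith)
          · exact div_nonneg_of_nonpos (by linarith) (by linarith)
        · rcases hi with ⟨a, b⟩ | ⟨a, b⟩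
          · rw [ht, div_le_one (by linarith)]; linarith
          · rw [ht, div_le_one_of_neg (by linarith)]; linarith
      refine Relation.ReflTransGen.trans (b := q)
        (ih _ ?_ ((seg_sub (left_mem_segment _ _ _) hm).trans hs) rfl)
        (ih _ ?_ ((seg_sub hm (right_mem_segment _ _ _)).trans hs) rfl)
      · rw [← hk]
        apply card_lt_card
        refine ⟨fun j hj => ?_, fun k => ?_⟩
        · simp only [mem_filter, mem_univ, true_and, Betw, q1] at hj ⊢
          rcases hi with ⟨a, b⟩ | ⟨a, b⟩ <;> rcases hj with ⟨c, d⟩ | ⟨c, d⟩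
          · left; constructor <;> linarith
          · linarith
          · linarith
          · right; constructor <;> linarith
        · have := k (mem_filter.2 ⟨mem_univ i, hi⟩)
          simp only [mem_filter, mem_univ, true_and, Betw, q1] at this
          rcases this with ⟨_, d⟩ | ⟨c, _⟩ <;> linarith
      · rw [← hk]
        apply card_lt_card
        refine ⟨fun j hj => ?_, fun k => ?_⟩
        · simp only [mem_filter, mem_univ, true_and, Betw, q1] at hj ⊢
          rcases hi with ⟨a, b⟩ | ⟨a, b⟩ <;> rcases hj with ⟨c, d⟩ | ⟨c, d⟩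
          · left; constructor <;> linarith
          · linarith
          · linarith
          · right; constructor <;> linarith
        · have := k (mem_filter.2 ⟨mem_univ i, hi⟩)
          simp only [mem_filter, mem_univ, true_and, Betw, q1] at this
          rcases this with ⟨c, _⟩ | ⟨_, d⟩ <;> linarith
    · exact Relation.ReflTransGen.single ⟨hs, fun i hi => h ⟨i, hi⟩⟩

lemma conn_short {z z' : Pt} (h : Conn (Free p B) z z') :
    Relation.ReflTransGen (Sh p B) z z' := by
  induction h with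
  | refl => exact Relation.ReflTransGen.refl
  | tail _ h2 ih => exact ih.trans (seg_short h2)

lemma Sh.symm {z z' : Pt} (h : Sh p B z z') : Sh p B z' z :=
  ⟨by rw [segment_symm]; exact h.1, fun i hi => h.2 i (Or.symm hi)⟩

variable (p B)

structure Link (z z' : Pt) : Prop where
  seg : segment ℝ z z' ⊆ Free p B
  ne : ¬ Same p B z z'
  mem : ∀ q ∈ segment ℝ z z', Same p B z q ∨ Same p B z' q

variable {p B}

lemma Link.symm {z z' : Pt} (h : Link p B z z') : Link p B z' z :=
  ⟨by rw [segment_symm]; exact h.seg, fun k => h.ne k.symm,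
    fun q hq => (h.mem q (by rwa [segment_symm])).symm⟩

/-- half of a short step is a link or trivial -/
lemma half (hB : Ordered p B) {z z' : Pt} (h : Sh p B z z') :
    Same p B z (midpoint ℝ z z') ∨ Link p B z (midpoint ℝ z z') := by
  have hm : midpoint ℝ z z' ∈ segment ℝ z z' := midpoint_mem_segment _ _
  have hs : segment ℝ z (midpoint ℝ z z') ⊆ Free p B :=
    (seg_sub (left_mem_segment _ _ _) hm).trans h.1
  by_cases k : Same p B z (midpoint ℝ z z')
  · exact Or.inl k
  refine Or.inr ⟨hs, k, fun q hq => ?_⟩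
  obtain ⟨t, h0, h1, e1, e2⟩ := mem_seg_iff.1 hq
  have m1 : (midpoint ℝ z z').1 = (z.1 + z'.1) / 2 := by
    simp [midpoint_eq_smul_add]; ring
  rcases eq_or_lt_of_le h0 with h0 | h0
  · left
    have : q = z := Prod.ext (by rw [e1, ← h0]; ring) (by rw [e2, ← h0]; ring)
    rw [this]; exact Same.refl z
  · right
    apply same_of_seg hB ((seg_sub (right_mem_segment _ _ _) hq).trans hs)
    · intro i
      have := h.2 i
      unfold Betw at this
      push Not at this
      rw [e1, m1]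
      rcases le_or_gt z.1 z'.1 with c | c
      · rcases le_or_gt (p i).1 z.1 with d | d
        · rcases eq_or_lt_of_le c with c | c
          · rw [← c]; constructor <;> intro _ <;> linarith
          · constructor <;> intro _ <;> nlinarith
        · have := this.1 d
          constructor <;> intro _ <;> nlinarith
      · rcases le_or_gt (p i).1 z'.1 with d | d
        · constructor <;> intro _ <;> nlinarith
        · have := this.2 d
          constructor <;> intro _ <;> nlinarith
    · intro i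
      have := h.2 i
      unfold Betw at this
      push Not at this
      rw [e1, m1]
      rcases le_or_gt z.1 z'.1 with c | c
      · rcases le_or_gt (p i).1 z.1 with d | d
        · constructor <;> intro _ <;> nlinarith
        · have := this.1 d
          rcases eq_or_lt_of_le c with c | c
          · rw [← c]; constructor <;> intro _ <;> linarith
          · constructor <;> intro _ <;> nlinarith
      · rcases le_or_gt (p i).1 z'.1 with d | d
        · constructor <;> intro _ <;> nlinarith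
        · have := this.2 d
          constructor <;> intro _ <;> nlinarith

lemma Link.x_ne (hB : Ordered p B) {z z' : Pt} (h : Link p B z z') : z.1 ≠ z'.1 := fun e =>
  h.ne (same_of_seg hB h.seg (fun i => by rw [e]) (fun i => by rw [e]))

lemma Link.nb {z z' : Pt} (h : Link p B z z') (i : Fin n) : ¬ Betw p z z' i := by
  intro hi
  have hne : z'.1 - z.1 ≠ 0 := by
    rcases hi with ⟨a, b⟩ | ⟨a, b⟩ <;> intro e <;> linarith
  set t := ((p i).1 - z.1) / (z'.1 - z.1) with ht
  set q : Pt := (z.1 + t * (z'.1 - z.1), z.2 + t * (z'.2 - z.2)) with hq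
  have q1 : q.1 = (p i).1 := by simp only [hq, ht]; field_simp; ring
  have hm : q ∈ segment ℝ z z' := by
    refine mem_seg_iff.2 ⟨t, ?_, ?_, rfl, rfl⟩
    · rcases hi with ⟨a, b⟩ | ⟨a, b⟩
      · exact div_nonneg (by linarith) (by linarith)
      · exact div_nonneg_of_nonpos (by linarith) (by linarith)
    · rcases hi with ⟨a, b⟩ | ⟨a, b⟩
      · rw [ht, div_le_one (by linarith)]; linarith
      · rw [ht, div_le_one_of_neg (by linarith)]; linarith
  rcases h.mem q hm with k | k
  · have := (k.eq i).2 q1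
    rcases hi with ⟨a, b⟩ | ⟨a, b⟩ <;> linarith
  · have := (k.eq i).2 q1
    rcases hi with ⟨a, b⟩ | ⟨a, b⟩ <;> linarith

lemma Link.not_both (hB : Ordered p B) {z z' : Pt} (h : Link p B z z') {i j : Fin n}
    (hi : z.1 = (p i).1) (hj : z'.1 = (p j).1) : False := by
  have hne := h.x_ne hB
  have m1 : (midpoint ℝ z z').1 = (z.1 + z'.1) / 2 := by
    simp [midpoint_eq_smul_add]; ring
  rcases h.mem _ (midpoint_mem_segment _ _) with k | k
  · have := (k.eq i).1 hi
    apply hne; linarith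
  · have := (k.eq j).1 hj
    apply hne; linarith

lemma Link.one (hB : Ordered p B) {z z' : Pt} (h : Link p B z z') (hz : ∀ i, z.1 ≠ (p i).1) :
    ∃ j, z'.1 = (p j).1 := by
  by_contra hc
  push Not at hc
  apply h.ne
  have key : ∀ i, (p i).1 < z.1 ↔ (p i).1 < z'.1 := by
    intro i
    have := h.nb i
    unfold Betw at this
    push Not at this
    constructor
    · intro k
      by_contra c
      have := this.2 (lt_of_le_of_ne (not_lt.1 c) (hc i))
      linarith
    · intro k
      by_contra c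
      have := this.1 (lt_of_le_of_ne (not_lt.1 c) (hz i))
      linarith
  apply same_of_seg hB h.seg key
  intro i
  constructor
  · intro k
    exact lt_of_le_of_ne (not_lt.1 (fun c => lt_asymm k ((key i).2 c))) (hc i)
  · intro k
    exact lt_of_le_of_ne (not_lt.1 (fun c => lt_asymm k ((key i).1 c))) (hz i)

lemma ori_vert_left {a b z : Pt} (hab : a.1 < b.1) (h : z.1 = a.1) : 0 < ori a b z ↔ a.2 < z.2 := by
  have : ori a b z = (b.1 - a.1) * (z.2 - a.2) := by simp only [ori, h]; ring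
  rw [this, mul_pos_iff_of_pos_left (by linarith), sub_pos]

lemma ori_vert_right {a b z : Pt} (hab : a.1 < b.1) (h : z.1 = b.1) :
    0 < ori a b z ↔ b.2 < z.2 := by
  have : ori a b z = (b.1 - a.1) * (z.2 - b.2) := by simp only [ori, h]; ring
  rw [this, mul_pos_iff_of_pos_left (by linarith), sub_pos]

lemma link_det (hB : Ordered p B) (hx : ∀ i j, (p i).1 = (p j).1 → i = j) {z z' u u' : Pt}
    (h : Link p B z z') (k : Link p B u u') (hs : Same p B z u) (hd : z.1 < z'.1 ↔ u.1 < u'.1)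
    (hb : (∃ i, z'.1 = (p i).1 ∧ (p i).2 < z'.2) ↔ (∃ i, u'.1 = (p i).1 ∧ (p i).2 < u'.2)) :
    Same p B z' u' := by
  have n1 : ∀ i, (z.1 < (p i).1 → z'.1 ≤ (p i).1) ∧ (z'.1 < (p i).1 → z.1 ≤ (p i).1) := by
    intro i
    have := h.nb i
    unfold Betw at this
    push Not at this
    exact this
  have n2 : ∀ i, (u.1 < (p i).1 → u'.1 ≤ (p i).1) ∧ (u'.1 < (p i).1 → u.1 ≤ (p i).1) := by
    intro i
    have := k.nb i
    unfold Betw at this
    push Not at this
    exact this
  have dir : (z.1 < z'.1 ∧ u.1 < u'.1) ∨ (z'.1 < z.1 ∧ u'.1 < u.1) := by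
    rcases lt_or_gt_of_ne (h.x_ne hB) with c | c
    · exact Or.inl ⟨c, hd.1 c⟩
    · exact Or.inr ⟨c, lt_of_le_of_ne (not_lt.1 (fun e => lt_asymm c (hd.2 e))) (k.x_ne hB).symm⟩
  by_cases hw : ∃ i, z.1 = (p i).1
  · obtain ⟨i, hi⟩ := hw
    have hi' := (hs.eq i).1 hi
    have o1 : ∀ j, z'.1 ≠ (p j).1 := fun j e => h.not_both hB hi e
    have o2 : ∀ j, u'.1 ≠ (p j).1 := fun j e => k.not_both hB hi' e
    have key : ∀ j, (p j).1 < z'.1 ↔ (p j).1 < u'.1 := by
      intro j
      rcases dir with ⟨a, b⟩ | ⟨a, b⟩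
      · constructor
        · intro c
          by_contra d
          have := (n1 j).1 (by
            have := lt_of_le_of_ne (not_lt.1 d) (o2 j)
            by_contra e
            linarith [not_lt.1 e])
          linarith
        · intro c
          by_contra d
          have := (n2 j).1 (by
            have := lt_of_le_of_ne (not_lt.1 d) (o1 j)
            by_contra e
            linarith [not_lt.1 e])
          linarith
      · constructor
        · intro c
          by_contra d
          have := (n2 j).2 (lt_of_le_of_ne (not_lt.1 d) (o2 j))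
          linarith
        · intro c
          by_contra d
          have := (n1 j).2 (lt_of_le_of_ne (not_lt.1 d) (o1 j))
          linarith
    have key2 : ∀ j, z'.1 < (p j).1 ↔ u'.1 < (p j).1 := by
      intro j
      constructor
      · intro c
        exact lt_of_le_of_ne (not_lt.1 (fun e => lt_asymm c ((key j).2 e))) (o2 j)
      · intro c
        exact lt_of_le_of_ne (not_lt.1 (fun e => lt_asymm c ((key j).1 e))) (o1 j)
    refine ⟨key, key2, fun j e => absurd e (o1 j), fun e he k1 k2 => ?_⟩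
    have k1' : (p e.1).1 < z'.1 := lt_of_le_of_ne k1 (o1 _).symm
    have k2' : z'.1 < (p e.2).1 := lt_of_le_of_ne k2 (o1 _)
    have a1 : (p e.1).1 ≤ z.1 := by
      by_contra c
      have := (n1 e.1).1 (not_le.1 c)
      linarith
    have a2 : z.1 ≤ (p e.2).1 := (n1 e.2).2 k2'
    rw [← keep hB h.seg he a1 a2 k1 k2, hs.e e he a1 a2]
    exact keep hB k.seg he ((hs.le _).1 a1) ((hs.ge _).1 a2) ((key _).1 k1').le
      ((key2 _).1 k2').le
  · push Not at hw
    have hw' : ∀ i, u.1 ≠ (p i).1 := fun i e => hw i ((hs.eq i).2 e)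
    obtain ⟨i, hi⟩ := h.one hB hw
    obtain ⟨j, hj⟩ := k.one hB hw'
    have e0 : z'.1 = u'.1 := by
      rcases dir with ⟨a, b⟩ | ⟨a, b⟩
      · have c1 := (n2 i).1 ((hs.r i).1 (by linarith))
        have c2 := (n1 j).1 ((hs.r j).2 (by linarith))
        linarith
      · have c1 : (p i).1 < u.1 := (hs.l i).1 (by linarith)
        have c2 : (p j).1 < z.1 := (hs.l j).2 (by linarith)
        have d1 : (p i).1 ≤ u'.1 := by
          by_contra c
          have := (n2 i).2 (not_le.1 c)
          linarith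
        have d2 : (p j).1 ≤ z'.1 := by
          by_contra c
          have := (n1 j).2 (not_le.1 c)
          linarith
        linarith
    have hv : ∀ l, z'.1 = (p l).1 → ((p l).2 < z'.2 ↔ (p l).2 < u'.2) := by
      intro l hl
      constructor
      · intro c
        obtain ⟨m, m1, m2⟩ := hb.1 ⟨l, hl, c⟩
        rwa [hx l m (by linarith)]
      · intro c
        obtain ⟨m, m1, m2⟩ := hb.2 ⟨l, by linarith, c⟩
        rwa [hx l m (by linarith)]
    refine ⟨fun l => by rw [e0], fun l => by rw [e0], hv, fun e he k1 k2 => ?_⟩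
    rcases eq_or_lt_of_le k1 with c1 | c1
    · rw [ori_vert_left (hB e he) c1.symm, ori_vert_left (hB e he) (by linarith)]
      exact hv _ c1.symm
    rcases eq_or_lt_of_le k2 with c2 | c2
    · rw [ori_vert_right (hB e he) c2, ori_vert_right (hB e he) (by linarith)]
      exact hv _ c2
    have a1 : (p e.1).1 ≤ z.1 := by
      by_contra c
      have := (n1 e.1).1 (not_le.1 c)
      linarith
    have a2 : z.1 ≤ (p e.2).1 := (n1 e.2).2 c2
    rw [← keep hB h.seg he a1 a2 k1 k2, hs.e e he a1 a2]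
    exact keep hB k.seg he ((hs.le _).1 a1) ((hs.ge _).1 a2) (by linarith) (by linarith)

end Pool.Agent.Lib.MP_5bf547_co
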