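import Mathlib
import Pool.Agent.Lib.MP_5bf547_co.Node

namespace Pool.Agent.Lib.MP_5bf547_co

open Classical Finset

variable {n : ℕ} (p : Fin n → Pt) (B : Set (Fin n × Fin n)) (z0 : Pt)

def Face : Set Pt := {z | Conn (Free p B) z0 z}

def Nd : Type := {c : Code n // ∃ z ∈ Face p B z0, code p B z = c}

noncomputable instance : Fintype (Nd p B z0) := by
  unfold Nd; infer_instance

instance : Nonempty (Nd p B z0) := ⟨⟨_, z0, Conn.refl _ _, rfl⟩⟩

def Adj (c c' : Nd p B z0) : Prop :=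
  ∃ z ∈ Face p B z0, ∃ z' ∈ Face p B z0, code p B z = c.1 ∧ code p B z' = c'.1 ∧ Link p B z z'

def Un (S : Set (Nd p B z0)) : Set Pt := {z | z ∈ Face p B z0 ∧ ∃ c ∈ S, code p B z = c.1}

variable {p B z0}

lemma face_free (h0 : z0 ∈ Free p B) {z : Pt} (hz : z ∈ Face p B z0) : z ∈ Free p B :=
  Conn.mem hz h0

lemma face_seg {z z' q : Pt} (hz : z ∈ Face p B z0) (hs : segment ℝ z z' ⊆ Free p B)
    (hq : q ∈ segment ℝ z z') : q ∈ Face p B z0 :=
  Conn.trans hz (Conn.single ((seg_sub (left_mem_segment _ _ _) hq).trans hs))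

lemma Adj.symm {c c' : Nd p B z0} (h : Adj p B z0 c c') : Adj p B z0 c' c := by
  obtain ⟨z, h1, z', h2, h3, h4, h5⟩ := h
  exact ⟨z', h2, z, h1, h4, h3, h5.symm⟩

lemma un_sub (S : Set (Nd p B z0)) : Un p B z0 S ⊆ Face p B z0 := fun _ h => h.1

lemma un_disj {S T : Set (Nd p B z0)} (h : Disjoint S T) : Disjoint (Un p B z0 S) (Un p B z0 T) := by
  rw [Set.disjoint_left]
  rintro z ⟨_, c, hc, e⟩ ⟨_, c', hc', e'⟩
  have : c = c' := Subtype.ext (e.symm.trans e')
  exact Set.disjoint_left.1 h hc (this ▸ hc')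

lemma un_same (hB : Ordered p B) (h0 : z0 ∈ Free p B) {S : Set (Nd p B z0)} {c : Nd p B z0}
    (hc : c ∈ S) {z z' : Pt} (hz : z ∈ Face p B z0) (hz' : z' ∈ Face p B z0)
    (e : code p B z = c.1) (e' : code p B z' = c.1) : segment ℝ z z' ⊆ Un p B z0 S := by
  have hs := code_eq_iff.1 (e.trans e'.symm)
  have k := fun q hq => conv hB (face_free h0 hz) (face_free h0 hz') hs (q := q) hq
  intro q hq
  exact ⟨face_seg hz (fun r hr => (k r hr).1) hq, c, hc, (code_eq_iff.2 (k q hq).2).symm.trans e⟩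

lemma un_conn (hB : Ordered p B) (h0 : z0 ∈ Free p B) {S : Set (Nd p B z0)} {c c' : Nd p B z0}
    (hc : c ∈ S) (h : RIn (Adj p B z0) S c c') {z z' : Pt} (hz : z ∈ Face p B z0)
    (hz' : z' ∈ Face p B z0) (e : code p B z = c.1) (e' : code p B z' = c'.1) :
    Conn (Un p B z0 S) z z' := by
  induction h generalizing z' with
  | refl => exact Conn.single (un_same hB h0 hc hz hz' e e')
  | @tail b d _ h2 ih =>
    obtain ⟨⟨u, hu, u', hu', e1, e2, hl⟩, hb, hd⟩ := h2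
    refine (ih hu e1).trans (Conn.trans (Conn.single ?_)
      (Conn.single (un_same hB h0 hd hu' hz' e2 e')))
    intro q hq
    refine ⟨face_seg hu hl.seg hq, ?_⟩
    rcases hl.mem q hq with k | k
    · exact ⟨b, hb, (code_eq_iff.2 k).symm.trans e1⟩
    · exact ⟨d, hd, (code_eq_iff.2 k).symm.trans e2⟩

lemma nd_conn (hB : Ordered p B) (c c' : Nd p B z0) :
    Relation.ReflTransGen (Adj p B z0) c c' := by
  have step : ∀ z q, z ∈ Face p B z0 → q ∈ Face p B z0 → (Same p B z q ∨ Link p B z q) →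
      ∀ c c' : Nd p B z0, code p B z = c.1 → code p B q = c'.1 →
      Relation.ReflTransGen (Adj p B z0) c c' := by
    intro z q hz hq h c c' e e'
    rcases h with h | h
    · have : c = c' := Subtype.ext (e.symm.trans ((code_eq_iff.2 h).trans e'))
      rw [this]
    · exact Relation.ReflTransGen.single ⟨z, hz, q, hq, e, e', h⟩
  have symm : ∀ c c' : Nd p B z0, Relation.ReflTransGen (Adj p B z0) c c' →
      Relation.ReflTransGen (Adj p B z0) c' c := by
    intro c c' h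
    induction h with
    | refl => exact Relation.ReflTransGen.refl
    | tail _ h2 ih => exact Relation.ReflTransGen.head h2.symm ih
  have key : ∀ z, Relation.ReflTransGen (Sh p B) z0 z → z ∈ Face p B z0 ∧
      ∀ c : Nd p B z0, code p B z = c.1 →
        Relation.ReflTransGen (Adj p B z0) ⟨_, z0, Conn.refl _ _, rfl⟩ c := by
    intro z h
    induction h with
    | refl =>
      refine ⟨Conn.refl _ _, fun c e => ?_⟩
      have : c = ⟨_, z0, Conn.refl _ _, rfl⟩ := Subtype.ext e.symm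
      rw [this]
    | @tail b d _ h2 ih =>
      obtain ⟨hb, ih⟩ := ih
      have hd : d ∈ Face p B z0 := face_seg hb h2.1 (right_mem_segment _ _ _)
      have hm : midpoint ℝ b d ∈ Face p B z0 := face_seg hb h2.1 (midpoint_mem_segment _ _)
      refine ⟨hd, fun c e => ?_⟩
      have k1 := step _ _ hb hm (half hB h2) ⟨_, b, hb, rfl⟩ ⟨_, _, hm, rfl⟩ rfl rfl
      have k2 := half hB h2.symm
      rw [midpoint_comm] at k2
      have k3 := step _ _ hd hm k2 c ⟨_, _, hm, rfl⟩ e rfl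
      exact ((ih ⟨_, b, hb, rfl⟩ rfl).trans k1).trans (symm _ _ k3)
  obtain ⟨c, z, hz, rfl⟩ := c
  obtain ⟨c', z', hz', rfl⟩ := c'
  exact (symm _ _ ((key z (conn_short hz)).2 _ rfl)).trans ((key z' (conn_short hz')).2 _ rfl)

noncomputable def lab (c c' : Nd p B z0) : Bool × Bool :=
  (decide (∃ i, (¬ c.1.1 i ∧ c'.1.1 i) ∨ (c.1.2.1 i ∧ ¬ c'.1.2.1 i)), decide (∃ i, c'.1.2.2.1 i))

lemma link_right (hB : Ordered p B) {z z' : Pt} (h : Link p B z z') :
    (∃ i, (¬ (code p B z).1 i ∧ (code p B z').1 i) ∨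
      ((code p B z).2.1 i ∧ ¬ (code p B z').2.1 i)) ↔ z.1 < z'.1 := by
  simp only [code, not_lt]
  constructor
  · rintro ⟨i, ⟨a, b⟩ | ⟨a, b⟩⟩ <;> linarith
  · intro k
    by_cases hw : ∃ i, z.1 = (p i).1
    · obtain ⟨i, hi⟩ := hw
      exact ⟨i, Or.inl ⟨hi.le, by linarith⟩⟩
    · push Not at hw
      obtain ⟨i, hi⟩ := h.one hB hw
      exact ⟨i, Or.inr ⟨by linarith, hi.ge⟩⟩

lemma lab_inj (hB : Ordered p B) (hx : ∀ i j, (p i).1 = (p j).1 → i = j) (v u u' : Nd p B z0)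
    (h : Adj p B z0 v u) (h' : Adj p B z0 v u') (e : lab v u = lab v u') : u = u' := by
  obtain ⟨z, _, q, _, e1, e2, hl⟩ := h
  obtain ⟨z', _, q', _, e1', e2', hl'⟩ := h'
  simp only [lab, Prod.mk.injEq, decide_eq_decide] at e
  obtain ⟨a, b⟩ := e
  rw [← e2, ← e2'] at a b
  have a1 := link_right hB hl
  have a2 := link_right hB hl'
  rw [e1] at a1
  rw [e1'] at a2
  have := link_det hB hx hl hl' (code_eq_iff.1 (e1.trans e1'.symm)) (a1.symm.trans (a.trans a2)) b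
  exact Subtype.ext (e2.symm.trans ((code_eq_iff.2 this).trans e2'))

variable (p B z0) in
/-- the upward ray from `p i` meets the face -/
def Ns (i : Fin n) : Prop := ∃ z ∈ Face p B z0, z.1 = (p i).1 ∧ (p i).2 < z.2

lemma exists_wall (hB : Ordered p B) (h0 : z0 ∈ Free p B) {i : Fin n} (hi : Ns p B z0 i) :
    ∃ (m : Pt) (c : Nd p B z0), m ∈ Face p B z0 ∧ code p B m = c.1 ∧
      ∀ S : Set (Nd p B z0), c ∈ S → Wall (Face p B z0) (Un p B z0 S) (p i) m := by
  have hrep : ∀ c : Nd p B z0, ∃ z ∈ Face p B z0, code p B z = c.1 := fun c => c.2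
  choose rep hr1 hr2 using hrep
  obtain ⟨z, hz, a1, a2⟩ := hi
  have up : ∀ q (hq : q ∈ Face p B z0), q.1 = (p i).1 → (p i).2 < q.2 →
      (rep ⟨_, q, hq, rfl⟩).1 = (p i).1 ∧ (p i).2 < (rep ⟨_, q, hq, rfl⟩).2 := by
    intro q hq b1 b2
    have hs := (code_eq_iff.1 (hr2 ⟨_, q, hq, rfl⟩)).symm
    exact ⟨(hs.eq i).1 b1, (hs.v i b1).1 b2⟩
  obtain ⟨c, hc, hmin⟩ := exists_min_image
    (univ.filter (fun c : Nd p B z0 => (rep c).1 = (p i).1 ∧ (p i).2 < (rep c).2))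
    (fun c => (rep c).2) ⟨⟨_, z, hz, rfl⟩, mem_filter.2 ⟨mem_univ _, up z hz a1 a2⟩⟩
  simp only [mem_filter, mem_univ, true_and] at hc hmin
  refine ⟨rep c, c, hr1 c, hr2 c, fun S hS => ⟨hc.1, hc.2, ⟨hr1 c, c, hS, hr2 c⟩, ?_⟩⟩
  intro q q1 q2 q3 hq r r1 r2 r3
  have q2' : (p i).2 < q.2 :=
    lt_of_le_of_ne q2 (fun e => (face_free h0 hq).1 i (Prod.ext q1 e.symm))
  have k := up q hq q1 q2'
  have k2 := hmin _ k
  have hs := (code_eq_iff.1 (hr2 ⟨_, q, hq, rfl⟩)).symm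
  have k3 := (conv hB (face_free h0 hq) (face_free h0 (hr1 _)) hs
    (vert_mem' (q1.trans k.1.symm) (hc.1.trans q1.symm) q3 k2)).2
  exact un_same hB h0 hS hq (hr1 c) ((code_eq_iff.2 k3).trans (hr2 c)) (hr2 c)
    (vert_mem' (q1.trans hc.1.symm) (r1.trans q1.symm) r2 r3)

variable (p B z0) in
/-- edges touched from above by the face -/
def Top : Set (Fin n × Fin n) := {e | e ∈ B ∧ ∃ w y : Pt, (p e.1).1 < w.1 ∧ w.1 < (p e.2).1 ∧
  ori (p e.1) (p e.2) w = 0 ∧ (∀ i, w.1 ≠ (p i).1) ∧ y.1 = w.1 ∧ w.2 < y.2 ∧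
  (∀ q : Pt, q.1 = w.1 → w.2 < q.2 → q.2 ≤ y.2 → q ∈ Free p B) ∧ y ∈ Face p B z0}

lemma exists_occ (hB : Ordered p B) (h0 : z0 ∈ Free p B) {e : Fin n × Fin n}
    (he : e ∈ Top p B z0) :
    ∃ (w y : Pt) (c : Nd p B z0), y ∈ Face p B z0 ∧ code p B y = c.1 ∧ (∀ i, w.1 ≠ (p i).1) ∧
      ∀ S : Set (Nd p B z0), c ∈ S → Occ (Face p B z0) (Un p B z0 S) (p e.1) (p e.2) w y := by
  obtain ⟨heB, w, y, h1, h2, h3, h4, h5, h6, h7, h8⟩ := he
  refine ⟨w, y, ⟨_, y, h8, rfl⟩, h8, rfl, h4, fun S hS => ⟨h1, h2, h3, h5, h6, ?_, ?_⟩⟩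
  · intro q q1 q2 q3
    have hs : segment ℝ y q ⊆ Free p B := by
      intro r hr
      rw [segment_symm] at hr
      obtain ⟨r1, r2, r3⟩ := vert_mem (q1.trans h5.symm) q3 hr
      exact h7 r (r1.trans q1) (by linarith) r3
    refine ⟨face_seg h8 hs (right_mem_segment _ _ _), _, hS, ?_⟩
    exact (code_eq_iff.2 (same_of_seg hB hs (fun i => by rw [h5, q1])
      (fun i => by rw [h5, q1]))).symm
  · rw [Set.disjoint_left]
    intro z hz
    exact (face_free h0 hz).2 e heB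

/-- proper crossing -/
def Crs (p : Fin n → Pt) (e e' : Fin n × Fin n) : Prop :=
  ori (p e.1) (p e.2) (p e'.1) * ori (p e.1) (p e.2) (p e'.2) < 0 ∧
  ori (p e'.1) (p e'.2) (p e.1) * ori (p e'.1) (p e'.2) (p e.2) < 0

lemma opp_of_meet {a b a' b' q : Pt} (h : q ∈ segment ℝ a b) (h' : q ∈ segment ℝ a' b')
    (n1 : ori a b a' ≠ 0) (n2 : ori a b b' ≠ 0) : ori a b a' * ori a b b' < 0 := by
  obtain ⟨t, h0, h1, e1, e2⟩ := mem_seg_iff.1 h'
  have k := ori_of_mem h
  rw [ori_affine e1 e2] at k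
  rcases lt_or_gt_of_ne n1 with c | c <;> rcases lt_or_gt_of_ne n2 with d | d
  · linarith [cc_gt h0 h1 c d]
  · exact mul_neg_of_neg_of_pos c d
  · exact mul_neg_of_pos_of_neg c d
  · linarith [cc_lt h0 h1 c d]

/-- a system of segments, pairwise crossing inside each class of `π` -/
def CrossSys (p : Fin n → Pt) (π : Fin n → Fin n) (M : Set (Fin n × Fin n)) : Prop :=
  ∀ e ∈ M, (p e.1).1 < (p e.2).1 ∧ π e.1 = π e.2 ∧
    ∀ e' ∈ M, e ≠ e' → π e.1 = π e'.1 → Crs p e e'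

structure Gen (p : Fin n → Pt) : Prop where
  x : ∀ i j, (p i).1 = (p j).1 → i = j
  col : ∀ i j k, i ≠ j → i ≠ k → j ≠ k → ori (p i) (p j) (p k) ≠ 0

lemma sky_lemma (hB : Ordered p B) (h0 : z0 ∈ Free p B) (hg : Gen p) {e e' : Fin n × Fin n}
    (he : e ∈ Top p B z0) (he' : e' ∈ Top p B z0) :
    (e.1 = e'.1 → ¬ Ns p B z0 e.2 → ¬ Ns p B z0 e'.2 → e = e') ∧
    (e.2 = e'.2 → ¬ Ns p B z0 e.1 → ¬ Ns p B z0 e'.1 → e = e') := by
  obtain ⟨H, hH⟩ : ∃ H : ℝ, ∀ i, (p i).2 ≤ H := by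
    obtain ⟨H, hH⟩ := (Set.finite_range (fun i => (p i).2)).bddAbove
    exact ⟨H, fun i => hH ⟨i, rfl⟩⟩
  set Sky : Set Pt := {z | H < z.2} with hSky
  have hseg : ∀ i j, Disjoint Sky (segment ℝ (p i) (p j)) := by
    intro i j
    rw [Set.disjoint_left]
    intro z hz hm
    obtain ⟨t, h0, h1, _, e2⟩ := mem_seg_iff.1 hm
    have a := hH i; have b := hH j
    have : H < z.2 := hz
    nlinarith [mul_nonneg h0 (sub_nonneg.2 b), mul_nonneg (sub_nonneg.2 h1) (sub_nonneg.2 a)]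
  have hconv : ∀ z ∈ Sky, ∀ z' ∈ Sky, segment ℝ z z' ⊆ Sky := by
    intro z hz z' hz' q hq
    obtain ⟨t, h0, h1, _, e2⟩ := mem_seg_iff.1 hq
    change H < q.2
    rw [e2]; exact cc_lt h0 h1 hz hz'
  have hfree : Sky ⊆ Free p B := by
    intro z hz
    refine ⟨fun i hi => ?_, fun e _ => Set.disjoint_left.1 (hseg _ _) hz⟩
    have : H < z.2 := hz
    rw [hi] at this
    linarith [hH i]
  have hdis : ∀ i, ¬ Ns p B z0 i → Disjoint (Face p B z0) Sky := by
    intro i hi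
    rw [Set.disjoint_left]
    intro z hz hz'
    have hm : ((p i).1, H + 1) ∈ Sky := by simp [hSky]
    exact hi ⟨((p i).1, H + 1), face_seg hz ((hconv _ hz' _ hm).trans hfree)
      (right_mem_segment _ _ _), rfl, by linarith [hH i]⟩
  have hwall : ∀ i, ¬ Ns p B z0 i → Wall (Face p B z0 ∪ Sky) Sky (p i) ((p i).1, H + 1) := by
    intro i hi
    refine ⟨rfl, by linarith [hH i], by simp [hSky], ?_⟩
    intro q q1 q2 _ hq r _ r2 _
    rcases hq with hq | hq
    · exact absurd ⟨q, hq, q1, lt_of_le_of_ne q2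
        (fun e => (face_free h0 hq).1 i (Prod.ext q1 e.symm))⟩ hi
    · exact lt_of_lt_of_le (show H < q.2 from hq) r2
  obtain ⟨w, y, c, hy, ec, hw, ho⟩ := exists_occ hB h0 he
  obtain ⟨w', y', c', hy', ec', hw', ho'⟩ := exists_occ hB h0 he'
  have lift : ∀ {a b w y}, Occ (Face p B z0) (Un p B z0 Set.univ) (p a) (p b) w y →
      Occ (Face p B z0 ∪ Sky) (Un p B z0 Set.univ) (p a) (p b) w y := by
    intro a b w y o
    exact ⟨o.l, o.r, o.on, o.vx, o.vy, o.att, Set.disjoint_union_left.2 ⟨o.edge, hseg _ _⟩⟩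
  have o := lift (ho Set.univ trivial)
  have o' := lift (ho' Set.univ trivial)
  have cX : Conn (Un p B z0 Set.univ) y y' := by
    refine un_conn hB h0 (c := c) (c' := c') (Set.mem_univ _) ?_ hy hy' ec ec'
    exact Relation.ReflTransGen.mono (fun a b h => ⟨h, trivial, trivial⟩) _ _ (nd_conn hB c c')
  have hX : Un p B z0 Set.univ ⊆ Face p B z0 ∪ Sky := (un_sub _).trans Set.subset_union_left
  have cS : ∀ i j : Fin n, Conn Sky ((p i).1, H + 1) ((p j).1, H + 1) := fun i j =>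
    Conn.single (hconv _ (by simp [hSky]) _ (by simp [hSky]))
  have ne1 : e.1 ≠ e.2 := fun k => by have := o.ab; rw [k] at this; exact lt_irrefl _ this
  have ne2 : e'.1 ≠ e'.2 := fun k => by have := o'.ab; rw [k] at this; exact lt_irrefl _ this
  constructor
  · intro h1 s1 s2
    by_contra hne
    have h2 : e.2 ≠ e'.2 := fun k => hne (Prod.ext h1 k)
    have hd := Set.disjoint_of_subset_left (un_sub Set.univ) (hdis _ s1)
    rw [← h1] at o' ne2
    rcases lt_or_gt_of_ne (hg.col _ _ _ ne1 ne2 h2) with k | k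
    · exact same_tail o o' (hwall _ s1) (hwall _ s2) hX Set.subset_union_right hd cX (cS _ _) k
        (hw _)
    · exact same_tail o' o (hwall _ s2) (hwall _ s1) hX Set.subset_union_right hd cX.symm
        (cS _ _) (by unfold ori at *; linarith) (hw' _)
  · intro h1 s1 s2
    by_contra hne
    have h2 : e.1 ≠ e'.1 := fun k => hne (Prod.ext k h1)
    have hd := Set.disjoint_of_subset_left (un_sub Set.univ) (hdis _ s1)
    rw [← h1] at o' ne2
    rcases lt_or_gt_of_ne (hg.col _ _ _ ne1 h2 ne2.symm) with k | k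
    · exact same_head o o' (hwall _ s1) (hwall _ s2) hX Set.subset_union_right hd cX (cS _ _) k
        (hw _)
    · exact same_head o' o (hwall _ s2) (hwall _ s1) hX Set.subset_union_right hd cX.symm
        (cS _ _) (by unfold ori at *; linarith) (hw' _)

end Pool.Agent.Lib.MP_5bf547_co
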