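import Mathlib
import Pool.Agent.Lib.MP_5bf547_co.Face

namespace Pool.Agent.Lib.MP_5bf547_co

open Classical Finset

variable {n : ℕ} {p : Fin n → Pt} {B : Set (Fin n × Fin n)} {z0 : Pt}

lemma isCompact_seg (a b : Pt) : IsCompact (segment ℝ a b) := by
  rw [segment_eq_image']
  exact isCompact_Icc.image (by fun_prop)

lemma isOpen_free (p : Fin n → Pt) (B : Set (Fin n × Fin n)) : IsOpen (Free p B) := by
  have : Free p B = (⋂ i, {p i}ᶜ) ∩ ⋂ e ∈ B, (segment ℝ (p e.1) (p e.2))ᶜ := by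
    ext z; simp [Free]
  rw [this]
  exact (isOpen_iInter_of_finite (fun i => isOpen_compl_singleton)).inter
    ((Set.toFinite B).isOpen_biInter (fun e _ => (isCompact_seg _ _).isClosed.isOpen_compl))

lemma isOpen_face (h0 : z0 ∈ Free p B) : IsOpen (Face p B z0) := by
  rw [Metric.isOpen_iff]
  intro z hz
  obtain ⟨r, hr, hb⟩ := Metric.isOpen_iff.1 (isOpen_free p B) z (face_free h0 hz)
  refine ⟨r, hr, fun q hq => face_seg hz ?_ (right_mem_segment _ _ _)⟩
  exact ((convex_ball z r).segment_subset (Metric.mem_ball_self hr) hq).trans hb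

lemma touch (hB : Ordered p B) (h0 : z0 ∈ Free p B) {z v : Pt} (hz : z ∈ Face p B z0)
    (hx : ∀ i, z.1 ≠ (p i).1) (h1 : v.1 = z.1) (h2 : v.2 ≤ z.2) (hv : v ∉ Free p B) :
    ∃ e ∈ Top p B z0, ∃ w ∈ segment ℝ v z, w ∈ segment ℝ (p e.1) (p e.2) := by
  set T : Set ℝ := Set.Icc v.2 z.2 ∩ (fun t => ((z.1, t) : Pt)) ⁻¹' (Free p B)ᶜ with hT
  have hc : IsCompact T := isCompact_Icc.inter_right
    ((isOpen_free p B).isClosed_compl.preimage (by fun_prop))
  have hne : T.Nonempty := ⟨v.2, ⟨le_rfl, h2⟩, by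
    simp only [Set.mem_preimage, ← h1]; exact hv⟩
  obtain ⟨t, ⟨⟨t1, t2⟩, t3⟩, hmax⟩ := hc.exists_isGreatest hne
  simp only [Set.mem_preimage, Set.mem_compl_iff] at t3
  have hlt : t < z.2 := lt_of_le_of_ne t2 (fun e => t3 (by rw [e]; exact face_free h0 hz))
  have : ∃ e ∈ B, ((z.1, t) : Pt) ∈ segment ℝ (p e.1) (p e.2) := by
    by_contra hc
    push Not at hc
    exact t3 ⟨fun i hi => hx i (by rw [← hi]), hc⟩
  obtain ⟨e, he, hm⟩ := this
  obtain ⟨k1, k2⟩ := x_of_mem (hB e he).le hm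
  refine ⟨e, ⟨he, (z.1, t), z, lt_of_le_of_ne k1 (hx _).symm, lt_of_le_of_ne k2 (hx _),
    ori_of_mem hm, hx, rfl, hlt, fun q q1 q2 q3 => ?_, hz⟩, (z.1, t),
    vert_mem' h1 h1.symm t1 t2, hm⟩
  by_contra hq
  have : q.2 ∈ T := ⟨⟨by linarith, q3⟩, by
    have e : ((z.1, q.2) : Pt) = q := Prod.ext q1.symm rfl
    simp only [Set.mem_preimage, e]; exact hq⟩
  linarith [hmax this]

/-- reflection in the horizontal axis -/
def rf (z : Pt) : Pt := (z.1, -z.2)

lemma rf_rf (z : Pt) : rf (rf z) = z := by simp [rf]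

lemma rf_seg {a b z : Pt} (h : z ∈ segment ℝ a b) : rf z ∈ segment ℝ (rf a) (rf b) := by
  obtain ⟨t, h0, h1, e1, e2⟩ := mem_seg_iff.1 h
  exact mem_seg_iff.2 ⟨t, h0, h1, e1, by simp only [rf, e2]; ring⟩

lemma rf_free {z : Pt} (h : z ∈ Free p B) : rf z ∈ Free (fun i => rf (p i)) B := by
  refine ⟨fun i e => h.1 i (by rw [← rf_rf z, e, rf_rf]), fun e he k => h.2 e he ?_⟩
  simpa only [rf_rf] using rf_seg k

lemma rf_face {z : Pt} (h : z ∈ Face p B z0) : rf z ∈ Face (fun i => rf (p i)) B (rf z0) := by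
  induction h with
  | refl => exact Conn.refl _ _
  | @tail b c _ h2 ih =>
    refine Conn.trans ih (Conn.single (fun q hq => ?_))
    have := rf_seg hq
    rw [rf_rf, rf_rf] at this
    simpa only [rf_rf] using rf_free (h2 this)

variable (p B z0) in
/-- edges bounding the face -/
def Bd : Set (Fin n × Fin n) := Top p B z0 ∪ Top (fun i => rf (p i)) B (rf z0)

lemma bd_sub : Bd p B z0 ⊆ B := by
  rintro e (h | h) <;> exact h.1

lemma free_mono {B' : Set (Fin n × Fin n)} (h : B' ⊆ B) : Free p B ⊆ Free p B' :=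
  fun _ hz => ⟨hz.1, fun e he => hz.2 e (h he)⟩

lemma closure_face (hB : Ordered p B) (h0 : z0 ∈ Free p B) {q : Pt}
    (hq : q ∈ closure (Face p B z0)) (hq' : q ∈ Free p (Bd p B z0)) : q ∈ Face p B z0 := by
  by_cases hf : q ∈ Free p B
  · obtain ⟨r, hr, hb⟩ := Metric.isOpen_iff.1 (isOpen_free p B) q hf
    obtain ⟨z, hz, hd⟩ := Metric.mem_closure_iff.1 hq r hr
    refine face_seg hz ?_ (right_mem_segment _ _ _)
    exact ((convex_ball q r).segment_subset (by rwa [Metric.mem_ball, dist_comm])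
      (Metric.mem_ball_self hr)).trans hb
  exfalso
  have : ∃ e ∈ B, q ∈ segment ℝ (p e.1) (p e.2) := by
    by_contra hc
    push Not at hc
    exact hf ⟨hq'.1, hc⟩
  obtain ⟨e, he, hm⟩ := this
  have hab := hB e he
  set a := p e.1 with ha
  set b := p e.2 with hb
  obtain ⟨k1, k2⟩ := x_of_mem hab.le hm
  have hon := ori_of_mem hm
  have k1' : a.1 < q.1 := lt_of_le_of_ne k1 (fun k => hq'.1 e.1 (Prod.ext k.symm (by
    have : ori a b q = (b.1 - a.1) * (q.2 - a.2) := by simp only [ori, ← k]; ring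
    rw [this] at hon
    rcases mul_eq_zero.1 hon with c | c <;> linarith)))
  have k2' : q.1 < b.1 := lt_of_le_of_ne k2 (fun k => hq'.1 e.2 (Prod.ext k (by
    have : ori a b q = (b.1 - a.1) * (q.2 - b.2) := by simp only [ori, k]; ring
    rw [this] at hon
    rcases mul_eq_zero.1 hon with c | c <;> linarith)))
  obtain ⟨R, hR, hball⟩ := Metric.isOpen_iff.1 (isOpen_free p (Bd p B z0)) q hq'
  -- the foot map is continuous and fixes `q`
  have hfq : foot a b q = q := by
    refine Prod.ext rfl ?_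
    have := ori_eq_foot hab q q rfl
    rw [hon] at this
    rcases mul_eq_zero.1 this.symm with c | c <;> linarith
  have hcont : Continuous (foot a b) := by unfold foot; fun_prop
  set O : Set Pt := Metric.ball q R ∩ foot a b ⁻¹' Metric.ball q R ∩ {z | a.1 < z.1} ∩
    {z | z.1 < b.1} with hO
  have hOo : IsOpen O := ((Metric.isOpen_ball.inter (Metric.isOpen_ball.preimage hcont)).inter
    (isOpen_lt continuous_const continuous_fst)).inter (isOpen_lt continuous_fst continuous_const)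
  have hqO : q ∈ O := ⟨⟨⟨Metric.mem_ball_self hR, by
    rw [Set.mem_preimage, hfq]; exact Metric.mem_ball_self hR⟩, k1'⟩, k2'⟩
  obtain ⟨z1, hz1⟩ := mem_closure_iff.1 hq O hOo hqO
  obtain ⟨ε, hε, hb2⟩ := Metric.isOpen_iff.1 (hOo.inter (isOpen_face h0)) z1 hz1
  obtain ⟨x, hx1, hx2⟩ := (Set.Ioo_infinite (show z1.1 < z1.1 + ε by linarith)).exists_notMem_finite
    (Set.finite_range (fun i => (p i).1))
  have hz : ((x, z1.2) : Pt) ∈ O ∩ Face p B z0 := by
    apply hb2
    rw [Metric.mem_ball, Prod.dist_eq, dist_self, Real.dist_eq]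
    exact max_lt (abs_lt.2 ⟨by linarith [hx1.1], by linarith [hx1.2]⟩) hε
  set z : Pt := (x, z1.2) with hzd
  obtain ⟨⟨⟨⟨o1, o2⟩, o3⟩, o4⟩, hzF⟩ := hz
  have hgen : ∀ i, z.1 ≠ (p i).1 := fun i k => hx2 ⟨i, k.symm⟩
  have hv : foot a b z ∈ segment ℝ a b := mem_seg_of_on hab (le_of_lt o3) (le_of_lt o4)
    (ori_foot hab z)
  have hseg : segment ℝ (foot a b z) z ⊆ Free p (Bd p B z0) :=
    ((convex_ball q R).segment_subset o2 o1).trans hball
  rcases le_total (foot a b z).2 z.2 with c | c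
  · obtain ⟨e', he', w, w1, w2⟩ := touch (v := foot a b z) hB h0 hzF hgen rfl c (fun k => k.2 e he hv)
    exact (hseg w1).2 e' (Or.inl he') w2
  · obtain ⟨e', he', w, w1, w2⟩ := touch (p := fun i => rf (p i)) (v := rf (foot a b z)) hB
      (rf_free h0) (rf_face hzF) hgen rfl (by simp only [rf]; linarith)
      (fun k => k.2 e he (rf_seg hv))
    have w3 := rf_seg w1
    have w4 := rf_seg w2
    simp only [rf_rf] at w3 w4
    exact (hseg w3).2 e' (Or.inr he') w4

theorem face_bd (hB : Ordered p B) (h0 : z0 ∈ Free p B) :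
    Face p (Bd p B z0) z0 = Face p B z0 := by
  apply Set.Subset.antisymm
  · intro z hz
    induction hz with
    | refl => exact Conn.refl _ _
    | @tail b c _ h2 ih =>
      refine (convex_segment b c).isPreconnected.subset_of_closure_inter_subset (isOpen_face h0)
        ⟨b, left_mem_segment _ _ _, ih⟩ ?_ (right_mem_segment _ _ _)
      intro q hq
      exact closure_face hB h0 hq.1 (h2 hq.2)
  · intro z hz
    exact Conn.mono (free_mono bd_sub) hz

end Pool.Agent.Lib.MP_5bf547_co
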