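import Mathlib
import Pool.Agent.Lib.MP_5bf547_co.Face

namespace Pool.Agent.Lib.MP_5bf547_co

open Classical Finset

variable {n : ℕ} {p : Fin n → Pt} {B : Set (Fin n × Fin n)} {z0 : Pt}

/-- the family of edge sets that can bound a face from below -/
def Fam (p : Fin n → Pt) (J D : ℕ) : Set (Set (Fin n × Fin n)) :=
  {E | ∃ (B0 : Finset (Fin n × Fin n)) (π : Fin J → Fin n → Fin n)
    (M : Fin J → Fin D × Fin D × Fin D → Set (Fin n × Fin n)),
    B0.card ≤ 2 * n + J * (15 * n) ∧ (∀ j τ, CrossSys p (π j) (M j τ)) ∧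
    E = (B0 : Set _) ∪ ⋃ j, ⋃ τ, M j τ}

lemma exists_level {P : ℕ → Prop} {J : ℕ} (h0 : ¬ P 0) (hJ : P J) :
    ∃ j < J, ¬ P j ∧ P (j + 1) := by
  induction J with
  | zero => exact absurd hJ h0
  | succ k ih =>
    by_cases h : P k
    · obtain ⟨j, h1, h2⟩ := ih h
      exact ⟨j, by omega, h2⟩
    · exact ⟨k, by omega, h, hJ⟩

theorem top_mem_fam (hB : Ordered p B) (h0 : z0 ∈ Free p B) (hg : Gen p) (K J : ℕ) (hK : 0 < K)
    (hJ : n < K ^ J) : Top p B z0 ∈ Fam p J (1 + 5 * (K * K + K)) := by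
  have hocc : ∀ e : Fin n × Fin n, ∃ (w y : Pt) (c : Nd p B z0), e ∈ Top p B z0 →
      y ∈ Face p B z0 ∧ code p B y = c.1 ∧ (∀ i, w.1 ≠ (p i).1) ∧
      ∀ S : Set (Nd p B z0), c ∈ S → Occ (Face p B z0) (Un p B z0 S) (p e.1) (p e.2) w y := by
    intro e
    by_cases he : e ∈ Top p B z0
    · obtain ⟨w, y, c, h⟩ := exists_occ hB h0 he
      exact ⟨w, y, c, fun _ => h⟩
    · exact ⟨z0, z0, Classical.arbitrary _, fun h => absurd h he⟩
  choose w y ν hocc using hocc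
  have hwall : ∀ i : Fin n, ∃ (m : Pt) (c : Nd p B z0), Ns p B z0 i →
      m ∈ Face p B z0 ∧ code p B m = c.1 ∧
      ∀ S : Set (Nd p B z0), c ∈ S → Wall (Face p B z0) (Un p B z0 S) (p i) m := by
    intro i
    by_cases hi : Ns p B z0 i
    · obtain ⟨m, c, h⟩ := exists_wall hB h0 hi
      exact ⟨m, c, fun _ => h⟩
    · exact ⟨z0, Classical.arbitrary _, fun h => absurd h hi⟩
  choose m μ hwall using hwall
  have hμ : Function.Injective (fun i : {i // Ns p B z0 i} => μ i.1) := by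
    intro i j e
    simp only at e
    have a := hwall i.1 i.2
    have b := hwall j.1 j.2
    have hs : Same p B (m i.1) (m j.1) := code_eq_iff.1 (a.2.1.trans (e ▸ b.2.1.symm))
    have a1 := (a.2.2 Set.univ trivial).vx
    have b1 := (b.2.2 Set.univ trivial).vx
    exact Subtype.ext (hg.x _ _ (((hs.eq i.1).1 a1).symm.trans b1))
  obtain ⟨cls, idx, side, P1, P2, P3, P3', P4⟩ := hierarchy (Adj p B z0) (fun _ _ h => h.symm)
    (nd_conn hB) lab (lab_inj hB hg.x) _ hμ K J hK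
    (lt_of_le_of_lt (by simpa using Fintype.card_subtype_le (Ns p B z0)) hJ)
  have ne12 : ∀ e ∈ Top p B z0, e.1 ≠ e.2 := by
    intro e he k
    have := hB e he.1
    rw [k] at this
    exact lt_irrefl _ this
  -- the three geometric facts
  have T1 : ∀ e ∈ Top p B z0, ∀ e' ∈ Top p B z0, ∀ S₁ S₂ : Set (Nd p B z0), Disjoint S₁ S₂ →
      e.1 = e'.1 → Ns p B z0 e.2 → Ns p B z0 e'.2 → ν e ∈ S₁ → ν e' ∈ S₁ → μ e.2 ∈ S₂ →
      μ e'.2 ∈ S₂ → RIn (Adj p B z0) S₁ (ν e) (ν e') → RIn (Adj p B z0) S₂ (μ e.2) (μ e'.2) →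
      e = e' := by
    intro e he e' he' S₁ S₂ hd h1 s1 s2 a1 a2 b1 b2 r1 r2
    obtain ⟨hy, ec, hw, ho⟩ := hocc e he
    obtain ⟨hy', ec', hw', ho'⟩ := hocc e' he'
    obtain ⟨hm, em, hW⟩ := hwall _ s1
    obtain ⟨hm', em', hW'⟩ := hwall _ s2
    have cX := un_conn hB h0 a1 r1 hy hy' ec ec'
    have cB := un_conn hB h0 b1 r2 hm hm' em em'
    have o := ho _ a1
    have o' := ho' _ a2
    by_contra hne
    have h2 : e.2 ≠ e'.2 := fun k => hne (Prod.ext h1 k)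
    have ne2 := ne12 e' he'
    rw [← h1] at o' ne2
    rcases lt_or_gt_of_ne (hg.col _ _ _ (ne12 e he) ne2 h2) with k | k
    · exact same_tail o o' (hW _ b1) (hW' _ b2) (un_sub _) (un_sub _) (un_disj hd) cX cB k (hw _)
    · exact same_tail o' o (hW' _ b2) (hW _ b1) (un_sub _) (un_sub _) (un_disj hd) cX.symm
        cB.symm (by unfold ori at *; linarith) (hw' _)
  have H1 : ∀ e ∈ Top p B z0, ∀ e' ∈ Top p B z0, ∀ S₁ S₂ : Set (Nd p B z0), Disjoint S₁ S₂ →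
      e.2 = e'.2 → Ns p B z0 e.1 → Ns p B z0 e'.1 → ν e ∈ S₁ → ν e' ∈ S₁ → μ e.1 ∈ S₂ →
      μ e'.1 ∈ S₂ → RIn (Adj p B z0) S₁ (ν e) (ν e') → RIn (Adj p B z0) S₂ (μ e.1) (μ e'.1) →
      e = e' := by
    intro e he e' he' S₁ S₂ hd h1 s1 s2 a1 a2 b1 b2 r1 r2
    obtain ⟨hy, ec, hw, ho⟩ := hocc e he
    obtain ⟨hy', ec', hw', ho'⟩ := hocc e' he'
    obtain ⟨hm, em, hW⟩ := hwall _ s1
    obtain ⟨hm', em', hW'⟩ := hwall _ s2
    have cX := un_conn hB h0 a1 r1 hy hy' ec ec'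
    have cB := un_conn hB h0 b1 r2 hm hm' em em'
    have o := ho _ a1
    have o' := ho' _ a2
    by_contra hne
    have h2 : e.1 ≠ e'.1 := fun k => hne (Prod.ext k h1)
    have ne2 := ne12 e' he'
    rw [← h1] at o' ne2
    rcases lt_or_gt_of_ne (hg.col _ _ _ (ne12 e he) h2 ne2.symm) with k | k
    · exact same_head o o' (hW _ b1) (hW' _ b2) (un_sub _) (un_sub _) (un_disj hd) cX cB k (hw _)
    · exact same_head o' o (hW' _ b2) (hW _ b1) (un_sub _) (un_sub _) (un_disj hd) cX.symm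
        cB.symm (by unfold ori at *; linarith) (hw' _)
  have C1 : ∀ e ∈ Top p B z0, ∀ e' ∈ Top p B z0, ∀ S₁ S₂ S₃ : Set (Nd p B z0), Disjoint S₁ S₂ →
      Disjoint S₁ S₃ → Disjoint S₂ S₃ → e ≠ e' → Ns p B z0 e.1 → Ns p B z0 e'.1 →
      Ns p B z0 e.2 → Ns p B z0 e'.2 → ν e ∈ S₁ → ν e' ∈ S₁ → μ e.1 ∈ S₂ →
      μ e'.1 ∈ S₂ → μ e.2 ∈ S₃ → μ e'.2 ∈ S₃ → RIn (Adj p B z0) S₁ (ν e) (ν e') →
      RIn (Adj p B z0) S₂ (μ e.1) (μ e'.1) → RIn (Adj p B z0) S₃ (μ e.2) (μ e'.2) →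
      Crs p e e' := by
    intro e he e' he' S₁ S₂ S₃ d12 d13 d23 hne s1 s2 s3 s4 a1 a2 b1 b2 c1 c2 r1 r2 r3
    have n1 : e.1 ≠ e'.1 := fun k =>
      hne (T1 e he e' he' S₁ S₃ d13 k s3 s4 a1 a2 c1 c2 r1 r3)
    have n2 : e.2 ≠ e'.2 := fun k =>
      hne (H1 e he e' he' S₁ S₂ d12 k s1 s2 a1 a2 b1 b2 r1 r2)
    have n3 : e.2 ≠ e'.1 := fun k => Set.disjoint_left.1 d23 b2 (k ▸ c1)
    have n4 : e'.2 ≠ e.1 := fun k => Set.disjoint_left.1 d23 b1 (k ▸ c2)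
    obtain ⟨hy, ec, hw, ho⟩ := hocc e he
    obtain ⟨hy', ec', hw', ho'⟩ := hocc e' he'
    obtain ⟨hm1, em1, hW1⟩ := hwall _ s1
    obtain ⟨hm2, em2, hW2⟩ := hwall _ s2
    obtain ⟨hm3, em3, hW3⟩ := hwall _ s3
    obtain ⟨hm4, em4, hW4⟩ := hwall _ s4
    have k := cross_main (ho _ a1) (ho' _ a2) (hW1 _ b1) (hW2 _ b2) (hW3 _ c1) (hW4 _ c2)
      (un_sub _) (un_sub _) (un_sub _) (un_disj d12) (un_disj d13) (un_disj d23)
      (un_conn hB h0 a1 r1 hy hy' ec ec') (un_conn hB h0 b1 r2 hm1 hm2 em1 em2)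
      (un_conn hB h0 c1 r3 hm3 hm4 em3 em4) (fun k => n1 (hg.x _ _ k)) (hw _) (hw _) (hw' _)
      (hw' _) (fun k => n3 (hg.x _ _ k)) (fun k => n4 (hg.x _ _ k))
    obtain ⟨q, q1, q2⟩ := Set.not_disjoint_iff.1 k
    exact ⟨opp_of_meet q1 q2 (hg.col _ _ _ (ne12 e he) n1 n3)
        (hg.col _ _ _ (ne12 e he) n4.symm n2),
      opp_of_meet q2 q1 (hg.col _ _ _ (ne12 e' he') n1.symm n4)
        (hg.col _ _ _ (ne12 e' he') n3.symm n2.symm)⟩
  -- the pieces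
  let G : Finset (Fin n × Fin n) :=
    univ.filter (fun e => e ∈ Top p B z0 ∧ Ns p B z0 e.1 ∧ Ns p B z0 e.2)
  let S1 : Finset (Fin n × Fin n) := univ.filter (fun e => e ∈ Top p B z0 ∧ ¬ Ns p B z0 e.2)
  let S2 : Finset (Fin n × Fin n) := univ.filter (fun e => e ∈ Top p B z0 ∧ ¬ Ns p B z0 e.1)
  let S3 : ℕ → Finset (Fin n × Fin n) := fun j =>
    G.filter (fun e => cls j (ν e) = cls j (μ e.1) ∧ cls j (μ e.2) ≠ cls j (μ e.1))
  let S4 : ℕ → Finset (Fin n × Fin n) := fun j =>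
    G.filter (fun e => cls j (ν e) = cls j (μ e.2) ∧ cls j (μ e.1) ≠ cls j (μ e.2))
  let S5 : ℕ → Finset (Fin n × Fin n) := fun j =>
    G.filter (fun e => cls j (μ e.2) = cls j (μ e.1) ∧ cls j (ν e) ≠ cls j (μ e.1))
  have hG : ∀ e ∈ G, e ∈ Top p B z0 ∧ Ns p B z0 e.1 ∧ Ns p B z0 e.2 := by
    intro e he; simpa [G] using he
  have c1 : S1.card ≤ n := by
    refine (card_le_card_of_injOn (t := univ) Prod.fst (fun _ _ => by simp) ?_).trans (by simp)
    intro e he e' he' k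
    simp only [S1, coe_filter, mem_univ, true_and, Set.mem_ofPred_eq] at he he'
    exact (sky_lemma hB h0 hg he.1 he'.1).1 k he.2 he'.2
  have c2 : S2.card ≤ n := by
    refine (card_le_card_of_injOn (t := univ) Prod.snd (fun _ _ => by simp) ?_).trans (by simp)
    intro e he e' he' k
    simp only [S2, coe_filter, mem_univ, true_and, Set.mem_ofPred_eq] at he he'
    exact (sky_lemma hB h0 hg he.1 he'.1).2 k he.2 he'.2
  have dis : ∀ j t, Disjoint {v | cls j v = t} {v | cls j v ≠ t} := fun j t =>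
    Set.disjoint_left.2 (fun _ a b => b a)
  have hcard : Fintype.card (Fin n × Option (Bool × Bool)) = 5 * n := by
    simp [mul_comm]
  have c3 : ∀ j, (S3 j).card ≤ 5 * n := by
    intro j
    refine (card_le_card_of_injOn (t := univ)
      (fun e => (e.1, side j (cls j (μ e.1)) (μ e.2))) (fun _ _ => by simp) ?_).trans
      (by rw [card_univ, hcard])
    intro e he e' he' k
    simp only [S3, coe_filter, Set.mem_ofPred_eq] at he he'
    simp only [Prod.mk.injEq] at k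
    obtain ⟨k1, k2⟩ := k
    obtain ⟨a1, a2, a3⟩ := hG e he.1
    obtain ⟨b1, b2, b3⟩ := hG e' he'.1
    rw [← k1] at k2 he'
    refine T1 e a1 e' b1 _ _ (dis j (cls j (μ e.1))) k1 a3 b3 he.2.1 he'.2.1 he.2.2 he'.2.2 ?_
      (P4 j _ _ _ he.2.2 he'.2.2 k2)
    rw [← he.2.1]
    exact P1 j _ _ (he.2.1.trans he'.2.1.symm)
  have c4 : ∀ j, (S4 j).card ≤ 5 * n := by
    intro j
    refine (card_le_card_of_injOn (t := univ)
      (fun e => (e.2, side j (cls j (μ e.2)) (μ e.1))) (fun _ _ => by simp) ?_).trans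
      (by rw [card_univ, hcard])
    intro e he e' he' k
    simp only [S4, coe_filter, Set.mem_ofPred_eq] at he he'
    simp only [Prod.mk.injEq] at k
    obtain ⟨k1, k2⟩ := k
    obtain ⟨a1, a2, a3⟩ := hG e he.1
    obtain ⟨b1, b2, b3⟩ := hG e' he'.1
    rw [← k1] at k2 he'
    refine H1 e a1 e' b1 _ _ (dis j (cls j (μ e.2))) k1 a2 b2 he.2.1 he'.2.1 he.2.2 he'.2.2 ?_
      (P4 j _ _ _ he.2.2 he'.2.2 k2)
    rw [← he.2.1]
    exact P1 j _ _ (he.2.1.trans he'.2.1.symm)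
  have c5 : ∀ j, (S5 j).card ≤ 5 * n := by
    intro j
    refine (card_le_card_of_injOn (t := univ)
      (fun e => (e.1, side j (cls j (μ e.1)) (ν e))) (fun _ _ => by simp) ?_).trans
      (by rw [card_univ, hcard])
    intro e he e' he' k
    simp only [S5, coe_filter, Set.mem_ofPred_eq] at he he'
    simp only [Prod.mk.injEq] at k
    obtain ⟨k1, k2⟩ := k
    obtain ⟨a1, a2, a3⟩ := hG e he.1
    obtain ⟨b1, b2, b3⟩ := hG e' he'.1
    rw [← k1] at k2 he'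
    refine T1 e a1 e' b1 _ _ (dis j (cls j (μ e.1))).symm k1 a3 b3 he.2.2 he'.2.2 he.2.1 he'.2.1
      (P4 j _ _ _ he.2.2 he'.2.2 k2) ?_
    rw [← he.2.1]
    exact P1 j _ _ (he.2.1.trans he'.2.1.symm)
  have hrep : ∀ j : ℕ, ∃ π : Fin n → Fin n, ∀ i i', Ns p B z0 i → Ns p B z0 i' →
      (π i = π i' ↔ cls j (μ i) = cls j (μ i')) := by
    intro j
    let ρ : Nd p B z0 → Fin n → Fin n := fun t i =>
      if h : ∃ i', cls j (μ i') = t then h.choose else i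
    have hρ : ∀ i i', cls j (μ (ρ (cls j (μ i)) i')) = cls j (μ i) := by
      intro i i'
      have h : ∃ i', cls j (μ i') = cls j (μ i) := ⟨i, rfl⟩
      simp only [ρ, dif_pos h]
      exact h.choose_spec
    refine ⟨fun i => ρ (cls j (μ i)) i, fun i i' _ _ => ⟨fun k => ?_, fun k => ?_⟩⟩
    · rw [← hρ i i, ← hρ i' i']
      simp only at k
      rw [k]
    · have h : ∃ i'', cls j (μ i'') = cls j (μ i') := ⟨i', rfl⟩
      simp only [k, ρ, dif_pos h]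
  choose π hπ using hrep
  refine ⟨S1 ∪ S2 ∪ (range J).biUnion (fun j => S3 j ∪ S4 j ∪ S5 j), fun j => π (j + 1),
    fun j τ => {e | e ∈ G ∧ cls (j + 1) (ν e) = cls (j + 1) (μ e.1) ∧
      cls (j + 1) (μ e.2) = cls (j + 1) (μ e.1) ∧ cls j (ν e) ≠ cls j (μ e.1) ∧
      cls j (ν e) ≠ cls j (μ e.2) ∧ cls j (μ e.1) ≠ cls j (μ e.2) ∧
      (idx j (ν e), idx j (μ e.1), idx j (μ e.2)) = τ}, ?_, ?_, ?_⟩
  · have h1 : ((range J).biUnion (fun j => S3 j ∪ S4 j ∪ S5 j)).card ≤ J * (15 * n) := by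
      refine (card_biUnion_le_card_mul _ _ (15 * n) (fun j _ => ?_)).trans (by rw [card_range])
      have a := card_union_le (S3 j ∪ S4 j) (S5 j)
      have b := card_union_le (S3 j) (S4 j)
      have := c3 j; have := c4 j; have := c5 j
      omega
    have a := card_union_le (S1 ∪ S2) ((range J).biUnion (fun j => S3 j ∪ S4 j ∪ S5 j))
    have b := card_union_le S1 S2
    omega
  · intro j τ e he
    obtain ⟨g, u1, u2, u3, u4, u5, u6⟩ := he
    obtain ⟨a1, a2, a3⟩ := hG e g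
    refine ⟨hB e a1.1, (hπ _ _ _ a2 a3).2 u2.symm, ?_⟩
    intro e' he' hne k
    obtain ⟨g', v1, v2, v3, v4, v5, v6⟩ := he'
    obtain ⟨b1, b2, b3⟩ := hG e' g'
    have k1 := (hπ _ _ _ a2 b2).1 k
    rw [← v6] at u6
    simp only [Prod.mk.injEq] at u6
    have q1 := P2 j _ _ (u1.trans (k1.trans v1.symm)) u6.1
    have q2 := P2 j _ _ k1 u6.2.1
    have q3 := P2 j _ _ (u2.trans (k1.trans v2.symm)) u6.2.2
    have dd : ∀ t t', t ≠ t' → Disjoint {v | cls j v = t} {v | cls j v = t'} := fun t t' h =>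
      Set.disjoint_left.2 (fun _ a b => h (a.symm.trans b))
    exact C1 e a1 e' b1 _ _ _ (dd _ _ u3) (dd _ _ u4) (dd _ _ u5) hne a2 b2 a3 b3 rfl q1.symm
      rfl q2.symm rfl q3.symm (P1 j _ _ q1) (P1 j _ _ q2) (P1 j _ _ q3)
  · ext e
    simp only [Set.mem_union, coe_union, coe_biUnion, Set.mem_iUnion, mem_coe,
      Set.mem_ofPred_eq]
    constructor
    · intro he
      by_cases s2 : Ns p B z0 e.2
      swap
      · exact Or.inl (Or.inl (Or.inl (by simp [S1, he, s2])))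
      by_cases s1 : Ns p B z0 e.1
      swap
      · exact Or.inl (Or.inl (Or.inr (by simp [S2, he, s1])))
      have g : e ∈ G := by simp [G, he, s1, s2]
      obtain ⟨j, hj, h1, h2⟩ := exists_level
        (P := fun j => cls j (ν e) = cls j (μ e.1) ∧ cls j (μ e.2) = cls j (μ e.1)) (J := J)
        (fun k => ne12 e he (congrArg Subtype.val (P3' ⟨_, s2⟩ ⟨_, s1⟩ k.2)).symm)
        ⟨P3 _ _, P3 _ _⟩
      by_cases x1 : cls j (ν e) = cls j (μ e.1)
      · refine Or.inl (Or.inr ⟨j, mem_range.2 hj, Or.inl (Or.inl ?_)⟩)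
        exact mem_filter.2 ⟨g, x1, fun k => h1 ⟨x1, k⟩⟩
      by_cases x2 : cls j (ν e) = cls j (μ e.2)
      · refine Or.inl (Or.inr ⟨j, mem_range.2 hj, Or.inl (Or.inr ?_)⟩)
        exact mem_filter.2 ⟨g, x2, fun k => x1 (x2.trans k.symm)⟩
      by_cases x3 : cls j (μ e.1) = cls j (μ e.2)
      · refine Or.inl (Or.inr ⟨j, mem_range.2 hj, Or.inr ?_⟩)
        exact mem_filter.2 ⟨g, x3.symm, x1⟩
      exact Or.inr ⟨⟨j, hj⟩, _, g, h2.1, h2.2, x1, x2, x3, rfl⟩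
    · rintro (((h | h) | ⟨j, _, (h | h) | h⟩) | ⟨j, τ, h, _⟩)
      · exact (mem_filter.1 h).2.1
      · exact (mem_filter.1 h).2.1
      · exact (hG e (mem_filter.1 h).1).1
      · exact (hG e (mem_filter.1 h).1).1
      · exact (hG e (mem_filter.1 h).1).1
      · exact (hG e h).1

end Pool.Agent.Lib.MP_5bf547_co
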