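import Mathlib
import Pool.Agent.Lib.MP_5bf547_co.TopS

namespace Pool.Agent.Lib.MP_5bf547_co

open Classical Finset

variable {n : ℕ} {p : Fin n → Pt}

lemma crs_comb {s s' z z' : Pt} (h1 : ori s s' z * ori s s' z' < 0)
    (h2 : ori z z' s * ori z z' s' < 0) :
    ∃ l1 l2 m1 m2 : ℝ, 0 < l1 ∧ 0 < l2 ∧ 0 < m1 ∧ 0 < m2 ∧ ∀ a b : Pt,
      l1 * ori a b s + l2 * ori a b s' = m1 * ori a b z + m2 * ori a b z' := by
  have hD : ori s s' z' - ori s s' z = ori z z' s - ori z z' s' := by simp only [ori]; ring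
  have id : ∀ a b : Pt, -ori z z' s' * ori a b s + ori z z' s * ori a b s' =
      ori s s' z' * ori a b z + -ori s s' z * ori a b z' := by
    intro a b; simp only [ori]; ring
  rcases mul_neg_iff.1 h1 with ⟨a1, a2⟩ | ⟨a1, a2⟩ <;>
    rcases mul_neg_iff.1 h2 with ⟨b1, b2⟩ | ⟨b1, b2⟩
  · linarith
  · exact ⟨ori z z' s', -ori z z' s, -ori s s' z', ori s s' z, b2, by linarith, by linarith, a1,
      fun a b => by linarith [id a b]⟩
  · exact ⟨-ori z z' s', ori z z' s, ori s s' z', -ori s s' z, by linarith, b1, a2, by linarith,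
      id⟩
  · linarith

lemma crossSys_sub (hg : Gen p) {π : Fin n → Fin n} {M M' : Set (Fin n × Fin n)}
    (h : CrossSys p π M) (h' : CrossSys p π M') (e1 : Prod.fst '' M = Prod.fst '' M')
    (e2 : Prod.snd '' M = Prod.snd '' M') : M' ⊆ M := by
  rintro ⟨a, b⟩ hab
  by_contra hnot
  have inj : ∀ N : Set (Fin n × Fin n), CrossSys p π N → ∀ e ∈ N, ∀ e' ∈ N,
      (e.1 = e'.1 ∨ e.2 = e'.2) → e = e' := by
    intro N hN e he e' he' k
    by_contra hne
    have hπ : π e.1 = π e'.1 := by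
      rcases k with k | k
      · rw [k]
      · rw [(hN e he).2.1, (hN e' he').2.1, k]
    have c := ((hN e he).2.2 e' he' hne hπ).1
    rcases k with k | k
    · rw [← k, ori_self_left, zero_mul] at c; exact lt_irrefl _ c
    · rw [← k, ori_self_right, mul_zero] at c; exact lt_irrefl _ c
  let fl : Set (Fin n × Fin n) → Finset (Fin n × Fin n) := fun N =>
    univ.filter (fun e => e ∈ N ∧ π e.1 = π a)
  have cA : ∀ N : Set (Fin n × Fin n), CrossSys p π N →
      ((fl N).filter (fun e => 0 < ori (p a) (p b) (p e.1))).card =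
      (univ.filter (fun u => u ∈ Prod.fst '' N ∧ π u = π a ∧ 0 < ori (p a) (p b) (p u))).card := by
    intro N hN
    apply card_bij (fun e _ => e.1)
    · intro e he
      simp only [fl, mem_filter, mem_univ, true_and] at he ⊢
      exact ⟨⟨e, he.1.1, rfl⟩, he.1.2, he.2⟩
    · intro e he e' he' k
      simp only [fl, mem_filter, mem_univ, true_and] at he he'
      exact inj N hN e he.1.1 e' he'.1.1 (Or.inl k)
    · intro u hu
      simp only [mem_filter, mem_univ, true_and] at hu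
      obtain ⟨⟨e, he, rfl⟩, k1, k2⟩ := hu
      exact ⟨e, by simp only [fl, mem_filter, mem_univ, true_and]; exact ⟨⟨he, k1⟩, k2⟩, rfl⟩
  have cB : ∀ N : Set (Fin n × Fin n), CrossSys p π N →
      ((fl N).filter (fun e => ori (p a) (p b) (p e.2) < 0)).card =
      (univ.filter (fun u => u ∈ Prod.snd '' N ∧ π u = π a ∧ ori (p a) (p b) (p u) < 0)).card := by
    intro N hN
    apply card_bij (fun e _ => e.2)
    · intro e he
      simp only [fl, mem_filter, mem_univ, true_and] at he ⊢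
      exact ⟨⟨e, he.1.1, rfl⟩, (hN e he.1.1).2.1 ▸ he.1.2, he.2⟩
    · intro e he e' he' k
      simp only [fl, mem_filter, mem_univ, true_and] at he he'
      exact inj N hN e he.1.1 e' he'.1.1 (Or.inr k)
    · intro u hu
      simp only [mem_filter, mem_univ, true_and] at hu
      obtain ⟨⟨e, he, rfl⟩, k1, k2⟩ := hu
      exact ⟨e, by
        simp only [fl, mem_filter, mem_univ, true_and]
        exact ⟨⟨he, (hN e he).2.1.trans k1⟩, k2⟩, rfl⟩
  have eq' : (fl M').filter (fun e => 0 < ori (p a) (p b) (p e.1)) =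
      (fl M').filter (fun e => ori (p a) (p b) (p e.2) < 0) := by
    apply filter_congr
    intro e he
    simp only [fl, mem_filter, mem_univ, true_and] at he
    by_cases k : (a, b) = e
    · rw [← k]; simp [ori_self_left, ori_self_right]
    · have c := ((h' _ hab).2.2 e he.1 k he.2.symm).1
      rcases mul_neg_iff.1 c with ⟨a1, a2⟩ | ⟨a1, a2⟩
      · exact ⟨fun _ => a2, fun _ => a1⟩
      · exact ⟨fun x => absurd x (lt_asymm a1), fun x => absurd x (lt_asymm a2)⟩
  have key : ((fl M).filter (fun e => 0 < ori (p a) (p b) (p e.1))).card =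
      ((fl M).filter (fun e => ori (p a) (p b) (p e.2) < 0)).card := by
    rw [cA M h, cB M h, e1, e2, ← cA M' h', ← cB M' h', eq']
  obtain ⟨⟨a', bi⟩, hi, rfl⟩ : a ∈ Prod.fst '' M := e1 ▸ ⟨_, hab, rfl⟩
  obtain ⟨⟨aj, b'⟩, hj, rfl⟩ : b ∈ Prod.snd '' M := e2 ▸ ⟨_, hab, rfl⟩
  simp only at *
  have n1 : a' ≠ b' := fun k => by
    have := (h' _ hab).1
    rw [k] at this; exact lt_irrefl _ this
  have n2 : a' ≠ bi := fun k => by
    have := (h _ hi).1
    rw [k] at this; exact lt_irrefl _ this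
  have n3 : b' ≠ bi := fun k => hnot (k ▸ hi)
  have comb : ∀ e ∈ fl M, e ≠ (a', bi) → ∃ l m1 m2 : ℝ, 0 < l ∧ 0 < m1 ∧ 0 < m2 ∧
      l * ori (p a') (p b') (p bi) =
        m1 * ori (p a') (p b') (p e.1) + m2 * ori (p a') (p b') (p e.2) := by
    intro e he hne
    simp only [fl, mem_filter, mem_univ, true_and] at he
    have c := (h _ hi).2.2 e he.1 hne.symm he.2.symm
    obtain ⟨l1, l2, m1, m2, _, k2, k3, k4, k5⟩ := crs_comb c.1 c.2
    refine ⟨l2, m1, m2, k2, k3, k4, ?_⟩
    have := k5 (p a') (p b')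
    simp only [ori_self_left] at this
    linarith
  rcases lt_or_gt_of_ne (hg.col _ _ _ n1 n2 n3) with s | s
  · refine absurd key (ne_of_lt (card_lt_card ⟨fun e he => ?_, fun k => ?_⟩))
    · rw [mem_filter] at he ⊢
      refine ⟨he.1, ?_⟩
      by_cases k : e = (a', bi)
      · rw [k]; exact s
      · obtain ⟨l, m1, m2, k1, k2, k3, k4⟩ := comb e he.1 k
        by_contra c
        nlinarith [mul_pos k2 he.2, mul_nonneg k3.le (not_lt.1 c), mul_pos k1 (neg_pos.2 s)]
    · have := k (mem_filter.2 ⟨(by simp [fl, hi] : (a', bi) ∈ fl M), s⟩)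
      simp [ori_self_left] at this
  · refine absurd key.symm (ne_of_lt (card_lt_card ⟨fun e he => ?_, fun k => ?_⟩))
    · rw [mem_filter] at he ⊢
      refine ⟨he.1, ?_⟩
      by_cases k : e = (a', bi)
      · rw [k] at he; exact absurd he.2 (lt_asymm s)
      · obtain ⟨l, m1, m2, k1, k2, k3, k4⟩ := comb e he.1 k
        by_contra c
        nlinarith [mul_pos k3 (neg_pos.2 he.2), mul_nonneg k2.le (neg_nonneg.2 (not_lt.1 c)),
          mul_pos k1 s]
    · have hm : (aj, b') ∈ fl M := by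
        simp only [fl, mem_filter, mem_univ, true_and]
        exact ⟨hj, (h _ hj).2.1.trans (h' _ hab).2.1.symm⟩
      obtain ⟨l, m1, m2, k1, k2, k3, k4⟩ := comb _ hm (fun e => n3 (Prod.ext_iff.1 e).2)
      simp only [ori_self_right] at k4
      have hp : 0 < ori (p a') (p b') (p aj) := by
        by_contra c
        nlinarith [mul_nonneg k2.le (neg_nonneg.2 (not_lt.1 c)), mul_pos k1 s]
      have := k (mem_filter.2 ⟨hm, hp⟩)
      simp [ori_self_right] at this

lemma finset_code {α : Type} [Fintype α] (m : ℕ) (S : Finset α) (h : S.card ≤ m) :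
    ∃ f : Fin m → Option α, (S : Set α) = {e | ∃ k, f k = some e} := by
  refine ⟨fun k => if hk : (k : ℕ) < S.card then some (S.equivFin.symm ⟨k, hk⟩ : α) else none, ?_⟩
  ext e
  simp only [mem_coe, Set.mem_ofPred_eq]
  constructor
  · intro he
    refine ⟨⟨S.equivFin ⟨e, he⟩, lt_of_lt_of_le (S.equivFin ⟨e, he⟩).2 h⟩, ?_⟩
    simp
  · rintro ⟨k, hk⟩
    by_cases c : (k : ℕ) < S.card
    · simp only [dif_pos c, Option.some.injEq] at hk
      rw [← hk]; exact (S.equivFin.symm ⟨k, c⟩).2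
    · simp [dif_neg c] at hk

theorem fam_card (hg : Gen p) (J D : ℕ) :
    (Fam p J D).ncard ≤
      (n * n + 1) ^ (2 * n + J * (15 * n)) * ((n ^ n) ^ J * ((4 ^ n) ^ (D * (D * D))) ^ J) := by
  let sel : (Fin n → Fin n) → Set (Fin n) × Set (Fin n) → Set (Fin n × Fin n) := fun π T =>
    if h : ∃ M, CrossSys p π M ∧ Prod.fst '' M = T.1 ∧ Prod.snd '' M = T.2 then h.choose else ∅
  have hsel : ∀ π M, CrossSys p π M → sel π (Prod.fst '' M, Prod.snd '' M) = M := by
    intro π M hM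
    have h : ∃ M', CrossSys p π M' ∧ Prod.fst '' M' = Prod.fst '' M ∧
      Prod.snd '' M' = Prod.snd '' M := ⟨M, hM, rfl, rfl⟩
    simp only [sel, dif_pos h]
    obtain ⟨k1, k2, k3⟩ := h.choose_spec
    exact Set.Subset.antisymm (crossSys_sub hg hM k1 k2.symm k3.symm) (crossSys_sub hg k1 hM k2 k3)
  let Φ : (Fin (2 * n + J * (15 * n)) → Option (Fin n × Fin n)) × (Fin J → Fin n → Fin n) ×
      (Fin J → Fin D × Fin D × Fin D → Set (Fin n) × Set (Fin n)) → Set (Fin n × Fin n) :=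
    fun x => {e | ∃ k, x.1 k = some e} ∪ ⋃ j, ⋃ τ, sel (x.2.1 j) (x.2.2 j τ)
  have hsub : Fam p J D ⊆ Φ '' Set.univ := by
    rintro E ⟨B0, π, M, h1, h2, rfl⟩
    obtain ⟨f, hf⟩ := finset_code _ B0 h1
    refine ⟨(f, π, fun j τ => (Prod.fst '' M j τ, Prod.snd '' M j τ)), trivial, ?_⟩
    simp only [Φ, hf, hsel _ _ (h2 _ _)]
  refine (Set.ncard_le_ncard hsub (Set.toFinite _)).trans ((Set.ncard_image_le).trans ?_)
  rw [Set.ncard_univ, Nat.card_eq_fintype_card]
  simp only [Fintype.card_prod, Fintype.card_pi, Fintype.card_option, Fintype.card_fin,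
    prod_const, card_univ, Fintype.card_set]
  rw [← mul_pow 2 2]
  norm_num

lemma fam_sub {p p' : Fin n → Pt} (h1 : ∀ i j, (p i).1 < (p j).1 → (p' i).1 < (p' j).1)
    (h2 : ∀ e e', Crs p e e' → Crs p' e e') (J D : ℕ) : Fam p J D ⊆ Fam p' J D := by
  rintro E ⟨B0, π, M, k1, k2, rfl⟩
  refine ⟨B0, π, M, k1, fun j τ e he => ?_, rfl⟩
  obtain ⟨a, b, c⟩ := k2 j τ e he
  exact ⟨h1 _ _ a, b, fun e' he' x y => h2 _ _ (c e' he' x y)⟩

end Pool.Agent.Lib.MP_5bf547_co
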