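import Mathlib
import Pool.Agent.Lib.MP_5bf547_co.Bdry

namespace Pool.Agent.Lib.MP_5bf547_co

open Classical Finset SignType

lemma sign_eq_iff {a b : ℝ} : sign a = sign b ↔ (0 < a ↔ 0 < b) ∧ (a < 0 ↔ b < 0) := by
  constructor
  · intro h
    exact ⟨by rw [← sign_eq_one_iff, ← sign_eq_one_iff, h],
      by rw [← sign_eq_neg_one_iff, ← sign_eq_neg_one_iff, h]⟩
  · rintro ⟨h1, h2⟩
    rcases lt_trichotomy a 0 with c | c | c
    · rw [sign_neg c, sign_neg (h2.1 c)]
    · rcases lt_trichotomy b 0 with d | d | d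
      · linarith [h2.2 d]
      · rw [c, d]
      · linarith [h1.2 d]
    · rw [sign_pos c, sign_pos (h1.1 c)]

lemma sign_zero_iff {a b : ℝ} (h : sign a = sign b) : a = 0 ↔ b = 0 := by
  rw [← sign_eq_zero_iff, ← sign_eq_zero_iff (a := b), h]

lemma sign_cancel {a b a' b' : ℝ} (hb : b ≠ 0) (h1 : sign b = sign b')
    (h2 : sign (a * b) = sign (a' * b')) : sign a = sign a' := by
  rw [sign_mul, sign_mul, ← h1] at h2
  exact mul_right_cancel₀ (sign_ne_zero.2 hb) h2

lemma line1D {κ : Type} [Finite κ] (α β α' β' : κ → ℝ) (h1 : ∀ k, sign (α k) = sign (α' k))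
    (h2 : ∀ k, sign (β k) = sign (β' k))
    (h3 : ∀ k l, sign (α k * β l - α l * β k) = sign (α' k * β' l - α' l * β' k)) (t : ℝ) :
    ∃ t' : ℝ, ∀ k, sign (α k + β k * t) = sign (α' k + β' k * t') := by
  have hb : ∀ k, β k ≠ 0 → β' k ≠ 0 := fun k h e => h ((sign_zero_iff (h2 k)).2 e)
  by_cases h : ∃ k, β k ≠ 0 ∧ α k + β k * t = 0
  · obtain ⟨k, k1, k2⟩ := h
    refine ⟨-α' k / β' k, fun l => sign_cancel k1 (h2 k) ?_⟩
    have e1 : (α l + β l * t) * β k = α l * β k - α k * β l := by linear_combination β l * k2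
    have e2 : (α' l + β' l * (-α' k / β' k)) * β' k = α' l * β' k - α' k * β' l := by
      have := hb k k1
      field_simp; ring
    rw [e1, e2]; exact h3 l k
  · push Not at h
    have hr : ∀ k, β k ≠ 0 → α k + β k * t = (t - -α k / β k) * β k := by
      intro k hk; field_simp; ring
    obtain ⟨t', l1, l2⟩ := Set.Finite.exists_between'
      (s := (fun k => -α' k / β' k) '' {k | β k ≠ 0 ∧ -α k / β k < t})
      (t := (fun k => -α' k / β' k) '' {k | β k ≠ 0 ∧ t < -α k / β k})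
      (Set.toFinite _) (Set.toFinite _) (by
        rintro _ ⟨k, ⟨k1, k2⟩, rfl⟩ _ ⟨l, ⟨m1, m2⟩, rfl⟩
        have e1 : (-α k / β k - -α l / β l) * (β k * β l) = α l * β k - α k * β l := by
          field_simp; ring
        have e2 : (-α' k / β' k - -α' l / β' l) * (β' k * β' l) =
            α' l * β' k - α' k * β' l := by
          have := hb k k1; have := hb l m1
          field_simp; ring
        have := sign_cancel (a := -α k / β k - -α l / β l) (a' := -α' k / β' k - -α' l / β' l)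
          (b' := β' k * β' l) (mul_ne_zero k1 m1) (by rw [sign_mul, sign_mul, h2, h2]) (by rw [e1, e2]; exact h3 l k)
        have := (sign_eq_iff.1 this).2.1 (by linarith)
        simp only
        linarith)
    refine ⟨t', fun k => ?_⟩
    by_cases hk : β k = 0
    · rw [hk, (sign_zero_iff (h2 k)).1 hk]; simpa using h1 k
    · have e : α' k + β' k * t' = (t' - -α' k / β' k) * β' k := by
        have := hb k hk
        field_simp; ring
      rw [hr k hk, e, sign_mul, sign_mul, h2]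
      congr 1
      have hne : t ≠ -α k / β k := by
        intro c
        apply h k hk
        rw [hr k hk, ← c]; ring
      rcases lt_or_gt_of_ne hne with c | c
      · rw [sign_neg (by linarith), sign_neg (by linarith [l2 _ ⟨k, ⟨hk, c⟩, rfl⟩])]
      · rw [sign_pos (by linarith), sign_pos (by linarith [l1 _ ⟨k, ⟨hk, c⟩, rfl⟩])]

abbrev KI (n : ℕ) := Fin n ⊕ Fin n ⊕ (Fin n × Fin n)
abbrev LI (n : ℕ) := Fin n ⊕ (Fin n × Fin n)

section ring
variable {n : ℕ} {R : Type} [CommRing R]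

/-- the affine test functions -/
def Phi (p : Fin n → R × R) : KI n → R × R → R
  | .inl i, z => z.1 - (p i).1
  | .inr (.inl i), z => z.2 - (p i).2
  | .inr (.inr e), z => ((p e.2).1 - (p e.1).1) * (z.2 - (p e.1).2) -
      ((p e.2).2 - (p e.1).2) * (z.1 - (p e.1).1)

def pA (p : Fin n → R × R) : LI n → R × R
  | .inl i => p i
  | .inr e => p e.1

def pB (p : Fin n → R × R) : LI n → R × R
  | .inl i => ((p i).1, (p i).2 + 1)
  | .inr e => p e.2

def al (p : Fin n → R × R) (l : LI n) (k : KI n) : R := Phi p k (pA p l)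
def be (p : Fin n → R × R) (l : LI n) (k : KI n) : R := Phi p k (pB p l) - Phi p k (pA p l)

abbrev TI (n : ℕ) := (LI n × KI n) ⊕ (LI n × KI n) ⊕ (LI n × KI n × KI n)

/-- the polynomials whose signs form the type of a configuration -/
def tp (p : Fin n → R × R) : TI n → R
  | .inl x => al p x.1 x.2
  | .inr (.inl x) => be p x.1 x.2
  | .inr (.inr x) => al p x.1 x.2.1 * be p x.1 x.2.2 - al p x.1 x.2.2 * be p x.1 x.2.1

end ring

variable {n : ℕ} {p p' : Fin n → Pt} {B : Set (Fin n × Fin n)}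

def pt (p : Fin n → Pt) (l : LI n) (t : ℝ) : Pt :=
  ((pA p l).1 + t * ((pB p l).1 - (pA p l).1), (pA p l).2 + t * ((pB p l).2 - (pA p l).2))

lemma Phi_pt (p : Fin n → Pt) (l : LI n) (k : KI n) (t : ℝ) :
    Phi p k (pt p l t) = al p l k + be p l k * t := by
  rcases k with i | i | e <;> simp only [Phi, pt, al, be] <;> ring

def ST (p p' : Fin n → Pt) : Prop := ∀ x, sign (tp p x) = sign (tp p' x)

def SV (p : Fin n → Pt) (z : Pt) (p' : Fin n → Pt) (z' : Pt) : Prop :=
  ∀ k, sign (Phi p k z) = sign (Phi p' k z')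

lemma ST.symm (h : ST p p') : ST p' p := fun x => (h x).symm
lemma SV.symm {z z' : Pt} (h : SV p z p' z') : SV p' z' p z := fun x => (h x).symm

lemma ST.line (h : ST p p') (l : LI n) (t : ℝ) : ∃ t', SV p (pt p l t) p' (pt p' l t') := by
  obtain ⟨t', ht⟩ := line1D (al p l) (be p l) (al p' l) (be p' l) (fun k => h (.inl (l, k)))
    (fun k => h (.inr (.inl (l, k)))) (fun k k' => h (.inr (.inr (l, k, k')))) t
  exact ⟨t', fun k => by rw [Phi_pt, Phi_pt]; exact ht k⟩

lemma ST.pts (h : ST p p') (i : Fin n) : SV p (p i) p' (p' i) := fun k => h (.inl (.inl i, k))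

lemma SV.lt {z z' : Pt} (h : SV p z p' z') (i : Fin n) : (p i).1 < z.1 ↔ (p' i).1 < z'.1 := by
  have := (sign_eq_iff.1 (h (.inl i))).1
  simpa only [Phi, sub_pos] using this

lemma SV.gt {z z' : Pt} (h : SV p z p' z') (i : Fin n) : z.1 < (p i).1 ↔ z'.1 < (p' i).1 := by
  have := (sign_eq_iff.1 (h (.inl i))).2
  simpa only [Phi, sub_neg] using this

lemma SV.le {z z' : Pt} (h : SV p z p' z') (i : Fin n) : (p i).1 ≤ z.1 ↔ (p' i).1 ≤ z'.1 := by
  rw [← not_lt, ← not_lt, h.gt]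

lemma SV.ge {z z' : Pt} (h : SV p z p' z') (i : Fin n) : z.1 ≤ (p i).1 ↔ z'.1 ≤ (p' i).1 := by
  rw [← not_lt, ← not_lt, h.lt]

lemma SV.ori {z z' : Pt} (h : SV p z p' z') (i j : Fin n) :
    sign (ori (p i) (p j) z) = sign (ori (p' i) (p' j) z') := h (.inr (.inr (i, j)))

lemma SV.eq {z z' : Pt} (h : SV p z p' z') (i : Fin n) (e : z = p i) : z' = p' i := by
  have a := (sign_zero_iff (h (.inl i))).1 (by simp [Phi, e])
  have b := (sign_zero_iff (h (.inr (.inl i)))).1 (by simp [Phi, e])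
  simp only [Phi, sub_eq_zero] at a b
  exact Prod.ext a b

lemma SV.seg {z z' : Pt} (h : SV p z p' z') {i j : Fin n} (h1 : (p i).1 < (p j).1)
    (h2 : (p' i).1 < (p' j).1) (hz : z ∈ segment ℝ (p i) (p j)) :
    z' ∈ segment ℝ (p' i) (p' j) := by
  obtain ⟨k1, k2⟩ := x_of_mem h1.le hz
  exact mem_seg_of_on h2 ((h.le i).1 k1) ((h.ge j).1 k2)
    ((sign_zero_iff (h.ori i j)).1 (ori_of_mem hz))

lemma SV.free (hB : Ordered p B) (hB' : Ordered p' B) {z z' : Pt} (h : SV p z p' z')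
    (hz : z ∈ Free p B) : z' ∈ Free p' B :=
  ⟨fun i e => hz.1 i (h.symm.eq i e),
    fun e he k => hz.2 e he (h.symm.seg (hB' e he) (hB e he) k)⟩

lemma ST.xlt (h : ST p p') {i j : Fin n} (k : (p i).1 < (p j).1) : (p' i).1 < (p' j).1 :=
  ((h.pts j).lt i).1 k

lemma ST.ord (h : ST p p') (hB : Ordered p B) : Ordered p' B := fun e he => h.xlt (hB e he)

lemma ST.crs (h : ST p p') {e e' : Fin n × Fin n} (k : Crs p e e') : Crs p' e e' := by
  unfold Crs at *
  rw [← sign_eq_neg_one_iff, ← sign_eq_neg_one_iff, sign_mul, sign_mul] at k ⊢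
  rw [← (h.pts _).ori, ← (h.pts _).ori, ← (h.pts _).ori, ← (h.pts _).ori]
  exact k

lemma ST.gen (h : ST p p') (hg : Gen p) : Gen p' := by
  constructor
  · intro i j e
    apply hg.x
    apply le_antisymm
    · exact ((h.pts i).ge j).2 e.le
    · exact ((h.pts i).le j).2 e.ge
  · intro i j k a b c e
    exact hg.col i j k a b c ((sign_zero_iff ((h.pts k).ori i j)).2 e)

def Rel (p : Fin n → Pt) (B : Set (Fin n × Fin n)) (w q : Pt) : Prop :=
  ∃ s : Fin n → Prop, (∀ i, s i → (p i).1 ≤ w.1 ∧ (p i).1 ≤ q.1) ∧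
    (∀ i, ¬ s i → w.1 ≤ (p i).1 ∧ q.1 ≤ (p i).1) ∧ (∀ i j, s i → ¬ s j → (p i).1 < (p j).1) ∧
    ∀ e ∈ B, s e.1 → ¬ s e.2 → (0 < ori (p e.1) (p e.2) w ↔ 0 < ori (p e.1) (p e.2) q)

lemma Rel.transfer (h : ST p p') {w w' q q' : Pt} (h1 : SV p w p' w') (h2 : SV p q p' q')
    (r : Rel p B w q) : Rel p' B w' q' := by
  obtain ⟨s, a, b, c, d⟩ := r
  refine ⟨s, fun i k => ⟨(h1.le i).1 (a i k).1, (h2.le i).1 (a i k).2⟩,
    fun i k => ⟨(h1.ge i).1 (b i k).1, (h2.ge i).1 (b i k).2⟩,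
    fun i j k l => h.xlt (c i j k l), fun e he k l => ?_⟩
  rw [← (sign_eq_iff.1 (h1.ori _ _)).1, ← (sign_eq_iff.1 (h2.ori _ _)).1]
  exact d e he k l

lemma inward {w : Pt} (hw : w ∈ Free p B) (x : ℝ) :
    ∃ t : ℝ, 0 < t ∧ t ≤ 1 ∧ segment ℝ w (w.1 + t * (x - w.1), w.2) ⊆ Free p B := by
  obtain ⟨r, hr, hb⟩ := Metric.isOpen_iff.1 (isOpen_free p B) w hw
  have hpos : 0 < |x - w.1| + 1 := by positivity
  refine ⟨min 1 (r / (|x - w.1| + 1)), by positivity, min_le_left _ _,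
    ((convex_ball w r).segment_subset (Metric.mem_ball_self hr) ?_).trans hb⟩
  rw [Metric.mem_ball, Prod.dist_eq, dist_self, Real.dist_eq]
  refine max_lt ?_ hr
  rw [add_sub_cancel_left, abs_mul, abs_of_pos (by positivity)]
  calc min 1 (r / (|x - w.1| + 1)) * |x - w.1| ≤ r / (|x - w.1| + 1) * |x - w.1| :=
        mul_le_mul_of_nonneg_right (min_le_right _ _) (abs_nonneg _)
    _ < r / (|x - w.1| + 1) * (|x - w.1| + 1) :=
        mul_lt_mul_of_pos_left (by linarith) (by positivity)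
    _ = r := by field_simp

lemma Rel.conn (hB : Ordered p B) {w q : Pt} (hw : w ∈ Free p B) (hq : q ∈ Free p B)
    (r : Rel p B w q) : Conn (Free p B) w q := by
  obtain ⟨s, a, b, c, d⟩ := r
  obtain ⟨x, x1, x2⟩ := Set.Finite.exists_between'
    (s := (fun i => (p i).1) '' {i | s i}) (t := (fun i => (p i).1) '' {i | ¬ s i})
    (Set.toFinite _) (Set.toFinite _) (by
      rintro _ ⟨i, hi, rfl⟩ _ ⟨j, hj, rfl⟩
      exact c i j hi hj)
  have key : ∀ u : Pt, u ∈ Free p B → (∀ i, s i → (p i).1 ≤ u.1) → (∀ i, ¬ s i → u.1 ≤ (p i).1) →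
      ∃ u' : Pt, segment ℝ u u' ⊆ Free p B ∧ (∀ i, s i → (p i).1 < u'.1) ∧
        (∀ i, ¬ s i → u'.1 < (p i).1) ∧
        ∀ e ∈ B, s e.1 → ¬ s e.2 → (0 < ori (p e.1) (p e.2) u ↔ 0 < ori (p e.1) (p e.2) u') := by
    intro u hu k1 k2
    obtain ⟨t, t0, t1, hs⟩ := inward hu x
    have m1 : ∀ i, s i → (p i).1 < u.1 + t * (x - u.1) := by
      intro i hi
      have := k1 i hi
      have := x1 _ ⟨i, hi, rfl⟩
      nlinarith
    have m2 : ∀ i, ¬ s i → u.1 + t * (x - u.1) < (p i).1 := by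
      intro i hi
      have := k2 i hi
      have := x2 _ ⟨i, hi, rfl⟩
      nlinarith
    exact ⟨_, hs, m1, m2, fun e he l1 l2 =>
      keep hB hs he (k1 _ l1) (k2 _ l2) (m1 _ l1).le (m2 _ l2).le⟩
  obtain ⟨w', w1, w2, w3, w4⟩ := key w hw (fun i k => (a i k).1) (fun i k => (b i k).1)
  obtain ⟨q', q1, q2, q3, q4⟩ := key q hq (fun i k => (a i k).2) (fun i k => (b i k).2)
  have hs : Same p B w' q' := by
    refine ⟨fun i => ?_, fun i => ?_, fun i k => ?_, fun e he k1 k2 => ?_⟩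
    · by_cases k : s i
      · exact iff_of_true (w2 i k) (q2 i k)
      · exact iff_of_false (lt_asymm (w3 i k)) (lt_asymm (q3 i k))
    · by_cases k : s i
      · exact iff_of_false (lt_asymm (w2 i k)) (lt_asymm (q2 i k))
      · exact iff_of_true (w3 i k) (q3 i k)
    · by_cases l : s i
      · linarith [w2 i l]
      · linarith [w3 i l]
    · have l1 : s e.1 := by
        by_contra l; linarith [w3 _ l]
      have l2 : ¬ s e.2 := by
        intro l; linarith [w2 _ l]
      rw [← w4 e he l1 l2, ← q4 e he l1 l2]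
      exact d e he l1 l2
  exact (Conn.single w1).trans ((Conn.single (fun z hz => (conv hB (w1 (right_mem_segment _ _ _))
    (q1 (right_mem_segment _ _ _)) hs hz).1)).trans (Conn.single q1).symm)

lemma Sh.rel (hB : Ordered p B) {z z' : Pt} (h : Sh p B z z') : Rel p B z z' := by
  have nb : ∀ i, (z.1 < (p i).1 → z'.1 ≤ (p i).1) ∧ (z'.1 < (p i).1 → z.1 ≤ (p i).1) := by
    intro i
    have := h.2 i
    unfold Betw at this
    push Not at this
    exact this
  rcases le_total z.1 z'.1 with c | c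
  · refine ⟨fun i => (p i).1 ≤ z.1, fun i k => ⟨k, k.trans c⟩,
      fun i k => ⟨(not_le.1 k).le, (nb i).1 (not_le.1 k)⟩,
      fun i j k l => lt_of_le_of_lt k (not_le.1 l), fun e he k l => ?_⟩
    exact keep hB h.1 he k (not_le.1 l).le (k.trans c) ((nb _).1 (not_le.1 l))
  · refine ⟨fun i => (p i).1 ≤ z'.1, fun i k => ⟨k.trans c, k⟩,
      fun i k => ⟨(nb i).2 (not_le.1 k), (not_le.1 k).le⟩,
      fun i j k l => lt_of_le_of_lt k (not_le.1 l), fun e he k l => ?_⟩
    exact keep hB h.1 he (k.trans c) ((nb _).2 (not_le.1 l)) k (not_le.1 l).le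

theorem face_transfer (h : ST p p') (hB : Ordered p B) {z0 z0' : Pt} (h0 : z0 ∈ Free p B)
    (hs : SV p z0 p' z0') {q q' : Pt} (hq : q ∈ Face p B z0) (hq' : SV p q p' q') :
    q' ∈ Face p' B z0' := by
  have hB' := h.ord hB
  have fin : ∀ q q', q ∈ Free p B → SV p q p' q' →
      (∃ w w', w ∈ Free p B ∧ SV p w p' w' ∧ w' ∈ Face p' B z0' ∧ Rel p B w q) →
      q' ∈ Face p' B z0' := by
    rintro q q' k1 k2 ⟨w, w', a, b, c, d⟩
    exact Conn.trans c ((d.transfer h b k2).conn hB' (b.free hB hB' a) (k2.free hB hB' k1))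
  have key : ∀ q, Relation.ReflTransGen (Sh p B) z0 q →
      ∃ w w', w ∈ Free p B ∧ SV p w p' w' ∧ w' ∈ Face p' B z0' ∧ Rel p B w q := by
    intro q hq
    induction hq with
    | refl =>
      refine ⟨z0, z0', h0, hs, Conn.refl _ _, Sh.rel hB ⟨?_, ?_⟩⟩
      · rw [segment_same]; exact Set.singleton_subset_iff.2 h0
      · rintro i (⟨a, b⟩ | ⟨a, b⟩) <;> linarith
    | @tail u v _ h2 ih =>
      have hu : u ∈ Free p B := h2.1 (left_mem_segment _ _ _)
      by_cases hw : ∃ i, u.1 = (p i).1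
      · obtain ⟨i, hi⟩ := hw
        have e : u = pt p (.inl i) (u.2 - (p i).2) := by
          simp only [pt, pA, pB]
          exact Prod.ext (by simp [hi]) (by simp)
        obtain ⟨t', ht⟩ := h.line (.inl i) (u.2 - (p i).2)
        rw [← e] at ht
        exact ⟨u, _, hu, ht, fin u _ hu ht ih, h2.rel hB⟩
      · push Not at hw
        obtain ⟨w, w', a, b, c, s, d1, d2, d3, d4⟩ := ih
        have nb : ∀ i, (u.1 < (p i).1 → v.1 ≤ (p i).1) ∧ (v.1 < (p i).1 → u.1 ≤ (p i).1) := by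
          intro i
          have := h2.2 i
          unfold Betw at this
          push Not at this
          exact this
        have m1 : ∀ i, s i → (p i).1 ≤ v.1 := by
          intro i k
          by_contra l
          exact hw i (le_antisymm ((nb i).2 (not_le.1 l)) (d1 i k).2)
        have m2 : ∀ i, ¬ s i → v.1 ≤ (p i).1 := fun i k =>
          (nb i).1 (lt_of_le_of_ne (d2 i k).2 (hw i))
        refine ⟨w, w', a, b, c, s, fun i k => ⟨(d1 i k).1, m1 i k⟩,
          fun i k => ⟨(d2 i k).1, m2 i k⟩, d3, fun e he k l => ?_⟩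
        rw [d4 e he k l]
        exact keep hB h2.1 he (d1 _ k).2 (d2 _ l).2 (m1 _ k) (m2 _ l)
  exact fin q q' (face_free h0 hq) hq' (key q (conn_short hq))

lemma pt_of_seg {u v : Fin n} {q : Pt} (h : q ∈ segment ℝ (p u) (p v)) :
    ∃ t, q = pt p (.inr (u, v)) t := by
  obtain ⟨t, _, _, e1, e2⟩ := mem_seg_iff.1 h
  exact ⟨t, Prod.ext e1 e2⟩

/-- the pair `u v` is blocked by the face -/
def Blk (p : Fin n → Pt) (B : Set (Fin n × Fin n)) (z0 : Pt) (u v : Fin n) : Prop :=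
  ∃ q ∈ segment ℝ (p u) (p v), q ∈ Face p B z0

theorem blk_transfer (h : ST p p') (hg : Gen p) (hB : Ordered p B) {z0 z0' : Pt}
    (h0 : z0 ∈ Free p B) (hs : SV p z0 p' z0') {u v : Fin n} (huv : u ≠ v)
    (hb : Blk p B z0 u v) : Blk p' B z0' u v := by
  obtain ⟨q, q1, q2⟩ := hb
  obtain ⟨t, rfl⟩ := pt_of_seg q1
  obtain ⟨t', ht⟩ := h.line (.inr (u, v)) t
  refine ⟨_, ?_, face_transfer h hB h0 hs q2 ht⟩
  rcases lt_or_gt_of_ne (fun k => huv (hg.x u v k)) with c | c
  · exact ht.seg c (h.xlt c) q1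
  · rw [segment_symm] at q1 ⊢
    exact ht.seg c (h.xlt c) q1

end Pool.Agent.Lib.MP_5bf547_co
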