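import Mathlib

/-! A Warren type bound for the number of sign patterns of real polynomials. -/

namespace Pool.Agent.Lib.MP_5bf547_co

open Classical MvPolynomial Finset SignType

variable {σ : Type} [Fintype σ]

omit [Fintype σ] in
lemma totalDegree_pderiv_le (i : σ) (P : MvPolynomial σ ℝ) :
    (pderiv i P).totalDegree ≤ P.totalDegree := by
  rw [totalDegree]
  refine Finset.sup_le (fun m hm => ?_)
  rw [mem_support_iff, coeff_pderiv] at hm
  have h : m + Finsupp.single i 1 ∈ P.support := mem_support_iff.2 (left_ne_zero_of_mul hm)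
  refine le_trans ?_ (le_totalDegree h)
  rw [Finsupp.sum_add_index' (fun _ => rfl) (fun _ _ _ => rfl)]
  exact Nat.le_add_right _ _

lemma dep_of_card {ι : Type} [Fintype ι] (E : ℕ) (f : ι → MvPolynomial σ ℝ)
    (hf : ∀ i, (f i).totalDegree ≤ E) (hc : (E + 1) ^ Fintype.card σ < Fintype.card ι) :
    ∃ c : ι → ℝ, c ≠ 0 ∧ ∑ i, C (c i) * f i = 0 := by
  let L : (ι → ℝ) →ₗ[ℝ] ((σ → Fin (E + 1)) → ℝ) :=
    { toFun := fun c m => ∑ i, c i * coeff (Finsupp.equivFunOnFinite.symm (fun s => (m s : ℕ))) (f i)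
      map_add' := fun a b => by
        funext m; simp [add_mul, sum_add_distrib]
      map_smul' := fun a b => by
        funext m; simp [mul_sum, mul_assoc] }
  have hk : LinearMap.ker L ≠ ⊥ := L.ker_ne_bot_of_finrank_lt (by simpa using hc)
  obtain ⟨c, hc1, hc2⟩ := Submodule.exists_mem_ne_zero_of_ne_bot hk
  refine ⟨c, hc2, ?_⟩
  ext m
  simp only [coeff_sum, coeff_C_mul, coeff_zero]
  by_cases h : ∀ s, m s ≤ E
  · have := congrFun (LinearMap.mem_ker.1 hc1) (fun s => ⟨m s, Nat.lt_succ_of_le (h s)⟩)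
    simpa [L] using this
  · push Not at h
    obtain ⟨s, hs⟩ := h
    refine sum_eq_zero (fun i _ => ?_)
    have : coeff m (f i) = 0 := by
      by_contra k
      have := (monomial_le_degreeOf s (mem_support_iff.2 k)).trans
        ((degreeOf_le_totalDegree _ _).trans (hf i))
      omega
    rw [this, mul_zero]

lemma relation (D : ℕ) (P l : MvPolynomial σ ℝ) (N : σ → MvPolynomial σ ℝ)
    (hP : P.totalDegree ≤ D) (hN : ∀ i, (N i).totalDegree ≤ D) (hl : l.totalDegree ≤ 1) :
    ∃ W : MvPolynomial σ ℝ, W ≠ 0 ∧ ∀ c : σ → ℝ, eval c W ≠ 0 → ∃ U : Polynomial ℝ, U ≠ 0 ∧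
      U.natDegree ≤ (Fintype.card σ * D + 1) ^ Fintype.card σ ∧
      ∀ x, eval x P ≠ 0 → (∀ i, eval x (N i) = c i * eval x P) → U.eval (eval x l) = 0 := by
  set k := Fintype.card σ with hk
  set A := (k * D + 1) ^ k with hA
  have hA0 : 0 < A := by positivity
  obtain ⟨g, g0, hg⟩ := dep_of_card (ι := Fin (A + 1) × (σ → Fin (A + 1))) (A * (k * D + 1))
    (fun x => l ^ (x.1 : ℕ) * ∏ i, (N i ^ (x.2 i : ℕ) * P ^ (A - x.2 i))) (by
      rintro ⟨a, b⟩
      refine (totalDegree_mul _ _).trans ?_
      have h1 : (l ^ (a : ℕ)).totalDegree ≤ A :=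
        (totalDegree_pow _ _).trans (by nlinarith [a.2])
      have h2 : (∏ i, (N i ^ (b i : ℕ) * P ^ (A - b i))).totalDegree ≤ k * (A * D) := by
        refine (totalDegree_finsetProd _ _).trans ?_
        rw [hk, ← card_univ, ← smul_eq_mul, ← sum_const]
        refine sum_le_sum (fun i _ => (totalDegree_mul _ _).trans ?_)
        have e1 := (totalDegree_pow (N i) (b i)).trans (Nat.mul_le_mul_left _ (hN i))
        have e2 := (totalDegree_pow P (A - b i)).trans (Nat.mul_le_mul_left _ hP)
        have e3 : (b i : ℕ) * D + (A - b i) * D = A * D := by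
          rw [← add_mul, Nat.add_sub_cancel' (Nat.le_of_lt_succ (b i).2)]
        omega
      simp only
      nlinarith) (by
      simp only [Fintype.card_prod, Fintype.card_fin, Fintype.card_pi, prod_const, card_univ, ← hk]
      calc (A * (k * D + 1) + 1) ^ k ≤ ((A + 1) * (k * D + 1)) ^ k :=
            Nat.pow_le_pow_left (by nlinarith) _
        _ = A * (A + 1) ^ k := by rw [mul_pow, mul_comm]
        _ < (A + 1) * (A + 1) ^ k := Nat.mul_lt_mul_of_pos_right (by omega) (by positivity))
  let W : Fin (A + 1) → MvPolynomial σ ℝ := fun a =>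
    ∑ b : σ → Fin (A + 1), monomial (Finsupp.equivFunOnFinite.symm (fun s => (b s : ℕ))) (g (a, b))
  obtain ⟨⟨a0, b0⟩, h0⟩ := Function.ne_iff.1 g0
  refine ⟨W a0, fun e => h0 ?_, fun c hc => ⟨∑ a : Fin (A + 1),
    Polynomial.monomial (a : ℕ) (eval c (W a)), fun e => hc ?_, ?_, fun x hx hN' => ?_⟩⟩
  · have := congrArg (coeff (Finsupp.equivFunOnFinite.symm (fun s => (b0 s : ℕ)))) e
    simp only [W, coeff_sum, coeff_monomial, coeff_zero] at this
    rw [sum_eq_single b0 (fun b _ hb => if_neg (fun k => hb (by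
      funext s
      exact Fin.ext (congrFun (Finsupp.equivFunOnFinite.symm.injective k) s)))) (by simp)] at this
    simpa using this
  · have := congrArg (fun U => Polynomial.coeff U a0) e
    simp only [Polynomial.finsetSum_coeff, Polynomial.coeff_monomial, Polynomial.coeff_zero] at this
    rw [sum_eq_single a0 (fun b _ hb => if_neg (fun k => hb (Fin.ext k))) (by simp)] at this
    simpa using this
  · refine Polynomial.natDegree_sum_le_of_forall_le _ _ (fun a _ => ?_)
    exact (Polynomial.natDegree_monomial_le _).trans (Nat.le_of_lt_succ a.2)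
  · have h1 := congrArg (eval x) hg
    simp only [map_sum, map_mul, eval_C, map_pow, map_prod, map_zero, hN'] at h1
    have h2 : ∀ b : σ → Fin (A + 1), ∏ i, ((c i * eval x P) ^ (b i : ℕ) * eval x P ^ (A - b i)) =
        (∏ i, c i ^ (b i : ℕ)) * (eval x P ^ A) ^ k := by
      intro b
      rw [hk, ← card_univ, ← prod_const, ← prod_mul_distrib]
      refine prod_congr rfl (fun i _ => ?_)
      rw [mul_pow, mul_assoc, ← pow_add, Nat.add_sub_cancel' (Nat.le_of_lt_succ (b i).2)]
    simp only [h2] at h1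
    refine mul_right_cancel₀ (pow_ne_zero k (pow_ne_zero A hx)) ?_
    rw [zero_mul, ← h1, Fintype.sum_prod_type, Polynomial.eval_finsetSum, sum_mul]
    refine sum_congr rfl (fun a _ => ?_)
    rw [Polynomial.eval_monomial]
    simp only [W, map_sum, eval_monomial, sum_mul]
    refine sum_congr rfl (fun b _ => ?_)
    rw [Finsupp.prod_fintype _ _ (by simp)]
    simp only [Finsupp.equivFunOnFinite_symm_apply_apply]
    ring

lemma fiber_bound (D : ℕ) (P : MvPolynomial σ ℝ) (N : σ → MvPolynomial σ ℝ)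
    (hP : P.totalDegree ≤ D) (hN : ∀ i, (N i).totalDegree ≤ D) :
    ∃ c : σ → ℝ, ∀ S : Finset (σ → ℝ),
      (∀ x ∈ S, eval x P ≠ 0 ∧ ∀ i, eval x (N i) = c i * eval x P) →
      S.card ≤ (Fintype.card σ * D + 1) ^ Fintype.card σ := by
  set k := Fintype.card σ with hk
  set A := (k * D + 1) ^ k with hA
  let e : σ ≃ Fin k := Fintype.equivFin σ
  let l : ℝ → MvPolynomial σ ℝ := fun t => ∑ i, C (t ^ (e i : ℕ)) * X i
  have hl : ∀ t, (l t).totalDegree ≤ 1 := fun t =>
    totalDegree_finsetSum_le (fun i _ => (totalDegree_mul _ _).trans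
      (by rw [totalDegree_C, totalDegree_X]))
  choose W hW0 hW using fun t => relation D P (l t) N hP hN (hl t)
  let T : Finset ℝ := (range ((A + 1) * (A + 1) * k + 1)).image (fun j : ℕ => (j : ℝ))
  have hT : T.card = (A + 1) * (A + 1) * k + 1 := by
    rw [card_image_of_injective _ Nat.cast_injective, card_range]
  have hprod : ∏ t ∈ T, W t ≠ 0 := prod_ne_zero_iff.2 (fun t _ => hW0 t)
  obtain ⟨c, hc⟩ : ∃ c, eval c (∏ t ∈ T, W t) ≠ 0 := by
    by_contra h
    push Not at h
    exact hprod (MvPolynomial.funext (fun x => by rw [h x, map_zero]))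
  refine ⟨c, fun S hS => ?_⟩
  by_contra hlt
  obtain ⟨S', h1, h2⟩ := exists_subset_card_eq (show A + 1 ≤ S.card by omega)
  let V : (σ → ℝ) × (σ → ℝ) → Polynomial ℝ := fun z =>
    ∑ i, Polynomial.monomial (e i : ℕ) (z.1 i - z.2 i)
  have hV0 : ∀ z ∈ S'.offDiag, V z ≠ 0 := by
    intro z hz h
    apply (mem_offDiag.1 hz).2.2
    funext i
    have := congrArg (fun U => Polynomial.coeff U (e i)) h
    simp only [V, Polynomial.finsetSum_coeff, Polynomial.coeff_monomial,
      Polynomial.coeff_zero] at this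
    rw [sum_eq_single i (fun b _ hb => if_neg (fun k => hb (e.injective (Fin.ext k))))
      (by simp)] at this
    simpa [sub_eq_zero] using this
  have hVd : (∏ z ∈ S'.offDiag, V z).natDegree < T.card := by
    refine lt_of_le_of_lt (Polynomial.natDegree_prod_le _ _) ?_
    have : ∑ z ∈ S'.offDiag, (V z).natDegree ≤ S'.offDiag.card • k :=
      sum_le_card_nsmul _ _ _ (fun z _ => Polynomial.natDegree_sum_le_of_forall_le _ _
        (fun i _ => (Polynomial.natDegree_monomial_le _).trans (e i).2.le))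
    rw [offDiag_card, h2, smul_eq_mul] at this
    have h3 : ((A + 1) * (A + 1) - (A + 1)) * k ≤ (A + 1) * (A + 1) * k :=
      Nat.mul_le_mul_right _ (Nat.sub_le _ _)
    omega
  obtain ⟨t, ht, hg⟩ : ∃ t ∈ T, (∏ z ∈ S'.offDiag, V z).eval t ≠ 0 := by
    by_contra h
    push Not at h
    exact prod_ne_zero_iff.2 hV0
      (Polynomial.eq_zero_of_natDegree_lt_card_of_eval_eq_zero' _ T h hVd)
  rw [map_prod] at hc
  obtain ⟨U, U0, Ud, hU⟩ := hW t c (prod_ne_zero_iff.1 hc t ht)
  have hinj : Set.InjOn (fun x => eval x (l t)) S' := by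
    intro x hx y hy h
    by_contra hne
    rw [Polynomial.eval_prod] at hg
    apply prod_ne_zero_iff.1 hg (x, y) (mem_offDiag.2 ⟨hx, hy, hne⟩)
    simp only [l, map_sum, map_mul, eval_C, eval_X] at h
    simp only [V, Polynomial.eval_finsetSum, Polynomial.eval_monomial, sub_mul, sum_sub_distrib]
    rw [sub_eq_zero]
    simpa only [mul_comm] using h
  apply U0
  refine Polynomial.eq_zero_of_natDegree_lt_card_of_eval_eq_zero' _
    (S'.image (fun x => eval x (l t))) (fun y hy => ?_) ?_
  · obtain ⟨x, hx, rfl⟩ := mem_image.1 hy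
    exact hU x (hS x (h1 hx)).1 (hS x (h1 hx)).2
  · rw [card_image_of_injOn hinj, h2]; exact Nat.lt_succ_of_le Ud

omit [Fintype σ] in
lemma hasDerivAt_eval (P : MvPolynomial σ ℝ) (x : σ → ℝ) (i : σ) :
    HasDerivAt (fun s => eval (Function.update x i s) P) (eval x (pderiv i P)) (x i) := by
  induction P using MvPolynomial.induction_on with
  | C a => simpa using hasDerivAt_const _ _
  | add p q hp hq => simpa using hp.fun_add hq
  | mul_X p j hp =>
    by_cases h : j = i
    · subst h
      have := hp.fun_mul (hasDerivAt_id' (x j))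
      simpa [pderiv_mul, add_comm, mul_comm] using this
    · have := hp.mul_const (x j)
      simpa [pderiv_mul, h, Function.update_of_ne h, mul_comm] using this

lemma exists_crit {ι : Type} [Fintype ι] (q : ι → MvPolynomial σ ℝ) (R : ℝ) (c x0 : σ → ℝ)
    (h0 : ∀ i, q i ≠ 0 → eval x0 (q i) ≠ 0) (hR : ∑ j, x0 j ^ 2 < R) (P : MvPolynomial σ ℝ)
    (hP : P = (C R - ∑ j, X j ^ 2) * ∏ i ∈ univ.filter (fun i => q i ≠ 0), q i) :
    ∃ x, (∀ i, sign (eval x (q i)) = sign (eval x0 (q i))) ∧ eval x P ≠ 0 ∧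
      ∀ j, eval x (pderiv j P) = c j * eval x P := by
  have hev : ∀ x, eval x P = (R - ∑ j, x j ^ 2) *
      ∏ i ∈ univ.filter (fun i => q i ≠ 0), eval x (q i) := by
    intro x; simp [hP]
  let K : Set (σ → ℝ) := {x | ∑ j, x j ^ 2 ≤ R} ∩ ⋂ i, {x | 0 ≤ eval x0 (q i) * eval x (q i)}
  have hcont : ∀ p : MvPolynomial σ ℝ, Continuous (fun x => eval x p) :=
    fun p => MvPolynomial.continuous_eval p
  have hK : IsCompact K := by
    refine Metric.isCompact_of_isClosed_isBounded
      ((isClosed_le (by fun_prop) continuous_const).inter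
        (isClosed_iInter (fun i => isClosed_le continuous_const
          (continuous_const.mul (hcont _))))) ?_
    refine (Metric.isBounded_closedBall (x := (0 : σ → ℝ)) (r := |R| + 1)).subset (fun x hx => ?_)
    rw [mem_closedBall_zero_iff, pi_norm_le_iff_of_nonneg (by positivity)]
    intro j
    have h1 : x j ^ 2 ≤ ∑ j, x j ^ 2 :=
      single_le_sum (f := fun j => x j ^ 2) (fun _ _ => sq_nonneg _) (mem_univ j)
    have h2 : ∑ j, x j ^ 2 ≤ R := hx.1
    rw [Real.norm_eq_abs]
    nlinarith [le_abs_self R, sq_abs (x j), abs_nonneg (x j), sq_nonneg (|x j| - 1)]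
  let g : (σ → ℝ) → ℝ := fun x => eval x0 P * (eval x P * Real.exp (-∑ j, c j * x j))
  have hg : Continuous g := continuous_const.mul ((hcont P).mul (by fun_prop))
  have hx0 : x0 ∈ K := ⟨hR.le, Set.mem_iInter.2 (fun i => mul_self_nonneg (eval x0 (q i)))⟩
  obtain ⟨x, hx, hmax⟩ := hK.exists_isMaxOn ⟨x0, hx0⟩ hg.continuousOn
  have hP0 : eval x0 P ≠ 0 := by
    rw [hev]
    exact mul_ne_zero (by linarith) (prod_ne_zero_iff.2 (fun i hi => h0 i (mem_filter.1 hi).2))
  have hpos : 0 < g x := by
    refine lt_of_lt_of_le ?_ (hmax hx0)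
    simp only [g, ← mul_assoc]
    exact mul_pos (mul_self_pos.2 hP0) (Real.exp_pos _)
  have hPx : eval x P ≠ 0 := fun e => by simp [g, e] at hpos
  have hPx' := hPx
  rw [hev] at hPx'
  have a1 : ∑ j, x j ^ 2 < R := lt_of_le_of_ne hx.1 (fun e => left_ne_zero_of_mul hPx' (by linarith))
  have a2 : ∀ i, q i ≠ 0 → 0 < eval x0 (q i) * eval x (q i) := fun i hi =>
    lt_of_le_of_ne (Set.mem_iInter.1 hx.2 i) (mul_ne_zero (h0 i hi)
      (prod_ne_zero_iff.1 (right_ne_zero_of_mul hPx') i (mem_filter.2 ⟨mem_univ _, hi⟩))).symm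
  refine ⟨x, fun i => ?_, hPx, fun j => ?_⟩
  · by_cases hi : q i = 0
    · simp [hi]
    · rcases pos_and_pos_or_neg_and_neg_of_mul_pos (a2 i hi) with ⟨u, v⟩ | ⟨u, v⟩
      · rw [sign_pos u, sign_pos v]
      · rw [sign_neg u, sign_neg v]
  · have hnh : K ∈ nhds x := by
      have ho : IsOpen {x : σ → ℝ | ∑ j, x j ^ 2 < R} := isOpen_lt (by fun_prop) continuous_const
      refine Filter.inter_mem (Filter.mem_of_superset (ho.mem_nhds a1)
        (fun y hy => le_of_lt (show ∑ j, y j ^ 2 < R from hy)))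
        (Filter.iInter_mem.2 fun i => ?_)
      by_cases hi : q i = 0
      · simp [hi]
      · exact Filter.mem_of_superset ((isOpen_lt continuous_const
          (continuous_const.mul (hcont _))).mem_nhds (a2 i hi))
          (fun y hy => le_of_lt (show 0 < eval x0 (q i) * eval y (q i) from hy))
    have hloc : IsLocalMax g (Function.update x j (x j)) := by
      rw [Function.update_eq_self]; exact hmax.isLocalMax hnh
    have hloc' : IsLocalMax (fun s => g (Function.update x j s)) (x j) :=
      hloc.comp_continuous (continuous_const.update j continuous_id).continuousAt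
    have d1 : HasDerivAt (fun s => -∑ i, c i * Function.update x j s i) (-c j) (x j) := by
      have := (hasDerivAt_eval (∑ i, C (c i) * X i) x j).fun_neg
      simp only [map_sum, map_mul, eval_C, eval_X, pderiv_C_mul] at this
      rw [sum_eq_single j (fun b _ hb => by simp [hb]) (by simp)] at this
      simpa using this
    have d2 := (((hasDerivAt_eval P x j).mul d1.exp).const_mul (eval x0 P))
    have d3 := hloc'.hasDerivAt_eq_zero d2
    simp only [Function.update_eq_self] at d3
    have d4 : Real.exp (-∑ i, c i * x i) * (eval x (pderiv j P) - c j * eval x P) = 0 := by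
      have := (mul_eq_zero.1 d3).resolve_left hP0
      linarith
    have := (mul_eq_zero.1 d4).resolve_left (Real.exp_pos _).ne'
    linarith

/-- the number of nowhere vanishing sign patterns -/
theorem warren {ι : Type} [Fintype ι] (q : ι → MvPolynomial σ ℝ) (d : ℕ)
    (hq : ∀ i, (q i).totalDegree ≤ d) :
    {s : ι → SignType | ∃ x : σ → ℝ, (∀ i, q i ≠ 0 → eval x (q i) ≠ 0) ∧
      s = fun i => sign (eval x (q i))}.ncard ≤
      (Fintype.card σ * (Fintype.card ι * d + 2) + 1) ^ Fintype.card σ := by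
  set S := {s : ι → SignType | ∃ x : σ → ℝ, (∀ i, q i ≠ 0 → eval x (q i) ≠ 0) ∧
      s = fun i => sign (eval x (q i))} with hS
  have hx : ∀ s : S, ∃ x : σ → ℝ, (∀ i, q i ≠ 0 → eval x (q i) ≠ 0) ∧
      s.1 = fun i => sign (eval x (q i)) := fun s => s.2
  choose x hx1 hx2 using hx
  let R : ℝ := ∑ s : S, ∑ j, x s j ^ 2 + 1
  have hR : ∀ s, ∑ j, x s j ^ 2 < R := fun s => by
    have := single_le_sum (f := fun s : S => ∑ j, x s j ^ 2)
      (fun _ _ => sum_nonneg (fun _ _ => sq_nonneg _)) (mem_univ s)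
    simp only [R]; linarith
  let P : MvPolynomial σ ℝ := (C R - ∑ j, X j ^ 2) * ∏ i ∈ univ.filter (fun i => q i ≠ 0), q i
  have hP : P.totalDegree ≤ Fintype.card ι * d + 2 := by
    refine (totalDegree_mul _ _).trans ?_
    have h1 : (C R - ∑ j, X j ^ 2 : MvPolynomial σ ℝ).totalDegree ≤ 2 :=
      (totalDegree_sub _ _).trans (max_le (by simp)
        (totalDegree_finsetSum_le (fun j _ => (totalDegree_pow _ _).trans (by simp))))
    have h2 : (∏ i ∈ univ.filter (fun i => q i ≠ 0), q i).totalDegree ≤ Fintype.card ι * d :=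
      (totalDegree_finsetProd _ _).trans ((sum_le_card_nsmul _ _ d (fun i _ => hq i)).trans
        (Nat.mul_le_mul_right _ (card_le_univ _)))
    omega
  obtain ⟨c, hc⟩ := fiber_bound _ P (fun j => pderiv j P) hP
    (fun j => (totalDegree_pderiv_le j P).trans hP)
  choose y hy1 hy2 hy3 using fun s : S => exists_crit q R c (x s) (hx1 s) (hR s) P rfl
  have hinj : Function.Injective y := by
    intro s s' e
    apply Subtype.ext
    rw [hx2 s, hx2 s']
    funext i
    rw [← hy1 s i, ← hy1 s' i, e]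
  have := hc (univ.image y) (fun z hz => by
    obtain ⟨s, _, rfl⟩ := mem_image.1 hz
    exact ⟨hy2 s, hy3 s⟩)
  rw [card_image_of_injective _ hinj, card_univ] at this
  rwa [← Nat.card_coe_set_eq, Nat.card_eq_fintype_card]

end Pool.Agent.Lib.MP_5bf547_co
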