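import Mathlib
import Pool.Agent.Lib.MP_5bf547_co.Trans
import Pool.Agent.Lib.MP_5bf547_co.Fam
import Pool.Agent.Lib.MP_5bf547_co.Warren

namespace Pool.Agent.Lib.MP_5bf547_co

open Classical Finset SignType MvPolynomial

abbrev Vr (n : ℕ) := Option (Fin n) × Bool

variable {n : ℕ}

section ring
variable {R : Type} [CommRing R]

def cp (x : Vr n → R) : Fin n → R × R := fun i => (x (some i, false), x (some i, true))
def cz (x : Vr n → R) : R × R := (x (none, false), x (none, true))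

def tq (x : Vr n → R) : TI n ⊕ KI n → R
  | .inl t => tp (cp x) t
  | .inr k => Phi (cp x) k (cz x)

end ring

lemma eval_Phi (x : Vr n → ℝ) (k : KI n) (z : MvPolynomial (Vr n) ℝ × MvPolynomial (Vr n) ℝ) :
    eval x (Phi (cp X) k z) = Phi (cp x) k (eval x z.1, eval x z.2) := by
  rcases k with i | i | e <;> simp [Phi, cp]

lemma eval_al (x : Vr n → ℝ) (l : LI n) (k : KI n) : eval x (al (cp X) l k) = al (cp x) l k := by
  rcases l with i | e <;> simp only [al, eval_Phi] <;> simp [pA, cp]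

lemma eval_be (x : Vr n → ℝ) (l : LI n) (k : KI n) : eval x (be (cp X) l k) = be (cp x) l k := by
  rcases l with i | e <;> simp only [be, map_sub, eval_Phi] <;> simp [pA, pB, cp]

lemma eval_tq (x : Vr n → ℝ) (t : TI n ⊕ KI n) : eval x (tq X t) = tq x t := by
  rcases t with (t | t | t) | k
  · exact eval_al _ _ _
  · exact eval_be _ _ _
  · simp only [tq, tp, map_sub, map_mul, eval_al, eval_be]
  · simp only [tq, eval_Phi]; simp [cz]

lemma deg_sub {a b : MvPolynomial (Vr n) ℝ} {d : ℕ} (ha : a.totalDegree ≤ d)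
    (hb : b.totalDegree ≤ d) : (a - b).totalDegree ≤ d := (totalDegree_sub _ _).trans (max_le ha hb)

lemma deg_mul {a b : MvPolynomial (Vr n) ℝ} {d : ℕ} (ha : a.totalDegree ≤ d)
    (hb : b.totalDegree ≤ d) : (a * b).totalDegree ≤ 2 * d :=
  (totalDegree_mul _ _).trans (by omega)

lemma deg_X (v : Vr n) : (X v : MvPolynomial (Vr n) ℝ).totalDegree ≤ 1 := (totalDegree_X v).le

lemma deg_Phi (k : KI n) (z : MvPolynomial (Vr n) ℝ × MvPolynomial (Vr n) ℝ)
    (h1 : z.1.totalDegree ≤ 1) (h2 : z.2.totalDegree ≤ 1) : (Phi (cp X) k z).totalDegree ≤ 2 := by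
  rcases k with i | i | e
  · exact (deg_sub h1 (deg_X _)).trans (by norm_num)
  · exact (deg_sub h2 (deg_X _)).trans (by norm_num)
  · exact deg_sub (deg_mul (deg_sub (deg_X _) (deg_X _)) (deg_sub h2 (deg_X _)))
      (deg_mul (deg_sub (deg_X _) (deg_X _)) (deg_sub h1 (deg_X _)))

lemma deg_al (l : LI n) (k : KI n) :
    (al (cp (X : Vr n → MvPolynomial (Vr n) ℝ)) l k).totalDegree ≤ 2 := by
  rcases l with i | e <;> exact deg_Phi _ _ (deg_X _) (deg_X _)

lemma deg_be (l : LI n) (k : KI n) :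
    (be (cp (X : Vr n → MvPolynomial (Vr n) ℝ)) l k).totalDegree ≤ 2 := by
  refine deg_sub ?_ (deg_al l k)
  rcases l with i | e
  · exact deg_Phi _ _ (deg_X _) ((totalDegree_add _ _).trans (max_le (deg_X _) (by simp)))
  · exact deg_Phi _ _ (deg_X _) (deg_X _)

lemma deg_tq (t : TI n ⊕ KI n) :
    (tq (X : Vr n → MvPolynomial (Vr n) ℝ) t).totalDegree ≤ 4 := by
  rcases t with (t | t | t) | k
  · exact (deg_al _ _).trans (by norm_num)
  · exact (deg_be _ _).trans (by norm_num)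
  · exact deg_sub (deg_mul (deg_al _ _) (deg_be _ _)) (deg_mul (deg_al _ _) (deg_be _ _))
  · exact (deg_Phi _ _ (deg_X _) (deg_X _)).trans (by norm_num)

/-- generic configurations -/
def GX (x : Vr n → ℝ) : Prop :=
  ∀ t, tq (X : Vr n → MvPolynomial (Vr n) ℝ) t ≠ 0 → eval x (tq X t) ≠ 0

lemma GX.ne {x : Vr n → ℝ} (h : GX x) (t : TI n ⊕ KI n) (y : Vr n → ℝ) (hy : tq y t ≠ 0) :
    tq x t ≠ 0 := by
  rw [← eval_tq]
  exact h t (fun e => hy (by rw [← eval_tq, e, map_zero]))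

lemma GX.gen {x : Vr n → ℝ} (h : GX x) : Gen (cp x) := by
  let y : Vr n → ℝ := fun v => match v with
    | (some i, false) => (i : ℕ)
    | (some i, true) => ((i : ℕ) : ℝ) ^ 2
    | (none, _) => 0
  have hy : ∀ i j : Fin n, i ≠ j → ((i : ℕ) : ℝ) - (j : ℕ) ≠ 0 := fun i j k e =>
    k (Fin.ext (Nat.cast_injective (R := ℝ) (sub_eq_zero.1 e)))
  constructor
  · intro i j e
    by_contra k
    exact h.ne (.inl (.inl (.inl i, .inl j))) y (hy i j k) (sub_eq_zero.2 e)
  · intro i j k a b c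
    refine h.ne (.inl (.inl (.inl k, .inr (.inr (i, j))))) y (fun e => ?_)
    apply mul_ne_zero (mul_ne_zero (hy j i a.symm) (hy k i b.symm)) (hy k j c.symm)
    simp only [tq, tp, al, Phi, pA, cp, y] at e
    linear_combination e

lemma exists_GX (x0 : Vr n → ℝ) {δ : ℝ} (hδ : 0 < δ) : ∃ x, GX x ∧ ∀ v, |x v - x0 v| < δ := by
  have hP : ∏ t ∈ univ.filter (fun t => tq (X : Vr n → MvPolynomial (Vr n) ℝ) t ≠ 0),
      tq (X : Vr n → MvPolynomial (Vr n) ℝ) t ≠ 0 :=
    prod_ne_zero_iff.2 (fun t ht => (mem_filter.1 ht).2)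
  by_contra hc
  push Not at hc
  apply hP
  refine MvPolynomial.funext_set (fun v => Set.Ioo (x0 v - δ) (x0 v + δ))
    (fun v => Set.Ioo_infinite (by linarith)) (fun x hx => ?_)
  rw [map_zero, map_prod]
  by_contra k
  obtain ⟨v, hv⟩ := hc x (fun t ht => prod_ne_zero_iff.1 k t (mem_filter.2 ⟨mem_univ _, ht⟩))
  have := hx v trivial
  exact absurd (abs_lt.2 ⟨by linarith [this.1], by linarith [this.2]⟩) (not_lt.2 hv)

lemma ori_rf (a b c : Pt) : ori (rf a) (rf b) (rf c) = -ori a b c := by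
  simp only [ori, rf]; ring

lemma Gen.rf {p : Fin n → Pt} (h : Gen p) : Gen (fun i => rf (p i)) :=
  ⟨h.x, fun i j k a b c => by rw [ori_rf]; exact neg_ne_zero.2 (h.col i j k a b c)⟩

lemma fam_rf (p : Fin n → Pt) (J D : ℕ) : Fam (fun i => rf (p i)) J D ⊆ Fam p J D :=
  fam_sub (p := fun i => rf (p i)) (p' := p) (fun _ _ h => h) (fun e e' h => by
    simpa only [Crs, ori_rf, neg_mul_neg] using h) J D

/-- graphs described by one face of a generic drawing -/
def One (n : ℕ) : Set (SimpleGraph (Fin n)) :=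
  {G | ∃ (x : Vr n → ℝ) (B : Set (Fin n × Fin n)), GX x ∧ Ordered (cp x) B ∧ cz x ∈ Free (cp x) B ∧
    ∀ u v, u ≠ v → (G.Adj u v ↔ ¬ Blk (cp x) B (cz x) u v)}

lemma ncard_le_mul {α β : Type} [Finite α] {S : Set α} {T : Set β} (hT : T.Finite) (f : α → β)
    (hf : ∀ a ∈ S, f a ∈ T) (m : ℕ) (h : ∀ b ∈ T, {a ∈ S | f a = b}.ncard ≤ m) :
    S.ncard ≤ T.ncard * m := by
  have := card_le_mul_card_image_of_maps_to (s := (Set.toFinite S).toFinset) (t := hT.toFinset)
    (f := f) (fun a ha => by simpa using hf a (by simpa using ha)) m (fun b hb => by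
      have := h b (by simpa using hb)
      refine le_trans (le_of_eq ?_) this
      rw [← Set.ncard_coe_finset]
      congr 1
      ext a; simp)
  rw [Set.ncard_eq_toFinset_card S, Set.ncard_eq_toFinset_card T hT, mul_comm]
  exact this

theorem one_card (n K J : ℕ) (hK : 0 < K) (hJ : n < K ^ J) :
    (One n).ncard ≤ (Fintype.card (Vr n) * (Fintype.card (TI n ⊕ KI n) * 4 + 2) + 1) ^
      Fintype.card (Vr n) * ((n * n + 1) ^ (2 * n + J * (15 * n)) * ((n ^ n) ^ J *
        ((4 ^ n) ^ ((1 + 5 * (K * K + K)) * ((1 + 5 * (K * K + K)) * (1 + 5 * (K * K + K))))) ^ J)) ^ 2 := by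
  set D := 1 + 5 * (K * K + K) with hD
  have hx : ∀ G : SimpleGraph (Fin n), ∃ (x : Vr n → ℝ) (B : Set (Fin n × Fin n)), G ∈ One n →
      GX x ∧ Ordered (cp x) B ∧ cz x ∈ Free (cp x) B ∧
      ∀ u v, u ≠ v → (G.Adj u v ↔ ¬ Blk (cp x) B (cz x) u v) := by
    intro G
    by_cases h : G ∈ One n
    · obtain ⟨x, B, k⟩ := h
      exact ⟨x, B, fun _ => k⟩
    · exact ⟨0, ∅, fun k => absurd k h⟩
  choose x B hx using hx
  refine le_trans ?_ (Nat.mul_le_mul_right _ (warren (tq X) 4 deg_tq))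
  refine ncard_le_mul (Set.toFinite _) (fun G t => sign (eval (x G) (tq X t)))
    (fun G hG => ?_) _ ?_
  · exact ⟨x G, (hx G hG).1, rfl⟩
  rintro _ ⟨y, hy, rfl⟩
  have hy' : Gen (cp y) := GX.gen hy
  have key : ∀ G ∈ One n, (fun t => sign (eval (x G) (tq X t))) = (fun t => sign (eval y (tq X t))) →
      Top (cp (x G)) (B G) (cz (x G)) ∈ Fam (cp y) J D ∧
      Top (fun i => rf (cp (x G) i)) (B G) (rf (cz (x G))) ∈ Fam (cp y) J D ∧
      ∀ u v, u ≠ v → (G.Adj u v ↔ ¬ Blk (cp y) (Bd (cp (x G)) (B G) (cz (x G))) (cz y) u v) := by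
    intro G hG e
    obtain ⟨a, b, c, d⟩ := hx G hG
    have hg := a.gen
    have hst : ST (cp (x G)) (cp y) := fun t => by
      have := congrFun e (.inl t)
      simp only [eval_tq] at this
      exact this
    have hsv : SV (cp (x G)) (cz (x G)) (cp y) (cz y) := fun k => by
      have := congrFun e (.inr k)
      simp only [eval_tq] at this
      exact this
    have hs := fam_sub (fun i j => hst.xlt) (fun e e' => hst.crs) J D
    refine ⟨hs (top_mem_fam b c hg K J hK hJ),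
      hs (fam_rf _ J D (top_mem_fam (p := fun i => rf (cp (x G) i)) b (rf_free c) hg.rf K J hK hJ)),
      fun u v huv => ?_⟩
    have b' : Ordered (cp (x G)) (Bd (cp (x G)) (B G) (cz (x G))) := fun e he => b e (bd_sub he)
    have c' := free_mono (bd_sub (p := cp (x G)) (B := B G) (z0 := cz (x G))) c
    rw [d u v huv, not_iff_not]
    have : Blk (cp (x G)) (B G) (cz (x G)) u v ↔
        Blk (cp (x G)) (Bd (cp (x G)) (B G) (cz (x G))) (cz (x G)) u v := by
      unfold Blk; rw [face_bd b c]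
    rw [this]
    exact ⟨blk_transfer hst hg b' c' hsv huv, blk_transfer hst.symm hy' (hst.ord b')
      (hsv.free b' (hst.ord b') c') hsv.symm huv⟩
  refine (Set.ncard_le_ncard_of_injOn (t := Fam (cp y) J D ×ˢ Fam (cp y) J D)
    (fun G => (Top (cp (x G)) (B G) (cz (x G)),
      Top (fun i => rf (cp (x G) i)) (B G) (rf (cz (x G)))))
    (fun G hG => ⟨(key G hG.1 hG.2).1, (key G hG.1 hG.2).2.1⟩) ?_ (Set.toFinite _)).trans ?_
  · intro G hG G' hG' e
    have e' : Bd (cp (x G)) (B G) (cz (x G)) = Bd (cp (x G')) (B G') (cz (x G')) := by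
      exact congrArg (fun z : Set (Fin n × Fin n) × Set (Fin n × Fin n) => z.1 ∪ z.2) e
    ext u v
    by_cases huv : u = v
    · simp [huv]
    · rw [(key G hG.1 hG.2).2.2 u v huv, (key G' hG'.1 hG'.2).2.2 u v huv, e']
  · rw [Set.ncard_prod, pow_two]
    exact Nat.mul_le_mul (fam_card hy' J D) (fam_card hy' J D)

end Pool.Agent.Lib.MP_5bf547_co
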