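import Mathlib
import Pool.Agent.Lib.MP_5bf547_co.Types

namespace Pool.Agent.Lib.MP_5bf547_co

open Classical Finset Metric

variable {n : ℕ}

lemma seg_near {a b a' b' q : Pt} {δ : ℝ} (ha : dist a a' < δ) (hb : dist b b' < δ)
    (hq : q ∈ segment ℝ a b) : ∃ q' ∈ segment ℝ a' b', dist q q' < δ := by
  obtain ⟨s, t, hs, ht, hst, rfl⟩ := hq
  refine ⟨s • a' + t • b', ⟨s, t, hs, ht, hst, rfl⟩, ?_⟩
  rw [dist_eq_norm, ← mem_ball_zero_iff] at *
  have := convex_ball (0 : Pt) δ ha hb hs ht hst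
  rwa [smul_sub, smul_sub, ← add_sub_add_comm] at this

lemma mem_one (G : SimpleGraph (Fin n)) (p : Fin n → Pt) (O : Set Pt) (h1 : IsCompact O)
    (h2 : IsConnected O) (h3 : ∀ i, p i ∉ O)
    (h4 : ∀ i j, i ≠ j → (G.Adj i j ↔ Disjoint (segment ℝ (p i) (p j)) O)) : G ∈ One n := by
  let C : Set Pt := (⋃ i, {p i}) ∪ ⋃ e : {e : Fin n × Fin n // G.Adj e.1 e.2},
    segment ℝ (p e.1.1) (p e.1.2)
  have hC : IsClosed C := (isClosed_iUnion_of_finite (fun i => isClosed_singleton)).union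
    (isClosed_iUnion_of_finite (fun e => (isCompact_seg _ _).isClosed))
  have hd : Disjoint O C := by
    rw [Set.disjoint_left]
    rintro z hz (k | k)
    · obtain ⟨i, hi⟩ := Set.mem_iUnion.1 k
      exact h3 i (hi ▸ hz)
    · obtain ⟨e, he⟩ := Set.mem_iUnion.1 k
      exact Set.disjoint_left.1 ((h4 _ _ e.2.ne).1 e.2) he hz
  obtain ⟨δ, hδ, hdd⟩ := hd.exists_thickenings h1 hC
  obtain ⟨z0, hz0⟩ := h2.nonempty
  let x0 : Vr n → ℝ := fun v => match v with
    | (some i, false) => (p i).1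
    | (some i, true) => (p i).2
    | (none, false) => z0.1
    | (none, true) => z0.2
  obtain ⟨x, hx, hnear⟩ := exists_GX x0 hδ
  have n1 : ∀ i, dist (cp x i) (p i) < δ := fun i => by
    rw [Prod.dist_eq]
    exact max_lt (hnear (some i, false)) (hnear (some i, true))
  have n2 : dist (cz x) z0 < δ := by
    rw [Prod.dist_eq]
    exact max_lt (hnear (none, false)) (hnear (none, true))
  let B : Set (Fin n × Fin n) := {e | G.Adj e.1 e.2 ∧ (cp x e.1).1 < (cp x e.2).1}
  have hB : Ordered (cp x) B := fun e he => he.2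
  have hball : ∀ z ∈ O, ball z δ ⊆ Free (cp x) B := by
    intro z hz q hq
    have k : q ∉ thickening δ C :=
      Set.disjoint_left.1 hdd (mem_thickening_iff.2 ⟨z, hz, hq⟩)
    refine ⟨fun i e => k (mem_thickening_iff.2 ⟨p i, Or.inl (Set.mem_iUnion.2 ⟨i, rfl⟩),
      e ▸ n1 i⟩), fun e he hm => k ?_⟩
    obtain ⟨q', a, b⟩ := seg_near (n1 _) (n1 _) hm
    exact mem_thickening_iff.2 ⟨q', Or.inr (Set.mem_iUnion.2 ⟨⟨e, he.1⟩, a⟩), b⟩
  have hf : cz x ∈ Free (cp x) B := hball z0 hz0 n2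
  have hO : O ⊆ Face (cp x) B (cz x) := by
    refine h2.isPreconnected.subset_of_closure_inter_subset (isOpen_face hf) ⟨z0, hz0,
      Conn.single (((convex_ball z0 δ).segment_subset n2 (mem_ball_self hδ)).trans
        (hball z0 hz0))⟩ ?_
    rintro q ⟨q1, q2⟩
    obtain ⟨z, hz, hd⟩ := Metric.mem_closure_iff.1 q1 δ hδ
    exact face_seg hz (((convex_ball q δ).segment_subset (by rwa [mem_ball, dist_comm])
      (mem_ball_self hδ)).trans (hball q q2)) (right_mem_segment _ _ _)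
  refine ⟨x, B, hx, hB, hf, fun u v huv => ⟨fun ha ⟨q, q1, q2⟩ => ?_, fun hb => ?_⟩⟩
  · have := (face_free hf q2).2
    rcases lt_or_gt_of_ne (fun k => huv (hx.gen.x u v k)) with c | c
    · exact this (u, v) ⟨ha, c⟩ q1
    · exact this (v, u) ⟨ha.symm, c⟩ (by rwa [segment_symm] at q1)
  · rw [h4 u v huv, Set.disjoint_left]
    intro q q1 q2
    obtain ⟨q', a, b⟩ := seg_near (a' := cp x u) (b' := cp x v) (by rw [dist_comm]; exact n1 u)
      (by rw [dist_comm]; exact n1 v) q1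
    exact hb ⟨q', a, face_seg (hO q2) (((convex_ball q δ).segment_subset (mem_ball_self hδ)
      (by rwa [mem_ball, dist_comm])).trans (hball q q2)) (right_mem_segment _ _ _)⟩

/-- coordinates of the Euclidean plane -/
def crd : EuclideanSpace ℝ (Fin 2) →ₗ[ℝ] Pt where
  toFun := fun x => (x 0, x 1)
  map_add' := fun _ _ => rfl
  map_smul' := fun _ _ => rfl

lemma crd_inj : Function.Injective crd := by
  intro x y h
  ext i
  fin_cases i
  · exact congrArg Prod.fst h
  · exact congrArg Prod.snd h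

lemma mem_one' (G : SimpleGraph (Fin n)) (p : Fin n → EuclideanSpace ℝ (Fin 2))
    (O : Set (EuclideanSpace ℝ (Fin 2))) (h1 : IsCompact O)
    (h2 : IsConnected O) (h3 : ∀ i, p i ∉ O)
    (h4 : ∀ i j, i ≠ j → (G.Adj i j ↔ Disjoint (segment ℝ (p i) (p j)) O)) : G ∈ One n := by
  have hc : Continuous crd := crd.continuous_of_finiteDimensional
  refine mem_one G (fun i => crd (p i)) (crd '' O) (h1.image hc) (h2.image _ hc.continuousOn)
    (fun i k => h3 i ((crd_inj.mem_set_image).1 k)) (fun i j k => ?_)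
  have : segment ℝ (crd (p i)) (crd (p j)) = crd '' segment ℝ (p i) (p j) :=
    (image_segment ℝ crd.toAffineMap (p i) (p j)).symm
  rw [h4 i j k, this, Set.disjoint_image_iff crd_inj]

/-- graphs with at most `h` obstacles -/
def Obs (h n : ℕ) : Set (SimpleGraph (Fin n)) :=
  {G : SimpleGraph (Fin n) | ∃ k : ℕ, k ≤ h ∧
    ∃ p : Fin n → EuclideanSpace ℝ (Fin 2), Function.Injective p ∧
    ∃ O : Fin k → Set (EuclideanSpace ℝ (Fin 2)),
      (∀ m : Fin k, IsCompact (O m) ∧ IsConnected (O m) ∧ ∀ i : Fin n, p i ∉ O m) ∧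
      ∀ i j : Fin n, i ≠ j →
        (G.Adj i j ↔ ∀ m : Fin k, Disjoint (segment ℝ (p i) (p j)) (O m))}

lemma obs_card (h n : ℕ) : (Obs h n).ncard ≤ ((One n).ncard + 1) ^ h := by
  let Φ : (Fin h → Option (One n)) → SimpleGraph (Fin n) := fun g =>
    ⨅ m, (g m).elim ⊤ Subtype.val
  have hsub : Obs h n ⊆ Φ '' Set.univ := by
    rintro G ⟨k, hk, p, -, O, h1, h2⟩
    let H : Fin k → SimpleGraph (Fin n) := fun m =>
      { Adj := fun i j => i ≠ j ∧ Disjoint (segment ℝ (p i) (p j)) (O m)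
        symm := ⟨fun i j h => ⟨h.1.symm, by rw [segment_symm]; exact h.2⟩⟩
        loopless := ⟨fun i h => h.1 rfl⟩ }
    have hH : ∀ m, H m ∈ One n := fun m => mem_one' _ p (O m) (h1 m).1 (h1 m).2.1 (h1 m).2.2
      (fun i j k => ⟨fun a => a.2, fun a => ⟨k, a⟩⟩)
    refine ⟨fun m => if c : (m : ℕ) < k then some ⟨H ⟨m, c⟩, hH _⟩ else none, trivial, ?_⟩
    ext u v
    simp only [Φ, SimpleGraph.iInf_adj]
    constructor
    · rintro ⟨a, b⟩
      refine (h2 u v b).2 (fun m => ?_)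
      have := a ⟨m, lt_of_lt_of_le m.2 hk⟩
      simp only [m.2, dif_pos, Option.elim_some] at this
      exact this.2
    · intro a
      refine ⟨fun m => ?_, a.ne⟩
      by_cases c : (m : ℕ) < k
      · simp only [c, dif_pos, Option.elim_some]
        exact ⟨a.ne, (h2 u v a.ne).1 a _⟩
      · simp only [c, dif_neg, not_false_iff, Option.elim_none]
        exact a.ne
  refine (Set.ncard_le_ncard hsub (Set.toFinite _)).trans ((Set.ncard_image_le).trans ?_)
  rw [Set.ncard_univ, Nat.card_eq_fintype_card, Fintype.card_fun, Fintype.card_option,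
    Fintype.card_fin, ← Nat.card_coe_set_eq, Nat.card_eq_fintype_card]

end Pool.Agent.Lib.MP_5bf547_co
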