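import Mathlib
import Pool.Agent.Lib.MP_5bf547_co.Perturb

namespace Pool.Agent.Lib.MP_5bf547_co

open Classical Finset Filter Asymptotics Topology

lemma types_bound (n : ℕ) : (Fintype.card (Vr n) * (Fintype.card (TI n ⊕ KI n) * 4 + 2) + 1) ^
      Fintype.card (Vr n) ≤ (n + 2) ^ (26 * (n + 2)) := by
  have hv : Fintype.card (Vr n) = (n + 1) * 2 := by simp
  have hl : Fintype.card (LI n) ≤ (n + 2) ^ 2 := by simp; nlinarith
  have hk : Fintype.card (KI n) ≤ (n + 2) ^ 2 := by simp; nlinarith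
  have hm : Fintype.card (TI n ⊕ KI n) = Fintype.card (LI n) * Fintype.card (KI n) +
      (Fintype.card (LI n) * Fintype.card (KI n) + Fintype.card (LI n) *
        (Fintype.card (KI n) * Fintype.card (KI n))) + Fintype.card (KI n) := by
    simp only [Fintype.card_sum, Fintype.card_prod]
  rw [hv, hm]
  generalize Fintype.card (LI n) = l at *
  generalize Fintype.card (KI n) = k at *
  clear hv hm
  obtain ⟨N, hN⟩ : ∃ N, N = n + 2 := ⟨_, rfl⟩
  rw [← hN] at hl hk ⊢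
  have h2 : 2 ≤ N := by omega
  have p1 : ∀ a b, a ≤ b → N ^ a ≤ N ^ b := fun a b h => Nat.pow_le_pow_right (by omega) h
  have e1 : l * k ≤ N ^ 6 := (Nat.mul_le_mul hl hk).trans (by rw [← pow_add]; exact p1 _ _ (by norm_num))
  have e2 : l * (k * k) ≤ N ^ 6 := (Nat.mul_le_mul hl (Nat.mul_le_mul hk hk)).trans
    (by rw [← pow_add, ← pow_add])
  have e3 : k ≤ N ^ 6 := hk.trans (p1 _ _ (by norm_num))
  have e4 : 1 ≤ N ^ 6 := Nat.one_le_pow _ _ (by omega)
  have e5 : 64 ≤ N ^ 6 := le_trans (by norm_num) (Nat.pow_le_pow_left h2 6)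
  have e6 : (n + 1) * 2 * ((l * k + (l * k + l * (k * k)) + k) * 4 + 2) + 1 ≤ N ^ 13 := by
    have : (n + 1) * 2 * ((l * k + (l * k + l * (k * k)) + k) * 4 + 2) ≤ (N * 2) * (18 * N ^ 6) :=
      Nat.mul_le_mul (by omega) (by omega)
    have e7 : N ^ 13 = N ^ 6 * (N * N ^ 6) := by ring
    have e8 : 1 ≤ N * N ^ 6 := Nat.mul_pos (by omega) e4
    have e9 : 64 * (N * N ^ 6) ≤ N ^ 6 * (N * N ^ 6) := Nat.mul_le_mul_right _ e5
    have e10 : (N * 2) * (18 * N ^ 6) = 36 * (N * N ^ 6) := by ring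
    omega
  calc _ ≤ (N ^ 13) ^ ((n + 1) * 2) := Nat.pow_le_pow_left e6 _
    _ ≤ N ^ (26 * N) := by rw [← pow_mul]; exact p1 _ _ (by omega)

lemma one_bound (n K J : ℕ) (hK : 0 < K) (hJ : n < K ^ J) :
    (One n).ncard + 1 ≤ (n + 2) ^ (35 * (n + 2) + 62 * ((n + 2) * J)) *
      2 ^ (4 * (1 + 5 * (K * K + K)) ^ 3 * ((n + 2) * J)) := by
  have h := one_card n K J hK hJ
  generalize 1 + 5 * (K * K + K) = D at *
  have h1 := types_bound n
  generalize (Fintype.card (Vr n) * (Fintype.card (TI n ⊕ KI n) * 4 + 2) + 1) ^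
    Fintype.card (Vr n) = W at h h1
  generalize (One n).ncard = M at h ⊢
  obtain ⟨N, hN⟩ : ∃ N, N = n + 2 := ⟨_, rfl⟩
  rw [← hN] at h1 ⊢
  have h2 : (n * n + 1) ^ (2 * n + J * (15 * n)) * ((n ^ n) ^ J * ((4 ^ n) ^ (D * (D * D))) ^ J) ≤
      (N ^ 2) ^ (2 * N + J * (15 * N)) * ((N ^ N) ^ J * ((4 ^ N) ^ (D * (D * D))) ^ J) := by
    have a : n ≤ N := by omega
    have b : n * n + 1 ≤ N ^ 2 := by rw [hN]; nlinarith
    have c : n ^ n ≤ N ^ N := (Nat.pow_le_pow_left a _).trans (Nat.pow_le_pow_right (by omega) a)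
    refine Nat.mul_le_mul ((Nat.pow_le_pow_left b _).trans (Nat.pow_le_pow_right (by omega) ?_)) ?_
    · gcongr
    · gcongr
      norm_num
  have h3 := h.trans (Nat.mul_le_mul h1 (Nat.pow_le_pow_left h2 2))
  have h4 : 2 ≤ N ^ N := le_trans (by omega) (Nat.le_self_pow (by omega) N)
  have h5 : N ^ (35 * N + 62 * (N * J)) * 2 ^ (4 * D ^ 3 * (N * J)) = N ^ N * (N ^ (26 * N) *
      ((N ^ 2) ^ (2 * N + J * (15 * N)) * ((N ^ N) ^ J * ((4 ^ N) ^ (D * (D * D))) ^ J)) ^ 2) := by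
    rw [show (4 : ℕ) = 2 ^ 2 by norm_num]
    simp only [mul_pow, ← pow_mul, ← mul_assoc, ← pow_add]
    congr 2 <;> ring
  rw [h5]
  have h6 : 0 < N ^ (26 * N) *
      ((N ^ 2) ^ (2 * N + J * (15 * N)) * ((N ^ N) ^ J * ((4 ^ N) ^ (D * (D * D))) ^ J)) ^ 2 := by
    have : 0 < N := by omega
    positivity
  generalize N ^ (26 * N) *
      ((N ^ 2) ^ (2 * N + J * (15 * N)) * ((N ^ N) ^ J * ((4 ^ N) ^ (D * (D * D))) ^ J)) ^ 2 = Y at *
  have := Nat.mul_le_mul_right Y h4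
  omega

noncomputable def wt (n : ℕ) : ℝ := ((n : ℝ) + 2) * Real.log ((n : ℝ) + 2) ^ 2

lemma log_lb (n : ℕ) : 1 / 2 < Real.log ((n : ℝ) + 2) := by
  have := Real.log_two_gt_d9
  have h : Real.log 2 ≤ Real.log ((n : ℝ) + 2) :=
    Real.log_le_log (by norm_num) (by linarith [Nat.cast_nonneg (α := ℝ) n])
  linarith

lemma wt_pos (n : ℕ) : 0 < wt n := by
  have := log_lb n
  unfold wt
  have : 0 < Real.log ((n : ℝ) + 2) := by linarith
  positivity

lemma eps_bound' (K : ℕ) (hK : 2 ≤ K) (n : ℕ) :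
    Real.log ((One n).ncard + 1) / wt n ≤ 62 / Real.log K +
      (97 + 16 * ((1 + 5 * (K * K + K) : ℕ) : ℝ) ^ 3) / Real.log ((n : ℝ) + 2) := by
  set D : ℕ := 1 + 5 * (K * K + K) with hD
  set J := Nat.log K n + 1 with hJ
  have h := one_bound n K J (by omega) (Nat.lt_pow_succ_log_self (by omega) n)
  rw [← hD] at h
  have hL := log_lb n
  set L := Real.log ((n : ℝ) + 2) with hLd
  have hl2 := Real.log_two_gt_d9
  have hl2' := Real.log_two_lt_d9
  have hk : Real.log 2 ≤ Real.log K := Real.log_le_log (by norm_num) (by exact_mod_cast hK)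
  set k := Real.log K with hkd
  have hk0 : 0 < k := by linarith
  have hL0 : 0 < L := by linarith
  have hJ' : (J : ℝ) ≤ L / k + 1 := by
    rw [hJ]; push_cast
    have : K ^ Nat.log K n ≤ n + 2 := by
      rcases Nat.eq_zero_or_pos n with e | e
      · subst e; simp
      · exact (Nat.pow_log_le_self K e.ne').trans (by omega)
    have h1 : ((K : ℝ)) ^ Nat.log K n ≤ (n : ℝ) + 2 := by exact_mod_cast this
    have h2 := Real.log_le_log (by positivity) h1
    rw [Real.log_pow] at h2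
    have : (Nat.log K n : ℝ) ≤ L / k := by rw [le_div_iff₀ hk0]; exact h2
    linarith
  have h1 : ((One n).ncard + 1 : ℝ) ≤ ((n : ℝ) + 2) ^ (35 * (n + 2) + 62 * ((n + 2) * J)) *
      2 ^ (4 * D ^ 3 * ((n + 2) * J)) := by exact_mod_cast h
  have h2 := Real.log_le_log (by positivity) h1
  rw [Real.log_mul (by positivity) (by positivity), Real.log_pow, Real.log_pow, ← hLd] at h2
  push_cast at h2
  rw [div_le_iff₀ (wt_pos n)]
  refine h2.trans ?_
  unfold wt
  rw [← hLd]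
  have hN : (0 : ℝ) < (n : ℝ) + 2 := by positivity
  generalize (n : ℝ) + 2 = N at *
  have hD3 : (0 : ℝ) ≤ (D : ℝ) ^ 3 := by positivity
  generalize (D : ℝ) ^ 3 = E at *
  have hJ0 : (0 : ℝ) ≤ J := Nat.cast_nonneg _
  have e1 : (62 / k + (97 + 16 * E) / L) * (N * L ^ 2) =
      N * (62 * (L / k) * L + (97 + 16 * E) * L) := by field_simp
  have e2 : L / k ≤ 2 * L := by rw [div_le_iff₀ hk0]; nlinarith
  have e3 : (J : ℝ) * Real.log 2 ≤ 4 * L := by nlinarith
  have e4 : (J : ℝ) * L ≤ (L / k + 1) * L := mul_le_mul_of_nonneg_right hJ' hL0.le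
  rw [e1]
  have e5 : E * (J * Real.log 2) ≤ E * (4 * L) := mul_le_mul_of_nonneg_left e3 hD3
  have : (35 * N + 62 * (N * J)) * L + 4 * E * (N * J) * Real.log 2 =
      N * (35 * L + 62 * (J * L) + 4 * (E * (J * Real.log 2))) := by ring
  rw [this]
  refine mul_le_mul_of_nonneg_left ?_ hN.le
  nlinarith

lemma eps_bound (K : ℕ) (hK : 2 ≤ K) : ∃ C : ℝ, ∀ n : ℕ,
    Real.log ((One n).ncard + 1) / wt n ≤ 62 / Real.log K + C / Real.log ((n : ℝ) + 2) :=
  ⟨_, eps_bound' K hK⟩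

lemma eps_tendsto : Tendsto (fun n : ℕ => Real.log ((One n).ncard + 1) / wt n) atTop (𝓝 0) := by
  rw [Metric.tendsto_atTop]
  intro η hη
  have t1 : Tendsto (fun K : ℕ => 62 / Real.log K) atTop (𝓝 0) :=
    Tendsto.const_div_atTop (Real.tendsto_log_atTop.comp tendsto_natCast_atTop_atTop) _
  obtain ⟨K, hK1, hK2⟩ := ((t1.eventually (gt_mem_nhds (half_pos hη))).and
    (eventually_ge_atTop 2)).exists
  obtain ⟨C, hC⟩ := eps_bound K hK2
  have t2 : Tendsto (fun n : ℕ => C / Real.log ((n : ℝ) + 2)) atTop (𝓝 0) :=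
    Tendsto.const_div_atTop (Real.tendsto_log_atTop.comp
      (tendsto_atTop_add_const_right _ _ tendsto_natCast_atTop_atTop)) _
  obtain ⟨N, hN⟩ := eventually_atTop.1 (t2.eventually (gt_mem_nhds (half_pos hη)))
  refine ⟨N, fun n hn => ?_⟩
  rw [Real.dist_eq, sub_zero, abs_of_nonneg (div_nonneg (Real.log_nonneg (by
    linarith [Nat.cast_nonneg (α := ℝ) (One n).ncard])) (wt_pos n).le)]
  linarith [hC n, hN n hn]

lemma diag (a : ℕ → ℕ → ℝ) (ε c : ℕ → ℝ) (hε : Tendsto ε atTop (𝓝 0)) (h0 : ∀ h n, 0 ≤ a h n)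
    (h1 : ∀ h n, a h n ≤ h * ε n) (h2 : ∀ h n, a h n ≤ c n) :
    ∃ φ : ℕ → ℝ, (φ =o[atTop] fun h : ℕ => (h : ℝ)) ∧ ∀ h n, a h n ≤ φ h := by
  have key : ∀ η : ℝ, 0 < η → ∃ C : ℝ, ∀ h n, a h n ≤ h * η + C := by
    intro η hη
    obtain ⟨N, hN⟩ := eventually_atTop.1 (hε.eventually (gt_mem_nhds hη))
    have hc : ∀ n, 0 ≤ c n := fun n => (h0 0 n).trans (h2 0 n)
    refine ⟨∑ n ∈ range N, c n, fun h n => ?_⟩
    have k1 : (0 : ℝ) ≤ h * η := by positivity
    rcases lt_or_ge n N with k | k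
    · linarith [h2 h n, single_le_sum (f := c) (fun i _ => hc i) (mem_range.2 k)]
    · have := mul_le_mul_of_nonneg_left (hN n k).le (Nat.cast_nonneg (α := ℝ) h)
      linarith [h1 h n, sum_nonneg (s := range N) (fun i _ => hc i)]
  have hb : ∀ h, BddAbove (Set.range (a h)) := fun h => by
    obtain ⟨C, hC⟩ := key 1 one_pos
    exact ⟨h * 1 + C, by rintro _ ⟨n, rfl⟩; exact hC h n⟩
  refine ⟨fun h => ⨆ n, a h n, ?_, fun h n => le_ciSup (hb h) n⟩
  rw [isLittleO_iff]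
  intro η hη
  obtain ⟨C, hC⟩ := key (η / 2) (half_pos hη)
  filter_upwards [tendsto_natCast_atTop_atTop.eventually (eventually_ge_atTop (C / (η / 2)))]
    with h hh
  rw [Real.norm_eq_abs, Real.norm_eq_abs, abs_of_nonneg ((h0 h 0).trans (le_ciSup (hb h) 0)),
    abs_of_nonneg (Nat.cast_nonneg _)]
  refine (ciSup_le (hC h)).trans ?_
  rw [div_le_iff₀ (half_pos hη)] at hh
  linarith

lemma wt_isBigO : (fun n => wt n / Real.log 2) =O[atTop] fun n : ℕ => (n : ℝ) * Real.log n ^ 2 := by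
  refine IsBigO.of_bound (8 / Real.log 2) ?_
  filter_upwards [eventually_ge_atTop 2] with n hn
  have hl2 := Real.log_two_gt_d9
  have hn' : (2 : ℝ) ≤ n := by exact_mod_cast hn
  rw [Real.norm_eq_abs, Real.norm_eq_abs, abs_of_nonneg (div_nonneg (wt_pos n).le (by linarith)),
    abs_of_nonneg (by positivity), div_mul_eq_mul_div]
  refine div_le_div_of_nonneg_right ?_ (by linarith)
  unfold wt
  have h1 : Real.log ((n : ℝ) + 2) ≤ 2 * Real.log n := by
    have := Real.log_le_log (by positivity) (show (n : ℝ) + 2 ≤ (n : ℝ) ^ 2 by nlinarith)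
    rwa [Real.log_pow] at this
  have h2 := log_lb n
  calc ((n : ℝ) + 2) * Real.log ((n : ℝ) + 2) ^ 2 ≤ (2 * n) * (2 * Real.log n) ^ 2 := by
        gcongr; linarith
    _ = _ := by ring

theorem main : ∃ f φ : ℕ → ℝ, (∀ n, 0 < f n) ∧ (∀ h, 0 < φ h) ∧
    (f =O[atTop] fun n : ℕ => (n : ℝ) * Real.log (n : ℝ) ^ 2) ∧
    (φ =o[atTop] fun h : ℕ => (h : ℝ)) ∧
    ∀ h n : ℕ, ((Obs h n).ncard : ℝ) ≤ (2 : ℝ) ^ (f n * φ h) := by
  obtain ⟨φ, h1, h2⟩ := diag (fun h n => Real.log ((Obs h n).ncard) / wt n)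
    (fun n : ℕ => Real.log ((One n).ncard + 1) / wt n)
    (fun n => Real.log (Nat.card (SimpleGraph (Fin n))) / wt n) eps_tendsto
    (fun h n => div_nonneg (Real.log_natCast_nonneg _) (wt_pos n).le) (fun h n => by
      rw [← mul_div_assoc, ← Real.log_pow]
      refine div_le_div_of_nonneg_right ?_ (wt_pos n).le
      rcases Nat.eq_zero_or_pos (Obs h n).ncard with e | e
      · rw [e, Nat.cast_zero, Real.log_zero]
        exact Real.log_nonneg (one_le_pow₀ (by linarith [Nat.cast_nonneg (α := ℝ) (One n).ncard]))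
      · exact Real.log_le_log (by exact_mod_cast e) (by exact_mod_cast obs_card h n)) (fun h n => by
      refine div_le_div_of_nonneg_right ?_ (wt_pos n).le
      rcases Nat.eq_zero_or_pos (Obs h n).ncard with e | e
      · rw [e, Nat.cast_zero, Real.log_zero]
        exact Real.log_natCast_nonneg _
      · refine Real.log_le_log (by exact_mod_cast e) ?_
        exact_mod_cast Set.ncard_le_card _)
  have hl2 := Real.log_two_gt_d9
  have hφ : ∀ h, 0 ≤ φ h := fun h =>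
    (div_nonneg (Real.log_natCast_nonneg _) (wt_pos 0).le).trans (h2 h 0)
  refine ⟨fun n => wt n / Real.log 2, fun h => φ h + 1, fun n => div_pos (wt_pos n) (by linarith),
    fun h => by linarith [hφ h], wt_isBigO, h1.add ?_, fun h n => ?_⟩
  · exact (isLittleO_const_id_atTop (1 : ℝ)).comp_tendsto tendsto_natCast_atTop_atTop
  · rw [Real.rpow_def_of_pos (by norm_num)]
    refine (Real.le_exp_log _).trans (Real.exp_le_exp.2 ?_)
    have := h2 h n
    rw [div_le_iff₀ (wt_pos n)] at this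
    have e : Real.log 2 * (wt n / Real.log 2 * (φ h + 1)) = φ h * wt n + wt n := by
      field_simp
    rw [e]
    linarith [wt_pos n]

end Pool.Agent.Lib.MP_5bf547_co
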