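import Mathlib
import Pool.Agent.Lib.MP_5bf547_co.Final

namespace Pool.Agent.Lib.MP_5bf547_co

open Classical Finset Filter Topology

/-- graphs with at most `h` obstacles, vertices may lie on obstacles -/
def Obs' (h n : ℕ) : Set (SimpleGraph (Fin n)) :=
  {G : SimpleGraph (Fin n) | ∃ k : ℕ, k ≤ h ∧
    ∃ p : Fin n → EuclideanSpace ℝ (Fin 2), Function.Injective p ∧
    ∃ O : Fin k → Set (EuclideanSpace ℝ (Fin 2)),
      (∀ m : Fin k, IsCompact (O m) ∧ IsConnected (O m)) ∧
      ∀ i j : Fin n, i ≠ j →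
        (G.Adj i j ↔ ∀ m : Fin k, Disjoint (segment ℝ (p i) (p j)) (O m))}

def cut {n : ℕ} (G : SimpleGraph (Fin n)) (I : Set (Fin n)) : SimpleGraph (Fin n) where
  Adj := fun i j => G.Adj i j ∧ i ∉ I ∧ j ∉ I
  symm := ⟨fun _ _ h => ⟨h.1.symm, h.2.2, h.2.1⟩⟩
  loopless := ⟨fun _ h => h.1.ne rfl⟩

lemma obs_card' (h n : ℕ) : (Obs' h n).ncard ≤ (((One n).ncard + 1) * 2 ^ n) ^ h := by
  let Φ : (Fin h → Option (One n) × Set (Fin n)) → SimpleGraph (Fin n) := fun g =>
    ⨅ m, cut ((g m).1.elim ⊤ Subtype.val) (g m).2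
  have hsub : Obs' h n ⊆ Φ '' Set.univ := by
    rintro G ⟨k, hk, p, -, O, h1, h2⟩
    have hout : ∀ m, ∃ z, z ∉ O m := fun m => by
      by_contra c
      push Not at c
      exact noncompact_univ _ (Set.eq_univ_of_forall c ▸ (h1 m).1)
    choose z hz using hout
    let p' : Fin k → Fin n → EuclideanSpace ℝ (Fin 2) := fun m i =>
      if p i ∈ O m then z m else p i
    let H : Fin k → SimpleGraph (Fin n) := fun m =>
      { Adj := fun i j => i ≠ j ∧ Disjoint (segment ℝ (p' m i) (p' m j)) (O m)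
        symm := ⟨fun i j h => ⟨h.1.symm, by rw [segment_symm]; exact h.2⟩⟩
        loopless := ⟨fun i h => h.1 rfl⟩ }
    have hH : ∀ m, H m ∈ One n := fun m => mem_one' _ (p' m) (O m) (h1 m).1 (h1 m).2
      (fun i => by
        by_cases c : p i ∈ O m
        · simp only [p', if_pos c]; exact hz m
        · simp only [p', if_neg c]; exact c)
      (fun i j k => ⟨fun a => a.2, fun a => ⟨k, a⟩⟩)
    refine ⟨fun m => if c : (m : ℕ) < k then (some ⟨H ⟨m, c⟩, hH _⟩, {i | p i ∈ O ⟨m, c⟩})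
      else (none, ∅), trivial, ?_⟩
    ext u v
    simp only [Φ, SimpleGraph.iInf_adj]
    constructor
    · rintro ⟨a, b⟩
      refine (h2 u v b).2 (fun m => ?_)
      have := a ⟨m, lt_of_lt_of_le m.2 hk⟩
      simp only [m.2, dif_pos, Option.elim_some] at this
      obtain ⟨⟨-, k1⟩, k2, k3⟩ := this
      have k2' : p u ∉ O m := k2
      have k3' : p v ∉ O m := k3
      simp only [p', Fin.eta] at k1
      rwa [if_neg k2', if_neg k3'] at k1
    · intro a
      refine ⟨fun m => ?_, a.ne⟩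
      by_cases c : (m : ℕ) < k
      · simp only [c, dif_pos, Option.elim_some]
        have k1 := (h2 u v a.ne).1 a ⟨m, c⟩
        have k2 : p u ∉ O ⟨m, c⟩ := Set.disjoint_left.1 k1 (left_mem_segment _ _ _)
        have k3 : p v ∉ O ⟨m, c⟩ := Set.disjoint_left.1 k1 (right_mem_segment _ _ _)
        refine ⟨⟨a.ne, ?_⟩, k2, k3⟩
        simp only [p']
        rwa [if_neg k2, if_neg k3]
      · simp only [c, dif_neg, not_false_iff, Option.elim_none]
        exact ⟨a.ne, fun x => x, fun x => x⟩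
  refine (Set.ncard_le_ncard hsub (Set.toFinite _)).trans ((Set.ncard_image_le).trans ?_)
  rw [Set.ncard_univ, Nat.card_eq_fintype_card, Fintype.card_fun, Fintype.card_prod,
    Fintype.card_option, Fintype.card_set, Fintype.card_fin, Fintype.card_fin, ← Nat.card_coe_set_eq,
    Nat.card_eq_fintype_card]

lemma obs_triv (h n : ℕ) : (Obs' h n).ncard ≤ 2 ^ (n * n) := by
  refine (Set.ncard_le_card _).trans ((Nat.card_le_card_of_injective
    (fun G : SimpleGraph (Fin n) => {e : Fin n × Fin n | G.Adj e.1 e.2}) ?_).trans ?_)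
  · intro G G' e
    ext u v
    exact Set.ext_iff.1 e (u, v)
  · simp

lemma log_le_two_sqrt {x : ℝ} (hx : 0 < x) : Real.log x ≤ 2 * √x := by
  have := Real.log_le_sub_one_of_pos (Real.sqrt_pos.2 hx)
  rw [Real.log_sqrt hx.le] at this
  linarith

lemma one_quant : ∃ C : ℝ, 0 < C ∧ ∀ n : ℕ, 1 ≤ n →
    Real.log (((One n).ncard + 1) * 2 ^ n) * (1 + Real.log (Real.log ((n : ℝ) + 2))) ≤ C * wt n := by
  refine ⟨62 * 24 + 3 * (97 + 16 * (11 * 9) ^ 3) + 2, by norm_num, fun n hn => ?_⟩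
  have hn' : (1 : ℝ) ≤ n := by exact_mod_cast hn
  have hL : 1 ≤ Real.log ((n : ℝ) + 2) := by
    rw [Real.le_log_iff_exp_le (by linarith)]
    linarith [Real.exp_one_lt_d9]
  have hw := wt_pos n
  have hwt : wt n = ((n : ℝ) + 2) * Real.log ((n : ℝ) + 2) ^ 2 := rfl
  have hb := fun K hK => eps_bound' K hK n
  set L := Real.log ((n : ℝ) + 2) with hLd
  obtain ⟨r, hr1, hr⟩ : ∃ r : ℝ, 1 ≤ r ∧ r ^ 12 = L := ⟨L ^ ((12 : ℕ) : ℝ)⁻¹,
    Real.one_le_rpow hL (by positivity), Real.rpow_inv_natCast_pow (by linarith) (by norm_num)⟩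
  have hK : 2 ≤ ⌈r⌉₊ + 1 := by
    have : 0 < ⌈r⌉₊ := Nat.ceil_pos.2 (by linarith)
    omega
  have hb := hb _ hK
  have k1 : r ≤ ((⌈r⌉₊ + 1 : ℕ) : ℝ) := by push_cast; linarith [Nat.le_ceil r]
  have k2 : ((⌈r⌉₊ + 1 : ℕ) : ℝ) ≤ 3 * r := by
    push_cast; linarith [Nat.ceil_lt_add_one (show 0 ≤ r by linarith)]
  have k3 : (2 : ℝ) ≤ ((⌈r⌉₊ + 1 : ℕ) : ℝ) := by exact_mod_cast hK
  generalize ⌈r⌉₊ + 1 = K at *
  have hl2 := Real.log_two_gt_d9
  have hl2' := Real.log_two_lt_d9
  have a1 : Real.log L = 12 * Real.log r := by rw [← hr, Real.log_pow]; norm_num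
  have a2 : Real.log r ≤ Real.log K := Real.log_le_log (by linarith) k1
  have a3 : Real.log 2 ≤ Real.log K := Real.log_le_log (by linarith) k3
  have a4 : 0 ≤ Real.log L := Real.log_nonneg hL
  have a5 : 1 + Real.log L ≤ 24 * Real.log K := by linarith
  have a6 : 1 + Real.log L ≤ 3 * r ^ 6 := by
    have := Real.log_le_sub_one_of_pos (show 0 < r ^ 6 by positivity)
    rw [Real.log_pow] at this
    have := one_le_pow₀ (n := 6) hr1
    push_cast at *
    linarith
  have a7 : ((1 + 5 * (K * K + K) : ℕ) : ℝ) ≤ 11 * 9 * r ^ 2 := by push_cast; nlinarith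
  have a8 : ((1 + 5 * (K * K + K) : ℕ) : ℝ) ^ 3 ≤ (11 * 9) ^ 3 * r ^ 6 := by
    calc _ ≤ (11 * 9 * r ^ 2) ^ 3 := pow_le_pow_left₀ (by positivity) a7 3
      _ = _ := by ring
  generalize ((1 + 5 * (K * K + K) : ℕ) : ℝ) ^ 3 = E at *
  have r6 := one_le_pow₀ (n := 6) hr1
  have b1 : 62 / Real.log K * (1 + Real.log L) ≤ 62 * 24 := by
    rw [div_mul_eq_mul_div, div_le_iff₀ (by linarith)]; linarith
  have b2 : (97 + 16 * E) / L * (1 + Real.log L) ≤ 3 * (97 + 16 * (11 * 9) ^ 3) := by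
    rw [div_mul_eq_mul_div, div_le_iff₀ (by linarith)]
    calc (97 + 16 * E) * (1 + Real.log L) ≤ ((97 + 16 * (11 * 9) ^ 3) * r ^ 6) * (1 + Real.log L) :=
          mul_le_mul_of_nonneg_right (by linarith) (by linarith)
      _ ≤ ((97 + 16 * (11 * 9) ^ 3) * r ^ 6) * (3 * r ^ 6) :=
          mul_le_mul_of_nonneg_left a6 (by positivity)
      _ = _ := by rw [← hr]; ring
  have b3 : n * Real.log 2 * (1 + Real.log L) ≤ 2 * wt n := by
    have := Real.log_le_sub_one_of_pos (show 0 < L by linarith)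
    rw [hwt]
    calc n * Real.log 2 * (1 + Real.log L) ≤ (n + 2) * 1 * L ^ 2 := by
          gcongr
          · linarith
          · linarith
          · nlinarith
      _ ≤ _ := by rw [hwt] at hw; linarith
  rw [div_le_iff₀ hw] at hb
  rw [Real.log_mul (by positivity) (by positivity), Real.log_pow]
  have b4 := mul_le_mul_of_nonneg_right hb (show 0 ≤ 1 + Real.log L by linarith)
  have b5 := mul_le_mul_of_nonneg_right (add_le_add b1 b2) hw.le
  nlinarith

theorem quant : ∃ C : ℝ, 0 < C ∧ ∀ h n : ℕ, 1 ≤ h → 1 ≤ n → ((Obs' h n).ncard : ℝ) ≤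
    (2 : ℝ) ^ (C * (n * Real.log ((n : ℝ) + 1) ^ 2) *
      (h / Real.log (Real.log ((n : ℝ) + h + 2)))) := by
  obtain ⟨C, hC, H⟩ := one_quant
  refine ⟨2 * (12 * C + 16), by positivity, fun h n hh hn => ?_⟩
  have hn' : (1 : ℝ) ≤ n := by exact_mod_cast hn
  have hh' : (1 : ℝ) ≤ h := by exact_mod_cast hh
  have hl2 := Real.log_two_gt_d9
  have hl2' := Real.log_two_lt_d9
  have hM : 0 < Real.log (Real.log ((n : ℝ) + h + 2)) := by
    apply Real.log_pos
    rw [Real.lt_log_iff_exp_lt (by linarith)]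
    linarith [Real.exp_one_lt_d9]
  have hA : Real.log 2 ≤ Real.log ((n : ℝ) + 1) := Real.log_le_log (by norm_num) (by linarith)
  have key : Real.log (Obs' h n).ncard * Real.log (Real.log ((n : ℝ) + h + 2)) ≤
      (12 * C + 16) * (n * Real.log ((n : ℝ) + 1) ^ 2) * h := by
    have hpos : 0 < (n : ℝ) * Real.log ((n : ℝ) + 1) ^ 2 := by
      have : 0 < Real.log ((n : ℝ) + 1) := by linarith
      positivity
    rcases Nat.eq_zero_or_pos (Obs' h n).ncard with e | e
    · rw [e, Nat.cast_zero, Real.log_zero, zero_mul]; positivity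
    have e' : (0 : ℝ) < (Obs' h n).ncard := by exact_mod_cast e
    rcases le_or_gt h (n * n) with c | c
    · have c' : (h : ℝ) ≤ n * n := by exact_mod_cast c
      have h1 : Real.log (Obs' h n).ncard ≤ h * Real.log (((One n).ncard + 1) * 2 ^ n) := by
        rw [← Real.log_pow]
        exact Real.log_le_log e' (by exact_mod_cast obs_card' h n)
      have hL := log_lb n
      have h2 : Real.log ((n : ℝ) + h + 2) ≤ 2 * Real.log ((n : ℝ) + 2) := by
        have := Real.log_le_log (by positivity) (show (n : ℝ) + h + 2 ≤ ((n : ℝ) + 2) ^ 2 by nlinarith)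
        rwa [Real.log_pow] at this
      have h3 : Real.log (Real.log ((n : ℝ) + h + 2)) ≤ 1 + Real.log (Real.log ((n : ℝ) + 2)) := by
        have := Real.log_le_log (Real.log_pos (by linarith)) h2
        rw [Real.log_mul (by norm_num) (by linarith)] at this
        linarith
      have h4 : wt n ≤ 12 * (n * Real.log ((n : ℝ) + 1) ^ 2) := by
        have h5 : Real.log ((n : ℝ) + 2) ≤ 2 * Real.log ((n : ℝ) + 1) := by
          have := Real.log_le_log (by positivity) (show (n : ℝ) + 2 ≤ ((n : ℝ) + 1) ^ 2 by nlinarith)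
          rwa [Real.log_pow] at this
        unfold wt
        calc ((n : ℝ) + 2) * Real.log ((n : ℝ) + 2) ^ 2 ≤
            (3 * n) * (2 * Real.log ((n : ℝ) + 1)) ^ 2 := by gcongr; linarith
          _ = _ := by ring
      have h6 : 0 ≤ Real.log (((One n).ncard + 1) * 2 ^ n) := by
        apply Real.log_nonneg
        have : (0 : ℝ) ≤ (One n).ncard := Nat.cast_nonneg _
        have : (1 : ℝ) ≤ 2 ^ n := one_le_pow₀ (by norm_num)
        nlinarith
      calc _ ≤ (h * Real.log (((One n).ncard + 1) * 2 ^ n)) *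
            (1 + Real.log (Real.log ((n : ℝ) + 2))) :=
            mul_le_mul h1 h3 hM.le (by positivity)
        _ ≤ h * (C * wt n) := by
            rw [mul_assoc]; exact mul_le_mul_of_nonneg_left (H n hn) (by positivity)
        _ ≤ h * (C * (12 * (n * Real.log ((n : ℝ) + 1) ^ 2))) := by gcongr
        _ ≤ _ := by nlinarith [mul_pos hpos (show (0 : ℝ) < h by linarith)]
    · have c' : (n : ℝ) * n ≤ h := by exact_mod_cast c.le
      have h1 : Real.log (Obs' h n).ncard ≤ n * n := by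
        have := Real.log_le_log e' (show ((Obs' h n).ncard : ℝ) ≤ 2 ^ (n * n) by
          exact_mod_cast obs_triv h n)
        rw [Real.log_pow] at this
        push_cast at this
        nlinarith [mul_pos (show (0 : ℝ) < n by linarith) (show (0 : ℝ) < n by linarith)]
      have h2 : (n : ℝ) ≤ √h := Real.le_sqrt_of_sq_le (by nlinarith)
      have h3 : Real.log (Real.log ((n : ℝ) + h + 2)) ≤ 4 * √h := by
        have a := Real.log_le_sub_one_of_pos (Real.log_pos (show (1 : ℝ) < n + h + 2 by linarith))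
        have b := log_le_two_sqrt (show (0 : ℝ) < n + h + 2 by linarith)
        have d : √((n : ℝ) + h + 2) ≤ 2 * √h := by
          rw [Real.sqrt_le_left (by positivity), mul_pow, Real.sq_sqrt (by linarith)]
          nlinarith
        linarith
      have h4 : √(h : ℝ) * √h = h := Real.mul_self_sqrt (by linarith)
      have h5 : 1 / 4 ≤ Real.log ((n : ℝ) + 1) ^ 2 := by nlinarith
      calc _ ≤ (n * √h) * (4 * √h) :=
            mul_le_mul (h1.trans (by gcongr)) h3 hM.le (by positivity)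
        _ = 16 * (n * (1 / 4)) * h := by linear_combination 4 * n * h4
        _ ≤ 16 * (n * Real.log ((n : ℝ) + 1) ^ 2) * h := by gcongr
        _ ≤ _ := by gcongr; linarith
  rw [Real.rpow_def_of_pos (by norm_num)]
  refine (Real.le_exp_log _).trans (Real.exp_le_exp.2 ?_)
  rw [← le_div_iff₀ hM] at key
  refine key.trans ?_
  have : 0 ≤ (12 * C + 16) * (n * Real.log ((n : ℝ) + 1) ^ 2) * h /
    Real.log (Real.log ((n : ℝ) + h + 2)) := by positivity
  have e : 2 * (12 * C + 16) * (n * Real.log ((n : ℝ) + 1) ^ 2) *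
      (h / Real.log (Real.log ((n : ℝ) + h + 2))) = 2 * ((12 * C + 16) *
        (n * Real.log ((n : ℝ) + 1) ^ 2) * h / Real.log (Real.log ((n : ℝ) + h + 2))) := by ring
  rw [e]
  nlinarith

end Pool.Agent.Lib.MP_5bf547_co
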